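import Mathlib

/-!
# Finite 2-groups in which almost all, but not all, elements satisfy x ^ 4 = 1

For a natural number n let K be the elementary abelian group of functions from Fin n to ZMod 2 and
let V be the extraspecial group of pairs of functions a, b on K with values in ZMod 2 together with
a central coordinate c, with product
(a, b, c) (a', b', c') = (a + a', b + b', c + c' + dot b a').
The group K acts on V by translating the functions, and the involution that swaps a and b and adds
dot a b to c commutes with K. The group `Elt n` is the semidirect product of V by K x C_2.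
Every element whose K-coordinate is nonzero satisfies x ^ 4 = 1, but not every element does.
-/

set_option autoImplicit false

namespace Pool.Agent.TH595.PowerGap

/-- The elementary abelian 2-group of rank n. -/
abbrev K (n : ℕ) : Type := Fin n → ZMod 2

/-- Functions on `K n` with values in the field with two elements. -/
abbrev Fn (n : ℕ) : Type := K n → ZMod 2

/-- Translation of a function. -/
def sh {n : ℕ} (k : K n) (u : Fn n) : Fn n := fun f => u (f + k)

/-- The standard bilinear form. -/
def dot {n : ℕ} (u v : Fn n) : ZMod 2 := ∑ f, u f * v f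

section lemmas

variable {n : ℕ}

lemma sh_add (k : K n) (u v : Fn n) : sh k (u + v) = sh k u + sh k v := rfl

lemma sh_zero_fn (k : K n) : sh k (0 : Fn n) = 0 := rfl

lemma sh_zero (u : Fn n) : sh (0 : K n) u = u := by
  funext f; simp [sh]

lemma sh_add' (k l : K n) (u : Fn n) : sh (k + l) u = sh k (sh l u) := by
  funext f; simp [sh, add_assoc]

lemma K_add_self (k : K n) : k + k = 0 := by
  funext i; exact CharTwo.add_self_eq_zero (k i)

lemma Fn_add_self (u : Fn n) : u + u = 0 := by
  funext i; exact CharTwo.add_self_eq_zero (u i)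

lemma z_add_self (c : ZMod 2) : c + c = 0 := CharTwo.add_self_eq_zero c

lemma sh_sh_self (k : K n) (u : Fn n) : sh k (sh k u) = u := by
  rw [← sh_add', K_add_self, sh_zero]

lemma dot_comm (u v : Fn n) : dot u v = dot v u := by
  unfold dot; exact Finset.sum_congr rfl fun f _ => mul_comm _ _

lemma dot_add_left (u v w : Fn n) : dot (u + v) w = dot u w + dot v w := by
  unfold dot; rw [← Finset.sum_add_distrib]
  exact Finset.sum_congr rfl fun f _ => by simp [add_mul]

lemma dot_add_right (u v w : Fn n) : dot u (v + w) = dot u v + dot u w := by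
  unfold dot; rw [← Finset.sum_add_distrib]
  exact Finset.sum_congr rfl fun f _ => by simp [mul_add]

lemma dot_zero_left (u : Fn n) : dot 0 u = 0 := by
  unfold dot; simp

lemma dot_zero_right (u : Fn n) : dot u 0 = 0 := by
  unfold dot; simp

lemma dot_sh (k : K n) (u v : Fn n) : dot (sh k u) (sh k v) = dot u v := by
  unfold dot sh
  exact Equiv.sum_comp (Equiv.addRight k) (fun f => u f * v f)

lemma dot_sh_swap (k : K n) (u v : Fn n) : dot (sh k u) v = dot u (sh k v) := by
  conv_lhs => rw [← sh_sh_self k v]
  rw [dot_sh]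

lemma dot_sh_self (k : K n) (hk : k ≠ 0) (u : Fn n) : dot u (sh k u) = 0 := by
  unfold dot sh
  refine Finset.sum_involution (fun f _ => f + k) ?_ ?_ ?_ ?_
  · intro f _
    have h : f + k + k = f := by rw [add_assoc, K_add_self, add_zero]
    simp only [h]
    rw [mul_comm (u (f + k)) (u f)]
    exact z_add_self _
  · intro f _ _ h
    exact hk (by simpa using h)
  · intro f _; exact Finset.mem_univ _
  · intro f _
    rw [add_assoc, K_add_self, add_zero]

end lemmas

/-- The elements of the group. -/
@[ext] structure Elt (n : ℕ) : Type where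
  /-- first function -/
  a : Fn n
  /-- second function -/
  b : Fn n
  /-- central coordinate -/
  c : ZMod 2
  /-- translation coordinate -/
  k : K n
  /-- swap coordinate -/
  s : Bool

namespace Elt

variable {n : ℕ}

/-- The product. -/
def mul' (x y : Elt n) : Elt n :=
  match x.s with
  | true =>
    { a := x.a + sh x.k y.b
      b := x.b + sh x.k y.a
      c := x.c + y.c + dot y.a y.b + dot x.b (sh x.k y.b)
      k := x.k + y.k
      s := !y.s }
  | false =>
    { a := x.a + sh x.k y.a
      b := x.b + sh x.k y.b
      c := x.c + y.c + dot x.b (sh x.k y.a)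
      k := x.k + y.k
      s := y.s }

/-- The inverse. -/
def inv' (x : Elt n) : Elt n :=
  match x.s with
  | true => { a := sh x.k x.b, b := sh x.k x.a, c := x.c, k := x.k, s := true }
  | false => { a := sh x.k x.a, b := sh x.k x.b, c := x.c + dot x.b x.a, k := x.k, s := false }

instance : Mul (Elt n) := ⟨mul'⟩
instance : One (Elt n) := ⟨{ a := 0, b := 0, c := 0, k := 0, s := false }⟩
instance : Inv (Elt n) := ⟨inv'⟩

lemma one_def : (1 : Elt n) = { a := 0, b := 0, c := 0, k := 0, s := false } := rfl

lemma mul_true (a b a' b' : Fn n) (c c' : ZMod 2) (k k' : K n) (s' : Bool) :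
    ({ a := a, b := b, c := c, k := k, s := true } : Elt n) *
      { a := a', b := b', c := c', k := k', s := s' } =
    { a := a + sh k b', b := b + sh k a', c := c + c' + dot a' b' + dot b (sh k b'),
      k := k + k', s := !s' } := rfl

lemma mul_false (a b a' b' : Fn n) (c c' : ZMod 2) (k k' : K n) (s' : Bool) :
    ({ a := a, b := b, c := c, k := k, s := false } : Elt n) *
      { a := a', b := b', c := c', k := k', s := s' } =
    { a := a + sh k a', b := b + sh k b', c := c + c' + dot b (sh k a'),
      k := k + k', s := s' } := rfl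

lemma inv_true (a b : Fn n) (c : ZMod 2) (k : K n) :
    ({ a := a, b := b, c := c, k := k, s := true } : Elt n)⁻¹ =
    { a := sh k b, b := sh k a, c := c, k := k, s := true } := rfl

lemma inv_false (a b : Fn n) (c : ZMod 2) (k : K n) :
    ({ a := a, b := b, c := c, k := k, s := false } : Elt n)⁻¹ =
    { a := sh k a, b := sh k b, c := c + dot b a, k := k, s := false } := rfl

lemma mul_assoc' (x y z : Elt n) : x * y * z = x * (y * z) := by
  obtain ⟨a, b, c, k, s⟩ := x
  obtain ⟨a', b', c', k', s'⟩ := y
  obtain ⟨a'', b'', c'', k'', s''⟩ := z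
  have h2 : (2 : ZMod 2) = 0 := rfl
  rcases s with _ | _ <;> rcases s' with _ | _
  · simp only [mul_false]
    ext1
    · simp only [sh_add, sh_add']; abel
    · simp only [sh_add, sh_add']; abel
    · simp only [sh_add, sh_add', dot_add_left, dot_add_right, dot_sh]; ring
    · exact add_assoc _ _ _
    · rfl
  · simp only [mul_false, mul_true]
    ext1
    · simp only [sh_add, sh_add']; abel
    · simp only [sh_add, sh_add']; abel
    · simp only [sh_add, sh_add', dot_add_left, dot_add_right, dot_sh]; ring
    · exact add_assoc _ _ _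
    · rfl
  · simp only [mul_false, mul_true, Bool.not_false]
    ext1
    · simp only [sh_add, sh_add']; abel
    · simp only [sh_add, sh_add']; abel
    · simp only [sh_add, sh_add', dot_add_left, dot_add_right, dot_sh]
      rw [dot_comm (sh k' a'') b']
      linear_combination (-(dot b' (sh k' a''))) * h2
    · exact add_assoc _ _ _
    · rfl
  · simp only [mul_false, mul_true, Bool.not_true]
    ext1
    · simp only [sh_add, sh_add']; abel
    · simp only [sh_add, sh_add']; abel
    · simp only [sh_add, sh_add', dot_add_left, dot_add_right, dot_sh]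
      rw [dot_comm (sh k' b'') b', dot_comm b'' a'']
      linear_combination (-(dot b' (sh k' b'')) - dot a'' b'') * h2
    · exact add_assoc _ _ _
    · simp

lemma one_mul' (x : Elt n) : 1 * x = x := by
  obtain ⟨a, b, c, k, s⟩ := x
  rw [one_def, mul_false]
  simp only [sh_zero, dot_zero_left, zero_add, add_zero]

lemma inv_mul' (x : Elt n) : x⁻¹ * x = 1 := by
  obtain ⟨a, b, c, k, s⟩ := x
  rcases s with _ | _
  · rw [inv_false, mul_false, one_def]
    ext1
    · exact Fn_add_self _
    · exact Fn_add_self _
    · change c + dot b a + c + dot (sh k b) (sh k a) = 0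
      rw [dot_sh]
      have h2 : (2 : ZMod 2) = 0 := rfl
      linear_combination (c + dot b a) * h2
    · exact K_add_self _
    · rfl
  · rw [inv_true, mul_true, one_def]
    ext1
    · exact Fn_add_self _
    · exact Fn_add_self _
    · change c + c + dot a b + dot (sh k a) (sh k b) = 0
      rw [dot_sh]
      have h2 : (2 : ZMod 2) = 0 := rfl
      linear_combination (c + dot a b) * h2
    · exact K_add_self _
    · rfl

instance : Group (Elt n) := Group.ofLeftAxioms mul_assoc' one_mul' inv_mul'

lemma pow_four_eq (x : Elt n) : x ^ 4 = (x * x) * (x * x) := by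
  rw [show (4 : ℕ) = 2 * 2 from rfl, pow_mul, pow_two, pow_two]

/-- The fourth power of an element with trivial swap coordinate. -/
lemma pow_four_false (a b : Fn n) (c : ZMod 2) (k : K n) :
    ({ a := a, b := b, c := c, k := k, s := false } : Elt n) ^ 4 = 1 := by
  have h2 : (2 : ZMod 2) = 0 := rfl
  rw [pow_four_eq]
  simp only [mul_false]
  rw [one_def]
  ext1
  · simp only [K_add_self, sh_zero, Fn_add_self]
  · simp only [K_add_self, sh_zero, Fn_add_self]
  · simp only [K_add_self, sh_zero, dot_add_left, dot_add_right, dot_sh_swap, sh_sh_self]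
    linear_combination (2 * c + dot b (sh k a) + dot b a + dot b (sh k a)) * h2
  · simp only [K_add_self]
  · rfl

/-- The fourth power of an element with nontrivial swap coordinate. -/
lemma pow_four_true (a b : Fn n) (c : ZMod 2) (k : K n) :
    ({ a := a, b := b, c := c, k := k, s := true } : Elt n) ^ 4 =
      { a := 0, b := 0, c := dot a (sh k a) + dot b (sh k b), k := 0, s := false } := by
  have h2 : (2 : ZMod 2) = 0 := rfl
  rw [pow_four_eq]
  simp only [mul_true, Bool.not_true, mul_false]
  ext1
  · simp only [K_add_self, sh_zero, Fn_add_self]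
  · simp only [K_add_self, sh_zero, Fn_add_self]
  · simp only [K_add_self, sh_zero, dot_add_left, dot_add_right, dot_sh_swap, sh_sh_self]
    rw [dot_comm b a]
    linear_combination (2 * c + 2 * dot a b + dot b (sh k b)) * h2
  · simp only [K_add_self]
  · rfl

lemma pow_four_of_k_ne (x : Elt n) (hx : x.k ≠ 0) : x ^ 4 = 1 := by
  obtain ⟨a, b, c, k, s⟩ := x
  rcases s with _ | _
  · exact pow_four_false a b c k
  · rw [pow_four_true, dot_sh_self k hx, dot_sh_self k hx, add_zero, one_def]

/-- An element whose fourth power is not trivial. -/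
def bad (n : ℕ) : Elt n :=
  { a := Pi.single 0 1, b := 0, c := 0, k := 0, s := true }

lemma bad_pow (n : ℕ) : (bad n) ^ 4 ≠ 1 := by
  unfold bad
  rw [pow_four_true, one_def]
  intro h
  have hc := congrArg Elt.c h
  simp only [sh_zero, dot_zero_left, add_zero] at hc
  revert hc
  unfold dot
  rw [Finset.sum_eq_single (0 : K n)]
  · simp
  · intro f _ hf
    simp [hf]
  · intro h; exact absurd (Finset.mem_univ _) h

/-- The coordinates of an element. -/
def equivProd (n : ℕ) : Elt n ≃ (Fn n × Fn n × ZMod 2 × Bool) × K n where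
  toFun x := ((x.a, x.b, x.c, x.s), x.k)
  invFun p := { a := p.1.1, b := p.1.2.1, c := p.1.2.2.1, k := p.2, s := p.1.2.2.2 }
  left_inv _ := rfl
  right_inv _ := rfl

instance : Finite (Elt n) := Finite.of_equiv _ (equivProd n).symm

lemma card_elt (n : ℕ) :
    Nat.card (Elt n) = Nat.card (Fn n × Fn n × ZMod 2 × Bool) * 2 ^ n := by
  rw [Nat.card_congr (equivProd n), Nat.card_prod]
  congr 1
  simp [Nat.card_eq_fintype_card, ZMod.card]

lemma card_good (n : ℕ) :
    Nat.card (Fn n × Fn n × ZMod 2 × Bool) * (2 ^ n - 1) ≤ Nat.card {x : Elt n // x ^ 4 = 1} := by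
  have h1 : Nat.card ((Fn n × Fn n × ZMod 2 × Bool) × {k : K n // k ≠ 0}) =
      Nat.card (Fn n × Fn n × ZMod 2 × Bool) * (2 ^ n - 1) := by
    rw [Nat.card_prod]
    congr 1
    rw [Nat.card_eq_fintype_card, Fintype.card_subtype_compl, Fintype.card_subtype_eq]
    simp [ZMod.card]
  rw [← h1]
  refine Nat.card_le_card_of_injective
    (fun p : (Fn n × Fn n × ZMod 2 × Bool) × {k : K n // k ≠ 0} =>
      (⟨(equivProd n).symm (p.1, p.2.1), pow_four_of_k_ne _ p.2.2⟩ : {x : Elt n // x ^ 4 = 1})) ?_
  intro p q h
  have h2 : (equivProd n).symm (p.1, p.2.1) = (equivProd n).symm (q.1, q.2.1) :=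
    congrArg Subtype.val h
  have h3 := (equivProd n).symm.injective h2
  have h4 := Prod.mk.inj h3
  exact Prod.ext h4.1 (Subtype.ext h4.2)

end Elt

/-- There is no gap for the law x ^ 4 = 1: for each positive ε some finite group of order a power
of two satisfies x ^ 4 = 1 with probability more than 1 - ε but less than 1. -/
theorem no_gap_four (ε : ℝ) (hε : 0 < ε) :
    ∃ n : ℕ, (1 - ε) * (Nat.card (Elt n) : ℝ) < (Nat.card {x : Elt n // x ^ 4 = 1} : ℝ) ∧
      ∃ x : Elt n, x ^ 4 ≠ 1 := by
  obtain ⟨n, hn⟩ := pow_unbounded_of_one_lt (1 / ε) (one_lt_two)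
  refine ⟨n, ?_, Elt.bad n, Elt.bad_pow n⟩
  have hgood : ((Nat.card (Fn n × Fn n × ZMod 2 × Bool) * (2 ^ n - 1) : ℕ) : ℝ) ≤
      (Nat.card {x : Elt n // x ^ 4 = 1} : ℝ) := by exact_mod_cast Elt.card_good n
  refine lt_of_lt_of_le ?_ hgood
  rw [Elt.card_elt]
  have hR : 0 < Nat.card (Fn n × Fn n × ZMod 2 × Bool) := Nat.card_pos
  have hR' : (0 : ℝ) < (Nat.card (Fn n × Fn n × ZMod 2 × Bool) : ℝ) := by exact_mod_cast hR
  have h1 : 1 ≤ 2 ^ n := Nat.one_le_two_pow
  push_cast [Nat.cast_sub h1]
  have h2 : 1 < ε * 2 ^ n := by
    rw [div_lt_iff₀ hε] at hn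
    linarith [mul_comm ε ((2 : ℝ) ^ n)]
  nlinarith

end Pool.Agent.TH595.PowerGap
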