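import Pool.Agent.TH595.Lim

set_option autoImplicit false

/-!
# Isometric actions; finding a translation of largest drift
-/

namespace Pool.Agent.TH595

open Filter

/-- A group acting by isometries which preserve the lists of neighbours up to reordering. -/
structure Acts (Γ : Type) [Group Γ] {V : Type} [MulAction Γ V] {Q : ℕ} (S : Sp V Q) : Prop where
  isom : ∀ (g : Γ) (x y : V), S.d (g • x) (g • y) = S.d x y
  equi : ∀ (g : Γ) (x : V), ∃ τ : Equiv.Perm (Fin Q), ∀ i, S.nb (g • x) i = g • S.nb x (τ i)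

/-- finitely many orbits -/
def Cofin (Γ : Type) [Group Γ] (V : Type) [MulAction Γ V] : Prop :=
  ∃ F : Finset V, ∀ x : V, ∃ g : Γ, g • x ∈ F

section
variable {Γ : Type} [Group Γ] {V : Type} [MulAction Γ V] {Q : ℕ} {S : Sp V Q}

theorem D_smul (hA : Acts Γ S) (f : V → ℤ) (g : Γ) (x : V) :
    D S f (g • x) = ∑ i, (f (g • S.nb x i) - f (g • x)) := by
  obtain ⟨τ, hτ⟩ := hA.equi g x
  unfold D
  rw [← Equiv.sum_comp τ fun i => f (g • S.nb x i) - f (g • x)]
  exact Finset.sum_congr rfl fun i _ => by rw [hτ]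

theorem D_shift (hA : Acts Γ S) {f : V → ℤ} {g : Γ} {x : V} {c : ℤ}
    (h0 : f (g • x) = f x - c) (h : ∀ i, f (g • S.nb x i) = f (S.nb x i) - c) :
    D S f (g • x) = D S f x := by
  rw [D_smul hA]
  unfold D
  refine Finset.sum_congr rfl fun i _ => ?_
  rw [h, h0]
  ring

theorem Lip.smul (hA : Acts Γ S) {f : V → ℤ} (hf : Lip S f) (g : Γ) (c : ℤ) :
    Lip S fun x => f (g • x) + c := by
  intro x y
  have := hf (g • x) (g • y)
  rw [hA.isom] at this
  simp only
  linarith

theorem Dn.smul (hA : Acts Γ S) {f : V → ℤ} (hf : Dn S f) (g : Γ) (c : ℤ) :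
    Dn S fun x => f (g • x) + c := by
  intro x
  obtain ⟨i, hi⟩ := hf (g • x)
  obtain ⟨τ, hτ⟩ := hA.equi g x
  refine ⟨τ i, ?_⟩
  simp only
  rw [← hτ, hi]
  ring

/-- A uniform radius beyond which distance functions have drift at most `c`. -/
theorem exists_radius_unif (hA : Acts Γ S) (hF : Cofin Γ V) {c : ℤ} (hc : IsMax S c) :
    ∃ m : ℕ, ∀ x y, m ≤ S.d x y → D S (fun z => (S.d z y : ℤ)) x ≤ c := by
  obtain ⟨F, hF⟩ := hF
  choose m hm using exists_radius hc
  refine ⟨∑ x ∈ F, m x, fun x y hxy => ?_⟩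
  obtain ⟨g, hg⟩ := hF x
  have h1 : m (g • x) ≤ ∑ x ∈ F, m x := Finset.single_le_sum (fun _ _ => Nat.zero_le _) hg
  have h2 := hm (g • x) (g • y) (by rw [hA.isom]; omega)
  have h3 : D S (fun z => (S.d z (g • y) : ℤ)) (g • x) = D S (fun z => (S.d z y : ℤ)) x := by
    rw [D_smul hA]
    unfold D
    refine Finset.sum_congr rfl fun i _ => ?_
    simp only [hA.isom]
  rwa [h3] at h2

/-- Thinness: below a point of maximal drift, all descending paths stay together. -/
theorem thin {c : ℤ} (hc : IsMax S c) {m : ℕ}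
    (hm : ∀ x y, m ≤ S.d x y → D S (fun z => (S.d z y : ℤ)) x ≤ c) {f : V → ℤ}
    (hf : Lip S f) (hd : Dn S f) {x w y : V} (hx : D S f x = c) (hw : T S f x w)
    (hy : T S f x y) (h : S.d x w + m ≤ S.d x y) : S.d w y + S.d x w = S.d x y := by
  obtain ⟨j, hj⟩ : ∃ j, S.d x w = j := ⟨_, rfl⟩
  induction j generalizing x with
  | zero =>
    rw [← S.eq_of_d x w hj, S.d_self]
    rfl
  | succ j ih =>
    obtain ⟨i, h1, h2, h3, h4⟩ := hw.split hf hj
    -- jets of the distance to `y` at `x`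
    have hge : ∀ k, 0 ≤ ((S.d (S.nb x k) y : ℤ) - S.d x y) - (f (S.nb x k) - f x) := by
      intro k
      have a1 := hf (S.nb x k) y
      unfold T at hy
      omega
    have hle : ∑ k, (((S.d (S.nb x k) y : ℤ) - S.d x y) - (f (S.nb x k) - f x)) ≤ 0 := by
      rw [Finset.sum_sub_distrib]
      have := hm x y (by omega)
      unfold D at this hx
      linarith
    have heq : ∀ k, ((S.d (S.nb x k) y : ℤ) - S.d x y) = (f (S.nb x k) - f x) := by
      intro k
      have := (Finset.sum_eq_zero_iff_of_nonneg fun k _ => hge k).1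
        (le_antisymm hle (Finset.sum_nonneg fun k _ => hge k)) k (Finset.mem_univ k)
      linarith
    have h5 := heq i
    have h6 : T S f (S.nb x i) y := by
      unfold T at h2 hy ⊢
      omega
    have h7 : D S f (S.nb x i) = c :=
      le_antisymm (hc.le f hf hd _) (hx ▸ D_mono hf h2)
    have h8 : S.d (S.nb x i) y + 1 = S.d x y := by
      unfold T at h2
      omega
    have h9 := ih h7 h3 h6 (by omega) h4
    omega

/-- powers along an axis -/
theorem isom_pow (hA : Acts Γ S) (s : Γ) (i j : ℕ) (x : V) :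
    S.d (s ^ i • x) (s ^ (i + j) • x) = S.d x (s ^ j • x) := by
  rw [pow_add, mul_smul, hA.isom]

/-- There is a translation along a line of maximal drift. -/
theorem exists_translation (hA : Acts Γ S) (hF : Cofin Γ V) {c : ℤ} (hc : IsMax S c) :
    ∃ (s : Γ) (p : ℕ) (x : V) (f : V → ℤ), 1 ≤ p ∧ (∀ n : ℕ, S.d x (s ^ n • x) = n * p) ∧
      Lip S f ∧ Dn S f ∧ D S f x = c ∧ ∀ n : ℕ, f (s ^ n • x) = f x - n * p := by
  classical
  obtain ⟨f, x₀, hf, hd, hx₀⟩ := hc.ex
  obtain ⟨F, hF⟩ := hF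
  choose nx hnx using hd
  -- the descending ray
  let ρ : ℕ → V := fun n => Nat.rec x₀ (fun _ y => S.nb y (nx y)) n
  have hρ0 : ρ 0 = x₀ := rfl
  have hρs : ∀ n, ρ (n + 1) = S.nb (ρ n) (nx (ρ n)) := fun n => rfl
  have hfρ : ∀ n, f (ρ n) = f x₀ - n := by
    intro n
    induction n with
    | zero => simp [hρ0]
    | succ n ih =>
      rw [hρs, hnx, ih]
      push_cast
      ring
  have hstep : ∀ n j, S.d (ρ n) (ρ (n + j)) ≤ j := by
    intro n j
    induction j with
    | zero => rw [Nat.add_zero, S.d_self]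
    | succ j ih =>
      have h1 := S.tri (ρ n) (ρ (n + j)) (ρ (n + j + 1))
      have h2 := S.nb_le (ρ (n + j)) (nx (ρ (n + j)))
      rw [← hρs] at h2
      rw [← Nat.add_assoc]
      omega
  have hTρ : ∀ n j, T S f (ρ n) (ρ (n + j)) := by
    intro n j
    have h1 := hstep n j
    have h2 := hf (ρ n) (ρ (n + j))
    unfold T
    rw [hfρ, hfρ] at h2 ⊢
    push_cast at h2 ⊢
    omega
  have hDρ : ∀ n, D S f (ρ n) = c := by
    intro n
    have h1 := hTρ 0 n
    rw [Nat.zero_add, hρ0] at h1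
    exact le_antisymm (hc.le f hf (fun x => ⟨nx x, hnx x⟩) _) (hx₀ ▸ D_mono hf h1)
  -- the states
  choose g hg using hF
  let st : ℕ → V × (Fin Q → ℤ) := fun n =>
    (g (ρ n) • ρ n, fun i => f ((g (ρ n))⁻¹ • S.nb (g (ρ n) • ρ n) i) - f (ρ n))
  have hst : ∀ n, st n ∈ F ×ˢ Fintype.piFinset fun _ : Fin Q => Finset.Icc (-1 : ℤ) 1 := by
    intro n
    rw [Finset.mem_product, Fintype.mem_piFinset]
    refine ⟨hg _, fun i => ?_⟩
    obtain ⟨τ, hτ⟩ := hA.equi (g (ρ n)) (ρ n)
    simp only [st]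
    rw [hτ, inv_smul_smul]
    exact jet_mem hf _ _
  obtain ⟨n₁, n₂, hne, heq⟩ : ∃ n₁ n₂, n₁ ≠ n₂ ∧ st n₁ = st n₂ := by
    by_contra hcon
    push Not at hcon
    have hinj : Function.Injective st := fun a b hab => by
      by_contra h
      exact hcon a b h hab
    have : Set.Infinite (Set.range st) := Set.infinite_range_of_injective hinj
    exact this ((Finset.finite_toSet _).subset (by
      rintro _ ⟨n, rfl⟩
      exact hst n))
  wlog hlt : n₁ < n₂ generalizing n₁ n₂
  · exact this n₂ n₁ hne.symm heq.symm (by omega)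
  obtain ⟨p, hp⟩ : ∃ p, n₂ = n₁ + p := ⟨n₂ - n₁, by omega⟩
  have hp1 : 1 ≤ p := by omega
  have heq1 : g (ρ n₁) • ρ n₁ = g (ρ n₂) • ρ n₂ := congrArg Prod.fst heq
  have heq2 : ∀ i, f ((g (ρ n₁))⁻¹ • S.nb (g (ρ n₁) • ρ n₁) i) - f (ρ n₁) =
      f ((g (ρ n₂))⁻¹ • S.nb (g (ρ n₂) • ρ n₂) i) - f (ρ n₂) := fun i =>
    congrFun (congrArg Prod.snd heq) i
  set x := ρ n₁ with hx
  set s : Γ := (g (ρ n₂))⁻¹ * g x with hs
  have hsx : s • x = ρ n₂ := by
    rw [hs, mul_smul, heq1, inv_smul_smul]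
  have hfx : f (ρ n₂) = f x - p := by
    rw [hx, hfρ, hfρ, hp]
    push_cast
    ring
  -- the shifted function has the same jet
  let f' : V → ℤ := fun y => f (s • y) + p
  have hf' : Lip S f' := hf.smul hA s p
  have hd' : Dn S f' := Dn.smul hA (fun x => ⟨nx x, hnx x⟩) s p
  have h0 : f' x = f x := by
    simp only [f']
    rw [hsx, hfx]
    ring
  have hJ : ∀ i, f' (S.nb x i) = f (S.nb x i) := by
    intro i
    obtain ⟨τ, hτ⟩ := hA.equi (g x) x
    have h1 := heq2 (τ.symm i)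
    rw [← heq1, hτ, Equiv.apply_symm_apply, inv_smul_smul] at h1
    simp only [f']
    rw [hs, mul_smul]
    rw [hfx] at h1
    linarith
  have hDx : D S f x = c := hDρ n₁
  have hDx' : D S f' x = c := by rw [D_congr S h0 hJ, hDx]
  have hc' : ∀ w, T S f' x w → D S f' w = D S f' x := by
    intro w hw
    rw [hDx']
    exact le_antisymm (hc.le f' hf' hd' w) (hDx' ▸ D_mono hf' hw)
  have hagree : ∀ y, T S f x y → f (s • y) = f y - p := by
    intro y hy
    have h1 : D S f x = D S f y := by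
      rw [hDx]
      exact (le_antisymm (hc.le f hf (fun x => ⟨nx x, hnx x⟩) y) (hDx ▸ D_mono hf hy)).symm
    have := (determ hf hf' hy h1 h0 hJ hc').1
    simp only [f'] at this
    linarith
  have hTx : T S f x (s • x) := by
    rw [hsx, hp]
    exact hTρ n₁ p
  have hdx : S.d x (s • x) = p := by
    have := hTx
    unfold T at this
    rw [hsx, hfx] at this
    rw [hsx]
    omega
  have hmain : ∀ n : ℕ, f (s ^ n • x) = f x - n * p ∧ S.d x (s ^ n • x) ≤ n * p ∧
      T S f x (s ^ n • x) := by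
    intro n
    induction n with
    | zero =>
      rw [pow_zero, one_smul, S.d_self]
      exact ⟨by simp, by simp, T.refl f x⟩
    | succ n ih =>
      obtain ⟨i1, i2, i3⟩ := ih
      have a1 : f (s ^ (n + 1) • x) = f x - (n + 1 : ℕ) * p := by
        rw [pow_succ', mul_smul, hagree _ i3, i1]
        push_cast
        ring
      have a2 : S.d x (s ^ (n + 1) • x) ≤ (n + 1) * p := by
        have b1 := S.tri x (s ^ n • x) (s ^ (n + 1) • x)
        have b2 := isom_pow hA s n 1 x
        rw [pow_one, hdx] at b2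
        rw [b2] at b1
        have : (n + 1) * p = n * p + p := by ring
        omega
      refine ⟨a1, a2, ?_⟩
      have a3 := hf x (s ^ (n + 1) • x)
      unfold T
      rw [a1] at a3 ⊢
      have a4 : (S.d x (s ^ (n + 1) • x) : ℤ) ≤ ((n + 1 : ℕ) : ℤ) * p := by exact_mod_cast a2
      linarith
  refine ⟨s, p, x, f, hp1, fun n => ?_, hf, fun x => ⟨nx x, hnx x⟩, hDx, fun n => (hmain n).1⟩
  obtain ⟨i1, i2, i3⟩ := hmain n
  unfold T at i3
  rw [i1] at i3
  have : (S.d x (s ^ n • x) : ℤ) = (n : ℤ) * p := by linarith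
  exact_mod_cast this

end

end Pool.Agent.TH595
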