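import Pool.Agent.TH595.Base

set_option autoImplicit false
open scoped ENNReal Topology

/-!
# An invariant mean from polynomial growth
-/

namespace Pool.Agent.TH595

open Filter Pool.Agent.H141R3.Ollivier Pool.Agent.H141R3.Growth

/-- the limit of a real sequence along a fixed nonprincipal ultrafilter -/
noncomputable def ulim (u : ℕ → ℝ) : ℝ := limUnder (hyperfilter ℕ : Filter ℕ) u

theorem ulim_tendsto {u : ℕ → ℝ} {C : ℝ} (hu : ∀ n, |u n| ≤ C) :
    Tendsto u (hyperfilter ℕ : Filter ℕ) (𝓝 (ulim u)) := by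
  have h1 : ((hyperfilter ℕ).map u : Filter ℝ) ≤ 𝓟 (Set.Icc (-C) C) := by
    rw [le_principal_iff, Ultrafilter.mem_coe, Ultrafilter.mem_map]
    have : u ⁻¹' Set.Icc (-C) C = Set.univ := by
      ext n
      simpa [abs_le] using hu n
    rw [this]
    exact Filter.univ_mem
  obtain ⟨x, -, hx⟩ := isCompact_Icc.ultrafilter_le_nhds _ h1
  exact tendsto_nhds_limUnder ⟨x, hx⟩

theorem ulim_eq {u : ℕ → ℝ} {x : ℝ} (h : Tendsto u atTop (𝓝 x)) : ulim u = x := by
  refine Tendsto.limUnder_eq (h.mono_left ?_)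
  rw [← Nat.cofinite_eq_atTop]
  exact hyperfilter_le_cofinite

/-- a polynomially bounded positive sequence grows slowly somewhere -/
theorem exists_slow {b : ℕ → ℝ} (h1 : ∀ n, 1 ≤ b n) {C : ℕ}
    (hC : ∀ n, b n ≤ C * (n + 1) ^ C) (j : ℕ) (hj : 0 < j) :
    ∃ n, b (n + j) ≤ (1 + 1 / j) * b n := by
  by_contra hcon
  push Not at hcon
  set r : ℝ := 1 + 1 / j with hr
  have hjr : (0 : ℝ) < j := by exact_mod_cast hj
  have hr1 : 1 < r := by
    have : (0 : ℝ) < 1 / j := by positivity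
    linarith
  have hpow : ∀ m : ℕ, r ^ m ≤ b (m * j) := by
    intro m
    induction m with
    | zero => simpa using h1 0
    | succ m ih =>
      have h2 := hcon (m * j)
      rw [pow_succ, Nat.succ_mul, mul_comm]
      have h3 : r * r ^ m ≤ r * b (m * j) := mul_le_mul_of_nonneg_left ih (by linarith)
      linarith
  have hlim : Tendsto (fun m : ℕ => (C : ℝ) * (2 * j) ^ C * ((m : ℝ) ^ C / r ^ m)) atTop
      (𝓝 ((C : ℝ) * (2 * j) ^ C * 0)) :=
    (tendsto_pow_const_div_const_pow_of_one_lt C hr1).const_mul _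
  rw [mul_zero] at hlim
  obtain ⟨m, hm1, hm2⟩ := ((hlim.eventually (gt_mem_nhds zero_lt_one)).and
    (eventually_ge_atTop 1)).exists
  have h4 : r ^ m ≤ C * ((m * j : ℕ) + 1) ^ C := (hpow m).trans (hC (m * j))
  have h5 : (((m * j : ℕ) : ℝ) + 1) ≤ 2 * j * m := by
    push_cast
    have h6 : (1 : ℝ) ≤ m := by exact_mod_cast hm2
    have h7 : (1 : ℝ) ≤ j := by exact_mod_cast hj
    nlinarith
  have h8 : (C : ℝ) * ((m * j : ℕ) + 1) ^ C ≤ C * (2 * j * m) ^ C :=
    mul_le_mul_of_nonneg_left (pow_le_pow_left₀ (by positivity) h5 C) (Nat.cast_nonneg _)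
  have h9 : 0 < r ^ m := by positivity
  have h10 : (C : ℝ) * (2 * j) ^ C * ((m : ℝ) ^ C / r ^ m) = C * (2 * j * m) ^ C / r ^ m := by
    rw [mul_pow (2 * (j : ℝ)) (m : ℝ)]
    ring
  rw [h10, div_lt_one h9] at hm1
  linarith

section
variable {V : Type} {G : SimpleGraph V} {Γ : Type} [Group Γ] [MulAction Γ V]

/-- sums over a set and a translate of it -/
theorem sum_shift_le [DecidableEq V] {f : V → ℝ} {K : ℝ} (hf : ∀ x, |f x| ≤ K) (g : Γ)
    {A A' : Finset V} (hAA : A ⊆ A') (hg : ∀ x ∈ A, g • x ∈ A') :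
    |∑ x ∈ A, f (g • x) - ∑ x ∈ A, f x| ≤ 2 * K * ((A'.card : ℝ) - A.card) := by
  have hinj : Function.Injective fun x : V => g • x := MulAction.injective g
  set B : Finset V := A.image fun x => g • x with hB
  have h1 : ∑ x ∈ A, f (g • x) = ∑ y ∈ B, f y := by
    rw [hB, Finset.sum_image (fun x _ y _ h => hinj h)]
  have hBA : B ⊆ A' := by
    intro y hy
    obtain ⟨x, hx, rfl⟩ := Finset.mem_image.1 hy
    exact hg x hx
  have hcard : B.card = A.card := Finset.card_image_of_injective _ hinj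
  have h2 : (B \ A).card ≤ A'.card - A.card := by
    rw [← Finset.card_sdiff_of_subset hAA]
    exact Finset.card_le_card (Finset.sdiff_subset_sdiff hBA (Finset.Subset.refl _))
  have h3 : (A \ B).card = (B \ A).card := Finset.card_sdiff_comm hcard.symm
  have h4 : (A.card : ℝ) ≤ A'.card := by exact_mod_cast Finset.card_le_card hAA
  have h5 : ((B \ A).card : ℝ) ≤ (A'.card : ℝ) - A.card := by
    have h6 := Finset.card_le_card hAA
    have : (B \ A).card + A.card ≤ A'.card := by omega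
    have : (((B \ A).card : ℝ)) + A.card ≤ A'.card := by exact_mod_cast this
    linarith
  have hK : ∀ F : Finset V, |∑ x ∈ F, f x| ≤ F.card * K := by
    intro F
    refine (Finset.abs_sum_le_sum_abs _ _).trans ?_
    refine (Finset.sum_le_card_nsmul _ _ _ fun x _ => hf x).trans ?_
    rw [nsmul_eq_mul]
  rw [h1, ← Finset.sum_sdiff_sub_sum_sdiff]
  have h7 := hK (B \ A)
  have h8 := hK (A \ B)
  rw [h3] at h8
  have hK0 : 0 ≤ (A'.card - A.card : ℝ) := by linarith
  rcases isEmpty_or_nonempty V with hV | ⟨⟨x⟩⟩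
  · have hA0 : A = ∅ := Finset.eq_empty_of_isEmpty _
    have hA0' : A' = ∅ := Finset.eq_empty_of_isEmpty _
    have hB0 : B = ∅ := Finset.eq_empty_of_isEmpty _
    rw [hA0, hA0', hB0]
    simp
  · have hK1 : 0 ≤ K := (abs_nonneg _).trans (hf x)
    have h9 : |∑ x ∈ B \ A, f x - ∑ x ∈ A \ B, f x| ≤
        |∑ x ∈ B \ A, f x| + |∑ x ∈ A \ B, f x| := abs_sub _ _
    nlinarith

theorem exists_mean (hG : G.Connected) (hA : ActsOn Γ G) (hpoly : PolyGrowth G) :
    Nonempty (Mean Γ V) := by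
  classical
  obtain ⟨C, hC⟩ := hpoly
  obtain ⟨o⟩ := hG.nonempty
  set Bl : ℕ → Finset V := fun n => (hC o n).1.toFinset with hBl
  have hmem : ∀ n x, x ∈ Bl n ↔ G.dist o x ≤ n := by
    intro n x
    simp [hBl]
  set b : ℕ → ℝ := fun n => ((Bl n).card : ℝ) with hb
  have hb1 : ∀ n, 1 ≤ b n := by
    intro n
    have : o ∈ Bl n := (hmem n o).2 (by rw [SimpleGraph.dist_self]; exact Nat.zero_le _)
    have : 1 ≤ (Bl n).card := Finset.card_pos.2 ⟨o, this⟩
    change (1 : ℝ) ≤ ((Bl n).card : ℝ)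
    exact_mod_cast this
  have hbC : ∀ n, b n ≤ C * (n + 1) ^ C := by
    intro n
    have h1 := (hC o n).2
    rw [Set.ncard_eq_toFinset_card _ (hC o n).1] at h1
    change ((Bl n).card : ℝ) ≤ _
    exact_mod_cast h1
  have hbmono : ∀ {n m}, n ≤ m → Bl n ⊆ Bl m := by
    intro n m h x hx
    exact (hmem m x).2 (((hmem n x).1 hx).trans h)
  choose N hN using fun j : ℕ => exists_slow hb1 hbC (j + 1) (Nat.succ_pos j)
  have hpos : ∀ j, 0 < b (N j) := fun j => lt_of_lt_of_le one_pos (hb1 _)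
  set av : (V → ℝ) → ℕ → ℝ := fun f j => (∑ x ∈ Bl (N j), f x) / b (N j) with hav
  have hbd : ∀ {f : V → ℝ} {K : ℝ}, (∀ x, |f x| ≤ K) → ∀ j, |av f j| ≤ K := by
    intro f K hf j
    change |(∑ x ∈ Bl (N j), f x) / b (N j)| ≤ K
    rw [abs_div, abs_of_pos (hpos j), div_le_iff₀ (hpos j)]
    refine (Finset.abs_sum_le_sum_abs _ _).trans ?_
    refine (Finset.sum_le_card_nsmul _ _ _ fun x _ => hf x).trans ?_
    rw [nsmul_eq_mul, mul_comm]
  refine ⟨⟨fun f => ulim (av f), ?_, ?_, ?_, ?_⟩⟩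
  · rintro f g ⟨K, hK⟩ ⟨L, hL⟩
    have h1 := ulim_tendsto (hbd hK)
    have h2 := ulim_tendsto (hbd hL)
    have h3 : av (fun x => f x + g x) = fun j => av f j + av g j := by
      funext j
      change (∑ x ∈ Bl (N j), (f x + g x)) / b (N j) =
        (∑ x ∈ Bl (N j), f x) / b (N j) + (∑ x ∈ Bl (N j), g x) / b (N j)
      rw [Finset.sum_add_distrib, add_div]
    rw [h3]
    exact (h1.add h2).limUnder_eq
  · rintro f g ⟨K, hK⟩ ⟨L, hL⟩ hfg
    refine le_of_tendsto_of_tendsto' (ulim_tendsto (hbd hK)) (ulim_tendsto (hbd hL)) fun j => ?_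
    change (∑ x ∈ Bl (N j), f x) / b (N j) ≤ (∑ x ∈ Bl (N j), g x) / b (N j)
    exact div_le_div_of_nonneg_right (Finset.sum_le_sum fun x _ => hfg x) (hpos j).le
  · intro c
    have h1 : av (fun _ => c) = fun _ => c := by
      funext j
      change (∑ x ∈ Bl (N j), c) / b (N j) = c
      rw [Finset.sum_const, nsmul_eq_mul]
      have := (hpos j).ne'
      change ((Bl (N j)).card : ℝ) ≠ 0 at this
      change ((Bl (N j)).card : ℝ) * c / ((Bl (N j)).card : ℝ) = c
      field_simp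
    change ulim (av fun _ => c) = c
    rw [h1]
    exact ulim_eq tendsto_const_nhds
  · rintro g f ⟨K, hK⟩
    have hK' : ∀ x, |f (g • x)| ≤ K := fun x => hK _
    have h1 := ulim_tendsto (hbd hK)
    have h2 := ulim_tendsto (hbd hK')
    have hK0 : 0 ≤ K := (abs_nonneg _).trans (hK o)
    set ρ : ℕ := G.dist o (g • o) with hρ
    have h3 : ∀ j, ρ ≤ j + 1 → |av (fun x => f (g • x)) j - av f j| ≤
        2 * K * (1 / ((j : ℝ) + 1)) := by
      intro j hj
      change |(∑ x ∈ Bl (N j), f (g • x)) / b (N j) - (∑ x ∈ Bl (N j), f x) / b (N j)| ≤ _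
      rw [← sub_div, abs_div, abs_of_pos (hpos j), div_le_iff₀ (hpos j)]
      have h4 := sum_shift_le hK g (A := Bl (N j)) (A' := Bl (N j + (j + 1)))
        (hbmono (Nat.le_add_right _ _)) (fun x hx => by
          rw [hmem] at hx ⊢
          have h5 := hG.dist_triangle (u := o) (v := g • o) (w := g • x)
          rw [dist_smul hG hA] at h5
          omega)
      have h6 := hN j
      have h7 : 2 * K * ((((Bl (N j + (j + 1))).card : ℝ)) - (Bl (N j)).card) ≤
          2 * K * (1 / ((j : ℝ) + 1) * b (N j)) := by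
        refine mul_le_mul_of_nonneg_left ?_ (by positivity)
        change b (N j + (j + 1)) - b (N j) ≤ _
        push_cast at h6
        linarith
      linarith
    have h8 : Tendsto (fun j => av (fun x => f (g • x)) j - av f j) atTop (𝓝 0) := by
      have h9 : Tendsto (fun j : ℕ => 2 * K * (1 / ((j : ℝ) + 1))) atTop (𝓝 (2 * K * 0)) :=
        tendsto_one_div_add_atTop_nhds_zero_nat.const_mul _
      rw [mul_zero] at h9
      refine squeeze_zero_norm' ?_ h9
      filter_upwards [eventually_ge_atTop ρ] with j hj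
      exact h3 j (by omega)
    have h10 : Tendsto (fun j => av (fun x => f (g • x)) j - av f j)
        (hyperfilter ℕ : Filter ℕ) (𝓝 0) := by
      refine h8.mono_left ?_
      rw [← Nat.cofinite_eq_atTop]
      exact hyperfilter_le_cofinite
    exact sub_eq_zero.1 (tendsto_nhds_unique (h2.sub h1) h10)

end

end Pool.Agent.TH595
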