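import Pool.Agent.TH595.Ind
import Pool.Agent.H141R3.Reduce

set_option autoImplicit false
open scoped ENNReal

/-!
# From a transport plan to a bijection; the space of a graph
-/

namespace Pool.Agent.TH595

open Pool.Agent.H141R3.Ollivier Pool.Agent.H141R3.Growth

/-- A transport plan between two lists gives a bijection of no larger cost. -/
theorem exists_perm_of_plan {Q : ℕ} {V : Type} {A B : Finset V} {u v : Fin Q → V} {m n : V → ℝ}
    {w : V → V → ℝ}
    (hu : ∀ φ : V → ℝ, ∑ i, φ (u i) = ∑ a ∈ A, m a * φ a)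
    (hv : ∀ φ : V → ℝ, ∑ j, φ (v j) = ∑ b ∈ B, n b * φ b)
    (huA : ∀ i, u i ∈ A ∧ m (u i) ≠ 0) (hvB : ∀ j, v j ∈ B ∧ n (v j) ≠ 0)
    (hm : ∀ a, 0 ≤ m a) (hn : ∀ b, 0 ≤ n b)
    (h0 : ∀ a b, 0 ≤ w a b) (hrow : ∀ a ∈ A, ∑ b ∈ B, w a b = m a)
    (hcol : ∀ b ∈ B, ∑ a ∈ A, w a b = n b) (c : V → V → ℕ)
    (hc : ∑ a ∈ A, ∑ b ∈ B, w a b * (c a b : ℝ) ≤ Q) :
    ∃ σ : Equiv.Perm (Fin Q), ∑ i, c (u i) (v (σ i)) ≤ Q := by
  classical
  have hz1 : ∀ a ∈ A, ∀ b ∈ B, m a = 0 → w a b = 0 := by
    intro a ha b hb h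
    have h1 := hrow a ha
    rw [h] at h1
    exact (Finset.sum_eq_zero_iff_of_nonneg (fun b _ => h0 a b)).1 h1 b hb
  have hz2 : ∀ a ∈ A, ∀ b ∈ B, n b = 0 → w a b = 0 := by
    intro a ha b hb h
    have h1 := hcol b hb
    rw [h] at h1
    exact (Finset.sum_eq_zero_iff_of_nonneg (fun a _ => h0 a b)).1 h1 a ha
  set M : Matrix (Fin Q) (Fin Q) ℝ := fun i j => w (u i) (v j) / (m (u i) * n (v j)) with hM
  have hds : M ∈ doublyStochastic ℝ (Fin Q) := by
    rw [mem_doublyStochastic_iff_sum]
    refine ⟨fun i j => div_nonneg (h0 _ _) (mul_nonneg (hm _) (hn _)), fun i => ?_, fun j => ?_⟩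
    · have h1 := hv fun b => w (u i) b / (m (u i) * n b)
      change ∑ j, w (u i) (v j) / (m (u i) * n (v j)) = 1
      rw [h1]
      have h2 : ∀ b ∈ B, n b * (w (u i) b / (m (u i) * n b)) = w (u i) b / m (u i) := by
        intro b hb
        by_cases hnb : n b = 0
        · rw [hz2 _ (huA i).1 b hb hnb]
          simp
        · have := (huA i).2
          field_simp
      rw [Finset.sum_congr rfl h2, ← Finset.sum_div, hrow _ (huA i).1, div_self (huA i).2]
    · have h1 := hu fun a => w a (v j) / (m a * n (v j))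
      change ∑ i, w (u i) (v j) / (m (u i) * n (v j)) = 1
      rw [h1]
      have h2 : ∀ a ∈ A, m a * (w a (v j) / (m a * n (v j))) = w a (v j) / n (v j) := by
        intro a ha
        by_cases hma : m a = 0
        · rw [hz1 a ha _ (hvB j).1 hma]
          simp
        · have := (hvB j).2
          field_simp
      rw [Finset.sum_congr rfl h2, ← Finset.sum_div, hcol _ (hvB j).1, div_self (hvB j).2]
  obtain ⟨p, hp0, hp1, hpM⟩ := exists_eq_sum_perm_of_mem_doublyStochastic hds
  by_contra hcon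
  push Not at hcon
  have h3 : ∑ i, ∑ j, M i j * (c (u i) (v j) : ℝ) =
      ∑ a ∈ A, ∑ b ∈ B, w a b * (c a b : ℝ) := by
    have h31 : ∀ i, ∑ j, M i j * (c (u i) (v j) : ℝ) =
        ∑ b ∈ B, w (u i) b / m (u i) * (c (u i) b : ℝ) := by
      intro i
      have h1 := hv fun b => w (u i) b / (m (u i) * n b) * (c (u i) b : ℝ)
      change ∑ j, w (u i) (v j) / (m (u i) * n (v j)) * (c (u i) (v j) : ℝ) = _
      rw [h1]
      refine Finset.sum_congr rfl fun b hb => ?_
      by_cases hnb : n b = 0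
      · rw [hz2 _ (huA i).1 b hb hnb]
        simp
      · have := (huA i).2
        field_simp
    rw [Finset.sum_congr rfl fun i _ => h31 i]
    have h1 := hu fun a => ∑ b ∈ B, w a b / m a * (c a b : ℝ)
    rw [h1]
    refine Finset.sum_congr rfl fun a ha => ?_
    rw [Finset.mul_sum]
    refine Finset.sum_congr rfl fun b hb => ?_
    by_cases hma : m a = 0
    · rw [hz1 a ha b hb hma]
      simp
    · field_simp
  have h4 : ∑ i, ∑ j, M i j * (c (u i) (v j) : ℝ) =
      ∑ σ, p σ * ∑ i, (c (u i) (v (σ i)) : ℝ) := by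
    have h41 : ∀ i j, M i j = ∑ σ : Equiv.Perm (Fin Q), p σ * (if σ i = j then 1 else 0) := by
      intro i j
      rw [← hpM, Matrix.sum_apply]
      refine Finset.sum_congr rfl fun σ _ => ?_
      rw [Matrix.smul_apply, smul_eq_mul]
      congr 1
      simp [Equiv.toPEquiv_apply, eq_comm]
    have h42 : ∀ i, ∑ j, M i j * (c (u i) (v j) : ℝ) =
        ∑ σ : Equiv.Perm (Fin Q), p σ * (c (u i) (v (σ i)) : ℝ) := by
      intro i
      rw [Finset.sum_congr rfl fun j _ => by rw [h41 i j, Finset.sum_mul], Finset.sum_comm]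
      refine Finset.sum_congr rfl fun σ _ => ?_
      rw [Finset.sum_eq_single (σ i)]
      · simp
      · intro j _ hj
        rw [if_neg (Ne.symm hj)]
        simp
      · intro h
        exact absurd (Finset.mem_univ _) h
    rw [Finset.sum_congr rfl fun i _ => h42 i, Finset.sum_comm]
    exact Finset.sum_congr rfl fun σ _ => by rw [Finset.mul_sum]
  have h5 : (Q + 1 : ℝ) ≤ ∑ σ, p σ * ∑ i, (c (u i) (v (σ i)) : ℝ) := by
    have h51 : ∑ σ, p σ * (Q + 1 : ℝ) ≤ ∑ σ, p σ * ∑ i, (c (u i) (v (σ i)) : ℝ) := by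
      refine Finset.sum_le_sum fun σ _ => mul_le_mul_of_nonneg_left ?_ (hp0 σ)
      have := hcon σ
      exact_mod_cast this
    rw [← Finset.sum_mul, hp1, one_mul] at h51
    exact h51
  rw [← h4, h3] at h5
  linarith

section
variable {V : Type} (G : SimpleGraph V) [G.LocallyFinite]

/-- The list of the `k` neighbours and of `l` copies of the point itself. -/
noncomputable def lst {k : ℕ} (hk : G.IsRegularOfDegree k) (l : ℕ) (x : V) (i : Fin (k + l)) : V :=
  Sum.elim (fun j => (((Finset.equivFinOfCardEq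
    ((G.card_neighborFinset_eq_degree x).trans (hk x))).symm j : G.neighborFinset x) : V))
    (fun _ => x) (finSumFinEquiv.symm i)

variable {G}

theorem lst_mem {k : ℕ} (hk : G.IsRegularOfDegree k) (l : ℕ) (x : V) (i : Fin (k + l)) :
    G.Adj x (lst G hk l x i) ∨ (lst G hk l x i = x ∧ l ≠ 0) := by
  unfold lst
  rcases h : finSumFinEquiv.symm i with j | j
  · left
    rw [Sum.elim_inl, ← SimpleGraph.mem_neighborFinset]
    exact Subtype.coe_prop _
  · right
    refine ⟨rfl, ?_⟩
    have := j.2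
    omega

theorem exists_lst {k : ℕ} (hk : G.IsRegularOfDegree k) (l : ℕ) {x a : V} (h : G.Adj x a) :
    ∃ i, lst G hk l x i = a := by
  refine ⟨finSumFinEquiv (Sum.inl ((Finset.equivFinOfCardEq
    ((G.card_neighborFinset_eq_degree x).trans (hk x)))
      ⟨a, (SimpleGraph.mem_neighborFinset _ _ _).2 h⟩)), ?_⟩
  unfold lst
  rw [Equiv.symm_apply_apply, Sum.elim_inl, Equiv.symm_apply_apply]

open Classical in
theorem lst_sum {k : ℕ} (hk : G.IsRegularOfDegree k) (l : ℕ) (x : V) (φ : V → ℝ) :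
    ∑ i, φ (lst G hk l x i) = ∑ a ∈ nb G x, (if a = x then (l : ℝ) else 1) * φ a := by
  have h1 : ∑ i, φ (lst G hk l x i) = ∑ a ∈ G.neighborFinset x, φ a + l * φ x := by
    unfold lst
    rw [Equiv.sum_comp finSumFinEquiv.symm fun s => φ (Sum.elim (fun j => (((Finset.equivFinOfCardEq
      ((G.card_neighborFinset_eq_degree x).trans (hk x))).symm j : G.neighborFinset x) : V))
      (fun _ => x) s), Fintype.sum_sum_type]
    simp only [Sum.elim_inl, Sum.elim_inr, Finset.sum_const, Finset.card_univ, Fintype.card_fin,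
      nsmul_eq_mul]
    rw [Equiv.sum_comp (Finset.equivFinOfCardEq
      ((G.card_neighborFinset_eq_degree x).trans (hk x))).symm
      fun a : G.neighborFinset x => φ (a : V), Finset.sum_coe_sort]
  have h2 : nb G x = insert x (G.neighborFinset x) := by
    ext a
    rw [mem_nb]
    simp
  rw [h1, h2, Finset.sum_insert (by simp), if_pos rfl, add_comm]
  congr 1
  refine Finset.sum_congr rfl fun a ha => ?_
  rw [SimpleGraph.mem_neighborFinset] at ha
  rw [if_neg ha.ne', one_mul]

theorem lst_curv {k : ℕ} (hk : G.IsRegularOfDegree k) {α : ℝ≥0∞} (hα : α < 1) {P : V → PMF V}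
    (hP : IsLazyWalk G α P) (hκ : NonnegCurvature G P) {l : ℕ}
    (hl : (k : ℝ) ≤ (k + l) * (1 - α).toReal) {x y : V} (hxy : G.Adj x y) :
    ∃ σ : Equiv.Perm (Fin (k + l)),
      ∑ i, G.dist (lst G hk l x i) (lst G hk l y (σ i)) ≤ k + l := by
  classical
  have hsupp : ∀ x a, P x a ≠ 0 → a = x ∨ G.Adj x a := by
    intro x a h
    by_contra hn
    apply h
    push Not at hn
    have h2 : stepLaw G x a = 0 := by
      by_contra h3
      rcases stepLaw_supp G h3 with h4 | h4
      · exact hn.1 h4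
      · exact hn.2 h4
    rw [hP x a, h2, PMF.pure_apply, if_neg hn.1]
    simp
  have hβ : (1 - α) ≠ 0 := (tsub_pos_of_lt hα).ne'
  have hβt : (1 - α) ≠ ⊤ := ne_top_of_le_ne_top ENNReal.one_ne_top tsub_le_self
  set β : ℝ := (1 - α).toReal with hβdef
  have hβpos : 0 < β := ENNReal.toReal_pos hβ hβt
  have hne : ∀ z w, G.Adj z w → (G.neighborFinset z).Nonempty := fun z w h =>
    ⟨w, (SimpleGraph.mem_neighborFinset _ _ _).2 h⟩
  have hadj : ∀ z a, G.Adj z a → (P z a).toReal = β / k := by
    intro z a h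
    rw [hP z a, PMF.pure_apply, if_neg h.ne', mul_zero, zero_add,
      stepLaw_apply_adj G (hne z a h) h, ENNReal.toReal_mul, ENNReal.toReal_inv,
      ENNReal.toReal_natCast, hk z]
    rfl
  have hself : ∀ z a, G.Adj z a → (P z z).toReal = 1 - β := by
    intro z a h
    rw [hP z z, PMF.pure_apply, if_pos rfl, mul_one,
      stepLaw_apply_not G (hne z a h) (SimpleGraph.irrefl G), mul_zero, add_zero, hβdef,
      ENNReal.toReal_sub_of_le hα.le ENNReal.one_ne_top, ENNReal.toReal_one]
    ring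
  have hk0 : 0 < k := by
    rw [← hk x, ← SimpleGraph.card_neighborFinset_eq_degree]
    exact Finset.card_pos.2 (hne x y hxy)
  have hkr : (0 : ℝ) < k := by exact_mod_cast hk0
  have hQ : (0 : ℝ) < (k : ℝ) + l := by positivity
  set t : ℝ := k / ((k + l) * β) with ht
  have hQβ : (0 : ℝ) < (k + l) * β := by positivity
  have ht0 : 0 ≤ t := by positivity
  have ht1 : t ≤ 1 := by
    rw [ht, div_le_one hQβ]
    exact hl
  have htβ : ((k : ℝ) + l) * (t * β) = k := by
    rw [ht]
    field_simp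
  obtain ⟨w, hw⟩ := exists_planG G (A := nb G x) (B := nb G y)
    (fun a ha => mem_nb.2 (hsupp x a ha)) (fun b hb => mem_nb.2 (hsupp y b hb))
    (W1_le_one hsupp hκ hxy)
  have hxmem : x ∈ nb G x := mem_nb.2 (Or.inl rfl)
  have hymem : y ∈ nb G y := mem_nb.2 (Or.inl rfl)
  refine exists_perm_of_plan (A := nb G x) (B := nb G y)
    (m := fun a => if a = x then (l : ℝ) else 1) (n := fun b => if b = y then (l : ℝ) else 1)
    (w := fun a b => (k + l) * (t * w a b + (1 - t) * (if a = x ∧ b = y then 1 else 0)))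
    (lst_sum hk l x) (lst_sum hk l y) ?_ ?_ ?_ ?_ ?_ ?_ ?_ (fun a b => G.dist a b) ?_
  · intro i
    rcases lst_mem hk l x i with h | ⟨h1, h2⟩
    · refine ⟨mem_nb.2 (Or.inr h), ?_⟩
      rw [if_neg h.ne']
      exact one_ne_zero
    · refine ⟨mem_nb.2 (Or.inl h1), ?_⟩
      rw [if_pos h1]
      exact_mod_cast h2
  · intro i
    rcases lst_mem hk l y i with h | ⟨h1, h2⟩
    · refine ⟨mem_nb.2 (Or.inr h), ?_⟩
      rw [if_neg h.ne']
      exact one_ne_zero
    · refine ⟨mem_nb.2 (Or.inl h1), ?_⟩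
      rw [if_pos h1]
      exact_mod_cast h2
  · intro a
    split_ifs <;> positivity
  · intro a
    split_ifs <;> positivity
  · intro a b
    have h1 := hw.nonneg a b
    have h2 : 0 ≤ 1 - t := by linarith
    split_ifs <;> positivity
  · intro a ha
    rw [← Finset.mul_sum, Finset.sum_add_distrib, ← Finset.mul_sum, ← Finset.mul_sum, hw.row a ha]
    by_cases hax : a = x
    · subst hax
      have h1 : ∑ b ∈ nb G y, (if a = a ∧ b = y then (1 : ℝ) else 0) = 1 := by
        rw [Finset.sum_eq_single y]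
        · simp
        · intro b _ hb
          rw [if_neg (fun h => hb h.2)]
        · intro h
          exact absurd hymem h
      rw [h1, hself a y hxy, if_pos rfl]
      linarith
    · have h1 : ∑ b ∈ nb G y, (if a = x ∧ b = y then (1 : ℝ) else 0) = 0 :=
        Finset.sum_eq_zero fun b _ => if_neg (fun h => hax h.1)
      rw [h1, hadj x a ((mem_nb.1 ha).resolve_left hax), if_neg hax]
      have : t * (β / k) = (t * β) / k := by ring
      rw [this, mul_zero, add_zero, ← mul_div_assoc, htβ, div_self hkr.ne']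
  · intro b hb
    rw [← Finset.mul_sum, Finset.sum_add_distrib, ← Finset.mul_sum, ← Finset.mul_sum, hw.col b hb]
    by_cases hby : b = y
    · subst hby
      have h1 : ∑ a ∈ nb G x, (if a = x ∧ b = b then (1 : ℝ) else 0) = 1 := by
        rw [Finset.sum_eq_single x]
        · simp
        · intro a _ ha
          rw [if_neg (fun h => ha h.1)]
        · intro h
          exact absurd hxmem h
      rw [h1, hself b x hxy.symm, if_pos rfl]
      linarith
    · have h1 : ∑ a ∈ nb G x, (if a = x ∧ b = y then (1 : ℝ) else 0) = 0 :=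
        Finset.sum_eq_zero fun a _ => if_neg (fun h => hby h.2)
      rw [h1, hadj y b ((mem_nb.1 hb).resolve_left hby), if_neg hby]
      have : t * (β / k) = (t * β) / k := by ring
      rw [this, mul_zero, add_zero, ← mul_div_assoc, htβ, div_self hkr.ne']
  · have h1 : ∑ a ∈ nb G x, ∑ b ∈ nb G y, ((k : ℝ) + l) * (t * w a b +
        (1 - t) * (if a = x ∧ b = y then 1 else 0)) * (G.dist a b : ℝ) =
        (k + l) * (t * ∑ a ∈ nb G x, ∑ b ∈ nb G y, w a b * (G.dist a b : ℝ) +
          (1 - t) * ∑ a ∈ nb G x, ∑ b ∈ nb G y,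
            (if a = x ∧ b = y then 1 else 0) * (G.dist a b : ℝ)) := by
      rw [Finset.mul_sum, Finset.mul_sum, ← Finset.sum_add_distrib, Finset.mul_sum]
      refine Finset.sum_congr rfl fun a _ => ?_
      rw [Finset.mul_sum, Finset.mul_sum, ← Finset.sum_add_distrib, Finset.mul_sum]
      refine Finset.sum_congr rfl fun b _ => ?_
      ring
    have h2 : ∑ a ∈ nb G x, ∑ b ∈ nb G y,
        (if a = x ∧ b = y then (1 : ℝ) else 0) * (G.dist a b : ℝ) = 1 := by
      rw [Finset.sum_eq_single x]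
      · rw [Finset.sum_eq_single y]
        · rw [if_pos ⟨rfl, rfl⟩, SimpleGraph.dist_eq_one_iff_adj.2 hxy]
          simp
        · intro b _ hb
          rw [if_neg (fun h => hb h.2), zero_mul]
        · intro h
          exact absurd hymem h
      · intro a _ ha
        exact Finset.sum_eq_zero fun b _ => by rw [if_neg (fun h => ha h.1), zero_mul]
      · intro h
        exact absurd hxmem h
    have h3 := hw.cost
    rw [h1, h2]
    push_cast
    have h4 : t * ∑ a ∈ nb G x, ∑ b ∈ nb G y, w a b * (G.dist a b : ℝ) ≤ t * 1 :=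
      mul_le_mul_of_nonneg_left h3 ht0
    nlinarith

/-- The space of a regular graph of nonnegative curvature. -/
noncomputable def spG (hG : G.Connected) {k : ℕ} (hk : G.IsRegularOfDegree k) {α : ℝ≥0∞}
    (hα : α < 1) {P : V → PMF V} (hP : IsLazyWalk G α P) (hκ : NonnegCurvature G P) {l : ℕ}
    (hl : (k : ℝ) ≤ (k + l) * (1 - α).toReal) : Sp V (k + l) where
  d x y := G.dist x y
  nb := lst G hk l
  d_self _ := SimpleGraph.dist_self
  eq_of_d x y h := (hG.preconnected x y).dist_eq_zero_iff.1 h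
  symm _ _ := SimpleGraph.dist_comm
  tri _ _ _ := hG.dist_triangle
  nb_le x i := by
    rcases lst_mem hk l x i with h | h
    · exact (SimpleGraph.dist_eq_one_iff_adj.2 h).le
    · rw [h.1, SimpleGraph.dist_self]
      exact Nat.zero_le _
  closer x z m h := by
    obtain ⟨y, h1, h2⟩ := exists_closer' hG h
    obtain ⟨i, hi⟩ := exists_lst hk l h1
    exact ⟨i, by rw [hi, h2]⟩
  curv x y h := lst_curv hk hα hP hκ hl (SimpleGraph.dist_eq_one_iff_adj.1 h)

end

section
variable {V : Type} {G : SimpleGraph V} [G.LocallyFinite] {Γ : Type} [Group Γ] [MulAction Γ V]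

/-- the group element moves neighbours to neighbours -/
def nbE (hA : ActsOn Γ G) (g : Γ) (x : V) : G.neighborFinset (g • x) ≃ G.neighborFinset x :=
  (MulAction.toPerm g⁻¹).subtypeEquiv fun a => by
    have h := hA g x (g⁻¹ • a)
    rw [smul_inv_smul] at h
    rw [SimpleGraph.mem_neighborFinset, SimpleGraph.mem_neighborFinset, MulAction.toPerm_apply, h]

theorem lst_equi (hA : ActsOn Γ G) {k : ℕ} (hk : G.IsRegularOfDegree k) (l : ℕ) (g : Γ) (x : V) :
    ∃ τ : Equiv.Perm (Fin (k + l)), ∀ i, lst G hk l (g • x) i = g • lst G hk l x (τ i) := by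
  set e : ∀ x, G.neighborFinset x ≃ Fin k := fun x => Finset.equivFinOfCardEq
    ((G.card_neighborFinset_eq_degree x).trans (hk x)) with he
  set τ₁ : Equiv.Perm (Fin k) := (e (g • x)).symm.trans ((nbE hA g x).trans (e x)) with hτ₁
  refine ⟨finSumFinEquiv.symm.trans
    ((Equiv.sumCongr τ₁ (Equiv.refl (Fin l))).trans finSumFinEquiv), fun i => ?_⟩
  unfold lst
  rw [Equiv.trans_apply, Equiv.trans_apply, Equiv.symm_apply_apply]
  rcases finSumFinEquiv.symm i with j | j
  · rw [Equiv.sumCongr_apply, Sum.map_inl, Sum.elim_inl, Sum.elim_inl]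
    change (((e (g • x)).symm j : G.neighborFinset (g • x)) : V) =
      g • (((e x).symm (τ₁ j) : G.neighborFinset x) : V)
    rw [hτ₁, Equiv.trans_apply, Equiv.trans_apply, Equiv.symm_apply_apply]
    change _ = g • (g⁻¹ • (((e (g • x)).symm j : G.neighborFinset (g • x)) : V))
    rw [smul_inv_smul]
  · rw [Equiv.sumCongr_apply, Sum.map_inr, Sum.elim_inr, Sum.elim_inr]

theorem spG_acts (hA : ActsOn Γ G) (hG : G.Connected) {k : ℕ} (hk : G.IsRegularOfDegree k)
    {α : ℝ≥0∞} (hα : α < 1) {P : V → PMF V} (hP : IsLazyWalk G α P) (hκ : NonnegCurvature G P)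
    {l : ℕ} (hl : (k : ℝ) ≤ (k + l) * (1 - α).toReal) :
    Acts Γ (spG hG hk hα hP hκ hl) where
  isom g x y := dist_smul hG hA g x y
  equi g x := lst_equi hA hk l g x

end

end Pool.Agent.TH595
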