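import Pool.Agent.TH595.Act

set_option autoImplicit false

/-!
# Busemann functions of a translation
-/

namespace Pool.Agent.TH595

open Filter

/-- The filter of all sets containing all positive multiples of some number. -/
def mulF : Filter ℕ where
  sets := {s | ∃ M, 1 ≤ M ∧ ∀ n, 1 ≤ n → M ∣ n → n ∈ s}
  univ_sets := ⟨1, le_rfl, fun _ _ _ => Set.mem_univ _⟩
  sets_of_superset := by
    rintro s t ⟨M, h1, h2⟩ hst
    exact ⟨M, h1, fun n hn hM => hst (h2 n hn hM)⟩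
  inter_sets := by
    rintro s t ⟨M, h1, h2⟩ ⟨N, h3, h4⟩
    exact ⟨M * N, Nat.mul_pos h1 h3, fun n hn hM =>
      ⟨h2 n hn (dvd_trans (dvd_mul_right _ _) hM), h4 n hn (dvd_trans (dvd_mul_left _ _) hM)⟩⟩

theorem ev_mulF {P : ℕ → Prop} :
    (∀ᶠ n in mulF, P n) ↔ ∃ M, 1 ≤ M ∧ ∀ n, 1 ≤ n → M ∣ n → P n := Iff.rfl

instance : NeBot mulF := by
  refine ⟨fun h => ?_⟩
  have h1 : (∅ : Set ℕ) ∈ mulF := by rw [h]; trivial
  obtain ⟨M, h2, h3⟩ := h1
  exact h3 M h2 dvd_rfl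

theorem ev_mul {P : ℕ → Prop} (h : ∀ᶠ n in mulF, P n) {r : ℕ} (hr : 1 ≤ r) :
    ∀ᶠ n in mulF, P (r * n) := by
  obtain ⟨M, h1, h2⟩ := h
  exact ⟨M, h1, fun n hn hM => h2 _ (Nat.mul_pos hr hn) (dvd_mul_of_dvd_right hM r)⟩

theorem ev_all {P : ℕ → Prop} (h : ∀ᶠ n in mulF, P n) : ∀ᶠ n in mulF, ∀ k, 1 ≤ k → P (k * n) := by
  obtain ⟨M, h1, h2⟩ := h
  exact ⟨M, h1, fun n hn hM k hk => h2 _ (Nat.mul_pos hk hn) (dvd_mul_of_dvd_right hM k)⟩

theorem ev_ge (N : ℕ) : ∀ᶠ n in mulF, N ≤ n :=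
  ⟨N + 1, by omega, fun n hn hM => by
    have h := Nat.le_of_dvd hn hM
    change N ≤ n
    omega⟩

section
variable {Γ : Type} [Group Γ] {V : Type} [MulAction Γ V] {Q : ℕ} {S : Sp V Q}

/-- `s` translates every point along a geodesic, after passing to a power: highly divisible
powers of `s` move `z` by exactly `n * p`. -/
def TT (S : Sp V Q) (s : Γ) (p : ℕ) : Prop := ∀ z, ∀ᶠ n in mulF, S.d z (s ^ n • z) = n * p

/-- `v` is the value at `w` of the Busemann function of the `s`-line of `z`. -/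
def E (S : Sp V Q) (s : Γ) (p : ℕ) (w z : V) (v : ℤ) : Prop :=
  ∀ᶠ n : ℕ in mulF, (S.d w (s ^ n • z) : ℤ) = (n : ℤ) * p + v

theorem E.unique {s : Γ} {p : ℕ} {w z : V} {v v' : ℤ} (h : E S s p w z v) (h' : E S s p w z v') :
    v = v' := by
  obtain ⟨n, h1, h2⟩ := (h.and h').exists
  linarith

theorem exists_E (hA : Acts Γ S) {s : Γ} {p : ℕ} (h : TT S s p) (w z : V) :
    ∃ v, E S s p w z v := by
  obtain ⟨M, hM, hz⟩ := ev_mulF.1 (h z)
  -- the sequence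
  let a : ℕ → ℤ := fun j => (S.d w (s ^ ((j + 1) * M) • z) : ℤ) - ((j + 1) * M : ℕ) * p
  have hlow : ∀ j, - (S.d w z : ℤ) ≤ a j := by
    intro j
    have h1 := hz ((j + 1) * M) (Nat.mul_pos (by omega) hM) (dvd_mul_left _ _)
    have h2 := S.tri z w (s ^ ((j + 1) * M) • z)
    have h3 := S.symm z w
    have h4 : ((S.d z (s ^ ((j + 1) * M) • z) : ℕ) : ℤ) = (((j + 1) * M : ℕ) : ℤ) * p := by
      exact_mod_cast h1
    simp only [a]
    omega
  obtain ⟨v, ⟨j₀, hj₀⟩, hmin⟩ := Int.exists_least_of_bdd (P := fun v => ∃ j, a j = v)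
    ⟨- (S.d w z : ℤ), fun z ⟨j, hj⟩ => hj ▸ hlow j⟩ ⟨a 0, 0, rfl⟩
  refine ⟨v, ev_mulF.2 ⟨(j₀ + 1) * M, Nat.mul_pos (by omega) hM, fun n hn hdvd => ?_⟩⟩
  obtain ⟨k, rfl⟩ := hdvd
  have hk : 1 ≤ k := by
    rcases Nat.eq_zero_or_pos k with h0 | h0
    · rw [h0, Nat.mul_zero] at hn
      omega
    · exact h0
  -- write the index
  obtain ⟨l, hl⟩ : ∃ l, (j₀ + 1) * M * k = (j₀ + 1) * M + l * M ∧ (l + j₀ + 1) * M =
      (j₀ + 1) * M * k := by
    obtain ⟨k', rfl⟩ : ∃ k', k = k' + 1 := ⟨k - 1, by omega⟩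
    exact ⟨(j₀ + 1) * k', by ring, by ring⟩
  have h1 : a (l + j₀) ≥ v := hmin _ ⟨_, rfl⟩
  have h2 : (S.d w (s ^ ((j₀ + 1) * M * k) • z) : ℤ) ≤
      S.d w (s ^ ((j₀ + 1) * M) • z) + (l * M : ℕ) * p := by
    have b1 := S.tri w (s ^ ((j₀ + 1) * M) • z) (s ^ ((j₀ + 1) * M * k) • z)
    rw [hl.1, isom_pow hA] at b1
    rw [hl.1]
    rcases Nat.eq_zero_or_pos l with h0 | h0
    · simp [h0]
    · rw [hz (l * M) (Nat.mul_pos h0 hM) (dvd_mul_left _ _)] at b1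
      exact_mod_cast b1
  have h3 : a (l + j₀) = (S.d w (s ^ ((j₀ + 1) * M * k) • z) : ℤ) -
      ((j₀ + 1) * M * k : ℕ) * p := by
    simp only [a]
    rw [hl.2]
  have h4 : a j₀ = (S.d w (s ^ ((j₀ + 1) * M) • z) : ℤ) - ((j₀ + 1) * M : ℕ) * p := rfl
  have h5 : (((j₀ + 1) * M * k : ℕ) : ℤ) * p = ((j₀ + 1) * M : ℕ) * p + (l * M : ℕ) * p := by
    rw [hl.1]
    push_cast
    ring
  rw [h3] at h1
  rw [h4] at hj₀
  linarith

open Classical in
/-- The Busemann function of the `s`-line of `z`, at `w`. -/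
noncomputable def B (S : Sp V Q) (s : Γ) (p : ℕ) (w z : V) : ℤ :=
  if h : ∃ v, E S s p w z v then h.choose else 0

theorem B_spec (hA : Acts Γ S) {s : Γ} {p : ℕ} (h : TT S s p) (w z : V) :
    ∀ᶠ n : ℕ in mulF, (S.d w (s ^ n • z) : ℤ) = (n : ℤ) * p + B S s p w z := by
  unfold B
  rw [dif_pos (exists_E hA h w z)]
  exact (exists_E hA h w z).choose_spec

theorem B_eq (hA : Acts Γ S) {s : Γ} {p : ℕ} (h : TT S s p) {w z : V} {v : ℤ}
    (hv : E S s p w z v) : B S s p w z = v := E.unique (B_spec hA h w z) hv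

theorem B_self (hA : Acts Γ S) {s : Γ} {p : ℕ} (h : TT S s p) (z : V) : B S s p z z = 0 := by
  refine B_eq hA h ((h z).mono fun n hn => ?_)
  rw [hn]
  push_cast
  ring

/-- quasi-periodic functions -/
def QP (s : Γ) (p : ℕ) (f : V → ℤ) : Prop := ∀ w, ∀ᶠ n : ℕ in mulF, f (s ^ n • w) = f w - (n : ℤ) * p

theorem le_B (hA : Acts Γ S) {s : Γ} {p : ℕ} (h : TT S s p) {f : V → ℤ} (hf : Lip S f)
    (hq : QP s p f) (w z : V) : f w - f z ≤ B S s p w z := by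
  obtain ⟨n, h1, h2⟩ := ((B_spec hA h w z).and (hq z)).exists
  have := hf w (s ^ n • z)
  linarith

/-- the value at a good index bounds the Busemann function -/
theorem B_le_val (hA : Acts Γ S) {s : Γ} {p : ℕ} (h : TT S s p) (z : V) :
    ∃ M : ℕ, 1 ≤ M ∧ ∀ m : ℕ, M ∣ m → ∀ w, B S s p w z ≤ S.d w (s ^ m • z) - (m : ℤ) * p := by
  obtain ⟨M, hM, hz⟩ := ev_mulF.1 (h z)
  refine ⟨M, hM, fun m hm w => ?_⟩
  obtain ⟨N, hN, hw⟩ := ev_mulF.1 (B_spec hA h w z)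
  have h1 := hw ((m + 1) * N * M) (Nat.mul_pos (Nat.mul_pos (by omega) hN) hM)
    (dvd_mul_of_dvd_left (dvd_mul_left _ _) _)
  have h2 : m < (m + 1) * N * M := by
    have : (m + 1) * 1 * 1 ≤ (m + 1) * N * M :=
      Nat.mul_le_mul (Nat.mul_le_mul le_rfl hN) hM
    omega
  obtain ⟨k, hk⟩ : ∃ k, (m + 1) * N * M = m + k := ⟨(m + 1) * N * M - m, by omega⟩
  have h3 : M ∣ k := by
    have : M ∣ m + k := hk ▸ dvd_mul_left _ _
    exact (Nat.dvd_add_right hm).1 this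
  have h4 := hz k (by omega) h3
  have h5 := S.tri w (s ^ m • z) (s ^ (m + k) • z)
  rw [isom_pow hA, h4] at h5
  rw [hk] at h1
  have h6 : (S.d w (s ^ (m + k) • z) : ℤ) ≤ S.d w (s ^ m • z) + k * p := by exact_mod_cast h5
  push_cast at h1
  linarith

theorem ev_B_le_val (hA : Acts Γ S) {s : Γ} {p : ℕ} (h : TT S s p) (z : V) :
    ∀ᶠ m : ℕ in mulF, ∀ w, B S s p w z ≤ S.d w (s ^ m • z) - (m : ℤ) * p := by
  obtain ⟨M, hM, h1⟩ := B_le_val hA h z
  exact ev_mulF.2 ⟨M, hM, fun n _ hn => h1 n hn⟩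

theorem B_le_d (hA : Acts Γ S) {s : Γ} {p : ℕ} (h : TT S s p) (w z : V) :
    B S s p w z ≤ S.d w z := by
  obtain ⟨M, hM, h1⟩ := B_le_val hA h z
  have := h1 0 (dvd_zero _) w
  simpa using this

theorem B_tri (hA : Acts Γ S) {s : Γ} {p : ℕ} (h : TT S s p) (w y z : V) :
    B S s p w z ≤ B S s p w y + B S s p y z := by
  obtain ⟨n, ⟨h1, h2⟩, h3⟩ := (((B_spec hA h w y).and (B_spec hA h y z)).and
    (ev_mul (B_spec hA h w z) (r := 2) (by norm_num))).exists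
  have h4 := S.tri w (s ^ n • y) (s ^ (2 * n) • z)
  have h5 : S.d (s ^ n • y) (s ^ (2 * n) • z) = S.d y (s ^ n • z) := by
    rw [two_mul, pow_add, mul_smul, hA.isom]
  rw [h5] at h4
  push_cast at h3
  have h6 : (S.d w (s ^ (2 * n) • z) : ℤ) ≤ S.d w (s ^ n • y) + S.d y (s ^ n • z) := by
    exact_mod_cast h4
  linarith

theorem B_lip (hA : Acts Γ S) {s : Γ} {p : ℕ} (h : TT S s p) (z : V) :
    Lip S fun w => B S s p w z := by
  intro w y
  have h1 := B_tri hA h w y z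
  have h2 := B_le_d hA h w y
  simp only
  linarith

/-- quasi-periodicity of the Busemann function in the first variable -/
theorem B_qp (hA : Acts Γ S) {s : Γ} {p : ℕ} (h : TT S s p) (z : V) :
    QP s p fun w => B S s p w z := by
  intro w
  obtain ⟨M, hM, hw⟩ := ev_mulF.1 (B_spec hA h w z)
  refine ev_mulF.2 ⟨M, hM, fun n hn hdvd => B_eq hA h (ev_mulF.2 ⟨M * (n + 1),
    Nat.mul_pos hM (by omega), fun k hk hk' => ?_⟩)⟩
  have h1 : n + 1 ≤ k := le_trans (Nat.le_mul_of_pos_left _ hM) (Nat.le_of_dvd hk hk')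
  obtain ⟨l, rfl⟩ : ∃ l, k = n + l := ⟨k - n, by omega⟩
  have h2 : M ∣ l := (Nat.dvd_add_right hdvd).1 (dvd_trans (dvd_mul_right _ _) hk')
  have h3 := hw l (by omega) h2
  rw [pow_add, mul_smul, hA.isom, h3]
  push_cast
  ring

/-- quasi-periodicity in the second variable -/
theorem B_qp' (hA : Acts Γ S) {s : Γ} {p : ℕ} (h : TT S s p) (w z : V) :
    ∀ᶠ n : ℕ in mulF, B S s p w (s ^ n • z) = B S s p w z + (n : ℤ) * p := by
  obtain ⟨M, hM, hw⟩ := ev_mulF.1 (B_spec hA h w z)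
  refine ev_mulF.2 ⟨M, hM, fun n hn hdvd => B_eq hA h (ev_mulF.2 ⟨M, hM, fun k hk hk' => ?_⟩)⟩
  have h3 := hw (k + n) (by omega) (dvd_add hk' hdvd)
  rw [← mul_smul, ← pow_add, h3]
  push_cast
  ring

theorem B_dn (hA : Acts Γ S) {s : Γ} {p : ℕ} (hp : 1 ≤ p) (h : TT S s p) (z : V) :
    Dn S fun w => B S s p w z := by
  intro w
  have h1 : ∀ᶠ n : ℕ in mulF, ∀ i, (S.d (S.nb w i) (s ^ n • z) : ℤ) =
      (n : ℤ) * p + B S s p (S.nb w i) z := eventually_all.2 fun i => B_spec hA h (S.nb w i) z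
  obtain ⟨n, ⟨h2, h3⟩, h4⟩ := ((h1.and (B_spec hA h w z)).and
    (ev_ge ((1 - B S s p w z).toNat))).exists
  have h5 : (n : ℤ) ≤ n * p := by
    have : n * 1 ≤ n * p := Nat.mul_le_mul le_rfl hp
    exact_mod_cast (by simpa using this : n ≤ n * p)
  have h6 : 1 ≤ S.d w (s ^ n • z) := by
    have h7 := Int.self_le_toNat (1 - B S s p w z)
    have h8 : ((1 - B S s p w z).toNat : ℤ) ≤ n := by exact_mod_cast h4
    have : (1 : ℤ) ≤ S.d w (s ^ n • z) := by linarith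
    exact_mod_cast this
  obtain ⟨i, hi⟩ := S.closer w (s ^ n • z) (S.d w (s ^ n • z) - 1) (by omega)
  refine ⟨i, ?_⟩
  have h9 := h2 i
  simp only
  omega

/-- the drift of a quasi-periodic function is quasi-periodic -/
theorem D_qp (hA : Acts Γ S) {s : Γ} {p : ℕ} {f : V → ℤ} (hq : QP s p f) (w : V) :
    ∀ᶠ n in mulF, D S f (s ^ n • w) = D S f w := by
  have h1 : ∀ᶠ n : ℕ in mulF, ∀ i, f (s ^ n • S.nb w i) = f (S.nb w i) - (n : ℤ) * p :=
    eventually_all.2 fun i => hq (S.nb w i)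
  filter_upwards [h1, hq w] with n h2 h3
  exact D_shift hA h3 h2

end

end Pool.Agent.TH595
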