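import Pool.Agent.TH595.Avg

set_option autoImplicit false
open scoped ENNReal Topology

/-!
# Assembly: transitive graphs of nonnegative curvature are quasi-isometric to `ℤ^d`
-/

namespace Pool.Agent.TH595

open Filter Pool.Agent.H141R3.Ollivier Pool.Agent.H141R3.Growth

section
variable {V : Type} {G : SimpleGraph V}

theorem exists_between (hG : G.Connected) (x z : V) (m : ℕ) (h : m ≤ G.dist x z) :
    ∃ y, G.dist x y ≤ m ∧ G.dist y z + m = G.dist x z := by
  induction m with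
  | zero => exact ⟨x, by rw [SimpleGraph.dist_self], rfl⟩
  | succ m ih =>
    obtain ⟨y, h1, h2⟩ := ih (by omega)
    obtain ⟨m', hm'⟩ : ∃ m', G.dist y z = m' + 1 := ⟨G.dist y z - 1, by omega⟩
    obtain ⟨y', h3, h4⟩ := exists_closer' hG hm'
    have h5 := hG.dist_triangle (u := x) (v := y) (w := y')
    rw [SimpleGraph.dist_eq_one_iff_adj.2 h3] at h5
    exact ⟨y', by omega, by omega⟩

variable {Γ : Type} [Group Γ] [MulAction Γ V]

theorem finite_orbits (hF : Cofin Γ V) : Finite (MulAction.orbitRel.Quotient Γ V) := by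
  obtain ⟨F, hF⟩ := hF
  refine Finite.of_surjective
    (fun x : F => (Quotient.mk _ (x : V) : MulAction.orbitRel.Quotient Γ V)) fun a => ?_
  induction a using Quotient.inductionOn with
  | _ a =>
  obtain ⟨g, hg⟩ := hF a
  refine ⟨⟨g • a, hg⟩, Quotient.sound ?_⟩
  exact ⟨g, rfl⟩

theorem gen_aux (hG : G.Connected) (hA : ActsOn Γ G) {z₀ : V} {R₀ : ℕ}
    (hR₀ : ∀ x : V, ∃ g : Γ, G.dist z₀ (g • x) ≤ R₀) (n : ℕ) :
    ∀ g : Γ, G.dist z₀ (g • z₀) ≤ n →
      g ∈ Subgroup.closure {g : Γ | G.dist z₀ (g • z₀) ≤ 2 * R₀ + 1} := by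
  induction n with
  | zero =>
    intro g hg
    exact Subgroup.subset_closure (by
      change G.dist z₀ (g • z₀) ≤ 2 * R₀ + 1
      omega)
  | succ n ih =>
    intro g hg
    by_cases hs : G.dist z₀ (g • z₀) ≤ 2 * R₀ + 1
    · exact Subgroup.subset_closure hs
    · push Not at hs
      obtain ⟨y, h1, h2⟩ := exists_between hG (g • z₀) z₀ (R₀ + 1)
        (by rw [SimpleGraph.dist_comm]; omega)
      obtain ⟨h, hh⟩ := hR₀ y
      have h3 : G.dist (h⁻¹ • z₀) y ≤ R₀ := by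
        rw [← dist_smul hG hA h, smul_inv_smul]
        exact hh
      have h4 := hG.dist_triangle (u := z₀) (v := y) (w := h⁻¹ • z₀)
      rw [SimpleGraph.dist_comm (u := g • z₀) (v := z₀)] at h2
      rw [SimpleGraph.dist_comm (u := z₀) (v := y),
        SimpleGraph.dist_comm (u := y) (v := h⁻¹ • z₀)] at h4
      have h5 := ih h⁻¹ (by omega)
      have h6 : G.dist z₀ ((h * g) • z₀) ≤ 2 * R₀ + 1 := by
        have h7 := hG.dist_triangle (u := h⁻¹ • z₀) (v := y) (w := g • z₀)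
        have h8 : G.dist z₀ ((h * g) • z₀) = G.dist (h⁻¹ • z₀) (g • z₀) := by
          rw [← dist_smul hG hA h (h⁻¹ • z₀), smul_inv_smul, mul_smul]
        rw [SimpleGraph.dist_comm (u := y) (v := g • z₀)] at h7
        omega
      have h9 : g = h⁻¹ * (h * g) := by rw [inv_mul_cancel_left]
      rw [h9]
      exact Subgroup.mul_mem _ h5 (Subgroup.subset_closure h6)

theorem qi_of_hom [G.LocallyFinite] (hG : G.Connected) (hA : ActsOn Γ G)
    (hfin : ∀ (x : V) (r : ℕ), {y | G.dist x y ≤ r}.Finite) (hF : Cofin Γ V) {k : ℕ}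
    {χ : Γ → Fin k → ℝ} {R : ℕ} {z₀ : V} (hχ : ∀ g h, χ (g * h) = χ g + χ h)
    (hb : ∀ g i, |χ g i| ≤ G.dist z₀ (g • z₀))
    (hK : ∀ g, χ g = 0 → ∀ z, G.dist z (g • z) ≤ R) : ∃ d, QuasiIsometricToZ G d := by
  classical
  have horb : Finite (MulAction.orbitRel.Quotient Γ V) := finite_orbits hF
  have hχ1 : χ 1 = 0 := by
    have h1 := hχ 1 1
    rw [mul_one] at h1
    exact left_eq_add.1 h1
  have hpow : ∀ (g : Γ) (n : ℕ), χ (g ^ n) = n • χ g := by
    intro g n
    induction n with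
    | zero => rw [pow_zero, hχ1, zero_smul]
    | succ n ih => rw [pow_succ, hχ, ih, succ_nsmul]
  have hst : ∀ (g : Γ) (x : V), g • x = x → χ g = 0 := by
    intro g x hgx
    have hp : ∀ n : ℕ, g ^ n • x = x := by
      intro n
      induction n with
      | zero => rw [pow_zero, one_smul]
      | succ n ih => rw [pow_succ, mul_smul, hgx, ih]
    funext i
    by_contra hne
    have hpos : 0 < |χ g i| := abs_pos.2 hne
    obtain ⟨n, hn⟩ := exists_nat_gt ((2 * G.dist z₀ x : ℕ) / |χ g i| : ℝ)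
    rw [div_lt_iff₀ hpos] at hn
    have h1 := hb (g ^ n) i
    rw [hpow, Pi.smul_apply, nsmul_eq_mul, abs_mul, Nat.abs_cast] at h1
    have h2 := hG.dist_triangle (u := z₀) (v := x) (w := g ^ n • z₀)
    have h3 : G.dist x (g ^ n • z₀) = G.dist z₀ x := by
      conv_lhs => rw [← hp n]
      rw [dist_smul hG hA, SimpleGraph.dist_comm]
    rw [h3] at h2
    have h4 : (G.dist z₀ (g ^ n • z₀) : ℝ) ≤ ((2 * G.dist z₀ x : ℕ) : ℝ) := by
      exact_mod_cast (by omega : G.dist z₀ (g ^ n • z₀) ≤ 2 * G.dist z₀ x)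
    linarith
  have hinv : ∀ g : Γ, χ g⁻¹ = - χ g := by
    intro g
    have h1 := hχ g⁻¹ g
    rw [inv_mul_cancel, hχ1] at h1
    exact eq_neg_of_add_eq_zero_left h1.symm
  have hdep : ∀ g g' : Γ, g • z₀ = g' • z₀ → χ g = χ g' := by
    intro g g' h
    have h1 := hst (g⁻¹ * g') z₀ (by rw [mul_smul, ← h, inv_smul_smul])
    rw [hχ, hinv] at h1
    exact (neg_add_eq_zero.1 h1)
  let π₀ : Γ →* Multiplicative (Fin k → ℝ) :=
    { toFun := fun g => Multiplicative.ofAdd (χ g)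
      map_one' := by rw [hχ1]; rfl
      map_mul' := fun g h => by rw [hχ]; rfl }
  have hπ₀ : ∀ g, π₀ g = Multiplicative.ofAdd (χ g) := fun _ => rfl
  let π : Γ →* π₀.range := π₀.rangeRestrict
  have hπs : Function.Surjective π := π₀.rangeRestrict_surjective
  have hπ1 : ∀ g, π g = 1 ↔ χ g = 0 := by
    intro g
    rw [Subtype.ext_iff]
    change π₀ g = 1 ↔ _
    rw [hπ₀]
    exact Iff.rfl
  have hπe : ∀ g g', χ g = χ g' → π g = π g' := by
    intro g g' h
    rw [Subtype.ext_iff]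
    change π₀ g = π₀ g'
    rw [hπ₀, hπ₀, h]
  obtain ⟨R₀, hR₀⟩ : ∃ R₀ : ℕ, ∀ x : V, ∃ g : Γ, G.dist z₀ (g • x) ≤ R₀ := by
    obtain ⟨F, hF⟩ := hF
    refine ⟨∑ y ∈ F, G.dist z₀ y, fun x => ?_⟩
    obtain ⟨g, hg⟩ := hF x
    exact ⟨g, Finset.single_le_sum (f := fun y => G.dist z₀ y) (fun _ _ => Nat.zero_le _) hg⟩
  have hfg : Group.FG π₀.range := by
    rw [Group.fg_iff]
    refine ⟨π '' {g : Γ | G.dist z₀ (g • z₀) ≤ 2 * R₀ + 1}, ?_, ?_⟩
    · rw [← MonoidHom.map_closure, eq_top_iff]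
      intro q _
      obtain ⟨g, rfl⟩ := hπs q
      exact Subgroup.mem_map_of_mem _ (gen_aux hG hA hR₀ _ g le_rfl)
    · refine ((hfin z₀ (2 * R₀ + 1)).image
        (fun y => if h : ∃ g : Γ, g • z₀ = y then π h.choose else 1)).subset ?_
      rintro _ ⟨g, hg, rfl⟩
      refine ⟨g • z₀, hg, ?_⟩
      have hex : ∃ g' : Γ, g' • z₀ = g • z₀ := ⟨g, rfl⟩
      beta_reduce
      rw [dif_pos hex]
      exact hπe _ _ (hdep _ _ hex.choose_spec)
  refine qi_of_virtually_abelian hG hA π hπs ?_ ?_ ⊤ ?_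
  · intro x
    refine (Set.finite_singleton (1 : π₀.range)).subset ?_
    rintro _ ⟨g, hg, rfl⟩
    rw [Set.mem_singleton_iff, hπ1]
    exact hst g x hg
  · intro x
    refine (hfin x R).subset ?_
    rintro y ⟨g, hg, rfl⟩
    exact hK g ((hπ1 g).1 hg) x
  · intro a _ b _
    exact mul_comm a b

end

/-- The main theorem, for all lazy walks. -/
theorem qi_main {V : Type} (G : SimpleGraph V) [G.LocallyFinite] (hG : G.Connected)
    (htr : IsTransitive G) {α : ℝ≥0∞} (hα : α < 1) {P : V → PMF V} (hP : IsLazyWalk G α P)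
    (hκ : NonnegCurvature G P) : ∃ d, QuasiIsometricToZ G d := by
  classical
  let _ := autAction G
  have hA : ActsOn (G ≃g G) G := fun φ x y => φ.map_rel_iff
  have hne : Nonempty V := hG.nonempty
  obtain ⟨x₀⟩ := hne
  have hreg : G.IsRegularOfDegree (G.degree x₀) := by
    intro x
    obtain ⟨φ, hφ⟩ := htr x₀ x
    subst hφ
    exact degree_smul hA φ x₀
  set k := G.degree x₀ with hk
  have hpoly : PolyGrowth G := by
    refine ⟨3 ^ (k * (2 * k + 1)) + (2 * k + 1), fun x r => ?_⟩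
    obtain ⟨F, hF, hcard⟩ := regular_growth G hreg hα hP hκ x r
    have hsub : {y | G.dist x y ≤ r} ⊆ (F : Set V) := fun y hy => hF y (hG.preconnected x y) hy
    refine ⟨F.finite_toSet.subset hsub, (Set.ncard_le_ncard hsub F.finite_toSet).trans ?_⟩
    rw [Set.ncard_coe_finset]
    refine hcard.trans ?_
    rw [← pow_mul]
    exact Nat.mul_le_mul (Nat.le_add_right _ _)
      (Nat.pow_le_pow_right (Nat.succ_pos r) (Nat.le_add_left _ _))
  obtain ⟨μ⟩ := exists_mean hG hA hpoly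
  have hβ : (1 - α) ≠ 0 := (tsub_pos_of_lt hα).ne'
  have hβt : (1 - α) ≠ ⊤ := ne_top_of_le_ne_top ENNReal.one_ne_top tsub_le_self
  have hβpos : 0 < (1 - α).toReal := ENNReal.toReal_pos hβ hβt
  obtain ⟨l, hl⟩ : ∃ l : ℕ, (k : ℝ) ≤ (k + l) * (1 - α).toReal := by
    obtain ⟨l, hl⟩ := exists_nat_ge ((k : ℝ) / (1 - α).toReal)
    rw [div_le_iff₀ hβpos] at hl
    refine ⟨l, hl.trans ?_⟩
    exact mul_le_mul_of_nonneg_right (by
      have : (0 : ℝ) ≤ k := Nat.cast_nonneg _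
      linarith) hβpos.le
  have hF : Cofin (G ≃g G) V := ⟨{x₀}, fun x => by
    obtain ⟨φ, hφ⟩ := htr x x₀
    exact ⟨φ, by rw [Finset.mem_singleton]; exact hφ⟩⟩
  have hV : Nonempty V := ⟨x₀⟩
  obtain ⟨H, m, χ, R, z₀, hH, h1, h2, h3⟩ := main_ind (k + l) (G ≃g G) V V μ (fun x => x)
    (fun _ _ => rfl) (k + l) (spG hG hreg hα hP hκ hl) (spG_acts hA hG hreg hα hP hκ hl) hF
    (fun x => (Finset.card_le_univ _).trans (by rw [Fintype.card_fin]))
  have hA' : ActsOn H G := fun g x y => hA g x y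
  exact qi_of_hom (Γ := H) hG hA' (fun x r => (hpoly.choose_spec x r).1) (hF.sub H)
    (χ := fun g => χ g) (R := R) (z₀ := z₀)
    (fun g h => h1 g g.2 h h.2) (fun g i => h2 g g.2 i) (fun g hg z => h3 g g.2 hg z)

end Pool.Agent.TH595
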