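import Pool.Agent.TH595.Line

set_option autoImplicit false

/-!
# The induction: a subgroup of finite index maps to a vector space with bounded orbits of the kernel
-/

namespace Pool.Agent.TH595

open Filter

/-- bounded real functions -/
def Bdd {X : Type} (f : X → ℝ) : Prop := ∃ C : ℝ, ∀ x, |f x| ≤ C

/-- An invariant mean on bounded functions. -/
structure Mean (Γ X : Type) [Group Γ] [MulAction Γ X] where
  m : (X → ℝ) → ℝ
  add : ∀ f g, Bdd f → Bdd g → m (fun x => f x + g x) = m f + m g
  mono : ∀ f g, Bdd f → Bdd g → (∀ x, f x ≤ g x) → m f ≤ m g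
  const : ∀ c, m (fun _ => c) = c
  inv : ∀ (g : Γ) f, Bdd f → m (fun x => f (g • x)) = m f

/-- restriction to a subgroup -/
def Mean.sub {Γ X : Type} [Group Γ] [MulAction Γ X] (μ : Mean Γ X) (H : Subgroup Γ) :
    Mean H X where
  m := μ.m
  add := μ.add
  mono := μ.mono
  const := μ.const
  inv g f hf := μ.inv (g : Γ) f hf

theorem Mean.le {Γ X : Type} [Group Γ] [MulAction Γ X] (μ : Mean Γ X) {f : X → ℝ} (hf : Bdd f)
    {c : ℝ} (h : ∀ x, f x ≤ c) : μ.m f ≤ c := by
  rw [← μ.const c]
  exact μ.mono _ _ hf ⟨|c|, fun _ => le_rfl⟩ h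

theorem Mean.ge {Γ X : Type} [Group Γ] [MulAction Γ X] (μ : Mean Γ X) {f : X → ℝ} (hf : Bdd f)
    {c : ℝ} (h : ∀ x, c ≤ f x) : c ≤ μ.m f := by
  rw [← μ.const c]
  exact μ.mono _ _ ⟨|c|, fun _ => le_rfl⟩ hf h

section
variable {Γ : Type} [Group Γ] {V : Type} [MulAction Γ V] {Q : ℕ} {S : Sp V Q}

theorem Bt_le [Nonempty V] (hA : Acts Γ S) {s : Γ} {p : ℕ} (h : TT S s p) (w z : V) :
    B S s p w z + B S s p z w ≤
      2 * ((quo S (lineSetoid hA h) (line_compat hA h)).d (Quotient.mk _ w) (Quotient.mk _ z) :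
        ℤ) := by
  obtain ⟨y, hy, hy'⟩ := exists_lift (line_compat hA h) w (Quotient.mk _ z) _ rfl
  have h1 : B S s p y z + B S s p z y = 0 := Quotient.exact hy
  have h2 := B_tri hA h w y z
  have h3 := B_tri hA h z y w
  have h4 := B_le_d hA h w y
  have h5 := B_le_d hA h y w
  have h6 : (S.d w y : ℤ) ≤ ((quo S (lineSetoid hA h) (line_compat hA h)).d
    (Quotient.mk _ w) (Quotient.mk _ z) : ℤ) := by exact_mod_cast hy'
  rw [S.symm] at h5
  linarith

/-- differences of Busemann functions under an element of the stabiliser -/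
theorem phi_bound (hA : Acts Γ S) {s : Γ} {p : ℕ} (h : TT S s p) {g : Γ}
    (hg : g ∈ stab S s p) (w z : V) :
    |B S s p (g • w) z - B S s p w z| ≤ S.d z (g • z) := by
  have h1 : B S s p (g • w) z = B S s p w (g⁻¹ • z) := by
    have := hg w (g⁻¹ • z)
    rwa [smul_inv_smul] at this
  have h2 : S.d z (g⁻¹ • z) = S.d z (g • z) := by
    rw [← hA.isom g z, smul_inv_smul, S.symm]
  have h3 := B_tri hA h w z (g⁻¹ • z)
  have h4 := B_tri hA h w (g⁻¹ • z) z
  have h5 := B_le_d hA h z (g⁻¹ • z)
  have h6 := B_le_d hA h (g⁻¹ • z) z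
  rw [S.symm (g⁻¹ • z)] at h6
  rw [h2] at h5 h6
  rw [h1, abs_le]
  constructor <;> linarith

/-- The key estimate: if all powers of `g` move the lines a bounded amount and `g` has mean
translation zero then `g` moves every point a bounded amount along its line. -/
theorem height_bound {X : Type} [MulAction Γ X] (μ : Mean Γ X) {π : X → V}
    (hA : Acts Γ S) {s : Γ} {p : ℕ} (h : TT S s p)
    {g : Γ} (hg : g ∈ stab S s p) (z₀ : V) {R : ℕ}
    (hR : ∀ (n : ℕ) w, B S s p (g ^ n • w) w + B S s p w (g ^ n • w) ≤ R)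
    (hχ : ∀ n : ℕ, μ.m (fun x => ((B S s p (g ^ n • π x) z₀ - B S s p (π x) z₀ : ℤ) : ℝ)) = 0)
    (z : V) : |B S s p (g • z) z| ≤ R := by
  have hgn : ∀ n : ℕ, g ^ n ∈ stab S s p := fun n => pow_mem hg n
  have hbd : ∀ n : ℕ, Bdd fun x => ((B S s p (g ^ n • π x) z₀ - B S s p (π x) z₀ : ℤ) : ℝ) := by
    intro n
    refine ⟨(S.d z₀ (g ^ n • z₀) : ℤ), fun x => ?_⟩
    rw [← Int.cast_abs]
    exact_mod_cast phi_bound hA h (hgn n) (π x) z₀
  -- quasimorphism inequalities
  have hup : ∀ w (n l : ℕ), B S s p (g ^ (n + l) • w) w ≤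
      B S s p (g ^ n • w) w + B S s p (g ^ l • w) w := by
    intro w n l
    have h1 := B_tri hA h (g ^ (n + l) • w) (g ^ n • w) w
    have h2 : B S s p (g ^ (n + l) • w) (g ^ n • w) = B S s p (g ^ l • w) w := by
      rw [pow_add, mul_smul, hgn n]
    linarith
  have hlow : ∀ w (n l : ℕ), B S s p (g ^ n • w) w + B S s p (g ^ l • w) w - R ≤
      B S s p (g ^ (n + l) • w) w := by
    intro w n l
    have h1 := B_tri hA h (g ^ (n + l) • w) w (g ^ n • w)
    have h2 : B S s p (g ^ (n + l) • w) (g ^ n • w) = B S s p (g ^ l • w) w := by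
      rw [pow_add, mul_smul, hgn n]
    have h3 := hR n w
    linarith
  have hup' : ∀ w (n j : ℕ), B S s p (g ^ (j * n) • w) w ≤ j * B S s p (g ^ n • w) w := by
    intro w n j
    induction j with
    | zero =>
      rw [Nat.zero_mul, pow_zero, one_smul, B_self hA h]
      simp
    | succ j ih =>
      have h1 := hup w (j * n) n
      have e : (j + 1) * n = j * n + n := by ring
      rw [e]
      push_cast
      linarith
  have hlow' : ∀ w (n j : ℕ), (j : ℤ) * (B S s p (g ^ n • w) w - R) + R ≤
      B S s p (g ^ (j * n) • w) w + (if j = 0 then (R : ℤ) else 0) := by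
    intro w n j
    induction j with
    | zero =>
      rw [Nat.zero_mul, pow_zero, one_smul, B_self hA h]
      simp
    | succ j ih =>
      have h1 := hlow w (j * n) n
      have e : (j + 1) * n = j * n + n := by ring
      rw [e, if_neg (Nat.succ_ne_zero j)]
      by_cases hj : j = 0
      · subst hj
        simp
      · rw [if_neg hj] at ih
        push_cast
        linarith
  have hcomp : ∀ w (n : ℕ), |B S s p (g ^ n • w) w - B S s p (g ^ n • z) z| ≤
      B S s p w z + B S s p z w := by
    intro w n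
    have h1 := B_tri hA h (g ^ n • w) (g ^ n • z) w
    have h2 := B_tri hA h (g ^ n • z) z w
    have h3 := B_tri hA h (g ^ n • z) (g ^ n • w) z
    have h4 := B_tri hA h (g ^ n • w) w z
    have h5 : B S s p (g ^ n • w) (g ^ n • z) = B S s p w z := hgn n w z
    have h6 : B S s p (g ^ n • z) (g ^ n • w) = B S s p z w := hgn n z w
    rw [abs_le]
    constructor <;> linarith
  have hRnn : (0 : ℤ) ≤ R := Nat.cast_nonneg R
  rw [abs_le]
  constructor
  · -- lower bound
    by_contra hcon
    push Not at hcon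
    have hz1 : B S s p (g ^ 1 • z) z ≤ - (R + 1) := by rw [pow_one]; linarith
    have hw : ∀ w, B S s p (g ^ 1 • w) w ≤ -1 := by
      intro w
      by_contra hcon2
      push Not at hcon2
      set κ := B S s p w z + B S s p z w with hκ
      set j : ℕ := κ.toNat + 1 with hj
      have h1 := hup' z 1 j
      have h2 := hlow' w 1 j
      rw [if_neg (by omega)] at h2
      have h3 := (abs_le.1 (hcomp w (j * 1))).2
      have h4 : κ < j := by
        have := Int.self_le_toNat κ
        rw [hj]
        push_cast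
        linarith
      have h5 : (j : ℤ) * B S s p (g ^ 1 • z) z ≤ j * (- (R + 1)) :=
        mul_le_mul_of_nonneg_left hz1 (Nat.cast_nonneg _)
      have h6 : (j : ℤ) * (0 - R) ≤ j * (B S s p (g ^ 1 • w) w - R) :=
        mul_le_mul_of_nonneg_left (by linarith) (Nat.cast_nonneg _)
      have h7 : (j : ℤ) * (- (R + 1)) = j * (0 - R) - j := by ring
      linarith
    have h1 : μ.m (fun x => ((B S s p (g ^ 1 • π x) z₀ - B S s p (π x) z₀ : ℤ) : ℝ)) ≤ -1 := by
      refine μ.le (hbd 1) fun x => ?_
      have h2 := hw (π x)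
      have h3 := B_tri hA h (g ^ 1 • π x) (π x) z₀
      have h4 : B S s p (g ^ 1 • π x) z₀ - B S s p (π x) z₀ ≤ -1 := by linarith
      exact_mod_cast h4
    rw [hχ 1] at h1
    linarith
  · -- upper bound
    by_contra hcon
    push Not at hcon
    have hz1 : (R : ℤ) + 1 ≤ B S s p (g ^ 1 • z) z := by rw [pow_one]; linarith
    have hzn : ∀ n : ℕ, 1 ≤ n → (n : ℤ) + R ≤ B S s p (g ^ n • z) z := by
      intro n hn
      have h1 := hlow' z 1 n
      rw [if_neg (by omega), Nat.mul_one] at h1
      have h2 : (n : ℤ) * 1 ≤ n * (B S s p (g ^ 1 • z) z - R) :=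
        mul_le_mul_of_nonneg_left (by linarith) (Nat.cast_nonneg _)
      linarith
    have hw : ∀ (n : ℕ), 1 ≤ n → ∀ w, (n : ℤ) ≤ B S s p (g ^ n • w) w := by
      intro n hn w
      by_contra hcon2
      push Not at hcon2
      set κ := B S s p w z + B S s p z w with hκ
      set j : ℕ := κ.toNat + 1 with hj
      have h1 := hup' w n j
      have h2 := hzn (j * n) (Nat.mul_pos (by omega) hn)
      have h3 := (abs_le.1 (hcomp w (j * n))).1
      have h4 : κ < j := by
        have := Int.self_le_toNat κ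
        rw [hj]
        push_cast
        linarith
      have h5 : (j : ℤ) * B S s p (g ^ n • w) w ≤ j * (n - 1) :=
        mul_le_mul_of_nonneg_left (by linarith) (Nat.cast_nonneg _)
      push_cast at h2
      have h6 : (j : ℤ) * (n - 1) = j * n - j := by ring
      linarith
    have h1 : (1 : ℝ) ≤
        μ.m (fun x => ((B S s p (g ^ (R + 1) • π x) z₀ - B S s p (π x) z₀ : ℤ) : ℝ)) := by
      refine μ.ge (hbd (R + 1)) fun x => ?_
      have h2 := hw (R + 1) (by omega) (π x)
      have h3 := B_tri hA h (π x) (g ^ (R + 1) • π x) z₀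
      have h4 := hR (R + 1) (π x)
      push_cast at h2
      have h5 : (1 : ℤ) ≤ B S s p (g ^ (R + 1) • π x) z₀ - B S s p (π x) z₀ := by linarith
      exact_mod_cast h5
    rw [hχ] at h1
    linarith

end

open Classical in
/-- The main inductive theorem. -/
theorem main_ind (n : ℕ) : ∀ (Γ V X : Type) [Group Γ] [MulAction Γ V] [MulAction Γ X]
    (_ : Mean Γ X) (π : X → V) (_ : ∀ (g : Γ) x, π (g • x) = g • π x) (Q : ℕ) (S : Sp V Q)
    (_ : Acts Γ S) (_ : Cofin Γ V) [Nonempty V]
    (_ : ∀ x, (Finset.univ.filter fun i => S.nb x i ≠ x).card ≤ n),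
    ∃ (H : Subgroup Γ) (k : ℕ) (χ : Γ → Fin k → ℝ) (R : ℕ) (z₀ : V), H.FiniteIndex ∧
      (∀ g ∈ H, ∀ h ∈ H, χ (g * h) = χ g + χ h) ∧
      (∀ g ∈ H, ∀ i, |χ g i| ≤ S.d z₀ (g • z₀)) ∧
      (∀ g ∈ H, χ g = 0 → ∀ z, S.d z (g • z) ≤ R) := by
  classical
  induction n with
  | zero =>
    intro Γ V X _ _ _ μ π hπ Q S hA hF _ hn
    by_cases hV : Finite V
    · obtain ⟨R, hR⟩ := (Set.finite_range fun q : V × V => S.d q.1 q.2).bddAbove
      exact ⟨⊤, 0, fun _ => 0, R, Classical.arbitrary V, inferInstance, fun _ _ _ _ => by simp,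
        fun _ _ i => i.elim0, fun g _ _ z => hR ⟨(z, g • z), rfl⟩⟩
    · exfalso
      have hV' : Infinite V := not_finite_iff_infinite.1 hV
      obtain ⟨s, p, h, C, hp, -⟩ := exists_lines hA hF hV'
      obtain ⟨i, hi, -⟩ := line_nb hA hp h (Classical.arbitrary V)
      have h1 := hn (Classical.arbitrary V)
      have h2 : i ∈ Finset.univ.filter fun i => S.nb (Classical.arbitrary V) i ≠
          Classical.arbitrary V := by
        rw [Finset.mem_filter]
        exact ⟨Finset.mem_univ _, hi⟩
      have := Finset.card_pos.2 ⟨i, h2⟩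
      omega
  | succ n ih =>
    intro Γ V X _ _ _ μ π hπ Q S hA hF _ hn
    by_cases hV : Finite V
    · obtain ⟨R, hR⟩ := (Set.finite_range fun q : V × V => S.d q.1 q.2).bddAbove
      exact ⟨⊤, 0, fun _ => 0, R, Classical.arbitrary V, inferInstance, fun _ _ _ _ => by simp,
        fun _ _ i => i.elim0, fun g _ _ z => hR ⟨(z, g • z), rfl⟩⟩
    have hV' : Infinite V := not_finite_iff_infinite.1 hV
    obtain ⟨s, p, h, C, hp, hC⟩ := exists_lines hA hF hV'
    have hfi : (stab S s p).FiniteIndex := stab_finiteIndex hA h (Classical.arbitrary V)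
    set H₁ := stab S s p with hH₁
    set r := lineSetoid hA h with hr
    have hcomp : Compat S r := line_compat hA h
    have hst := stab_line hA h
    let _act : MulAction H₁ (Quotient r) := quoAct H₁ hst
    have hne : Nonempty (Quotient r) := ⟨Quotient.mk r (Classical.arbitrary V)⟩
    obtain ⟨H', k, χ', R', α₀, hfi', hadd', hbd', hker'⟩ := ih H₁ (Quotient r) X (μ.sub H₁)
      (fun x => Quotient.mk r (π x)) (fun g x => by
        change Quotient.mk r (π ((g : Γ) • x)) = Quotient.mk r ((g : Γ) • π x)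
        rw [hπ]) Q (quo S r hcomp) (quoAct_acts hA hcomp H₁ hst) (quoAct_cofin hF H₁ hst) (by
        intro α
        obtain ⟨i₀, h1, h2⟩ := line_nb hA hp h α.out
        have h3 := hn α.out
        have h4 : (Finset.univ.filter fun i => (quo S r hcomp).nb α i ≠ α) ⊆
            (Finset.univ.filter fun i => S.nb α.out i ≠ α.out).erase i₀ := by
          intro i hi
          rw [Finset.mem_filter] at hi
          rw [Finset.mem_erase, Finset.mem_filter]
          refine ⟨fun heq => hi.2 ?_, Finset.mem_univ _, fun heq => hi.2 ?_⟩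
          · change Quotient.mk r (S.nb α.out i) = α
            rw [heq, Quotient.sound h2, Quotient.out_eq]
          · change Quotient.mk r (S.nb α.out i) = α
            rw [heq, Quotient.out_eq]
        have h5 := Finset.card_le_card h4
        rw [Finset.card_erase_of_mem (by
          rw [Finset.mem_filter]
          exact ⟨Finset.mem_univ _, h1⟩)] at h5
        have h6 : (Finset.univ.filter fun i => (quo S r hcomp).nb α i ≠ α).card ≤ n := by
          omega
        convert h6)
    -- the new homomorphism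
    set z₀ := α₀.out with hz₀
    have hz₀' : Quotient.mk r z₀ = α₀ := Quotient.out_eq α₀
    let φ : Γ → X → ℝ := fun g x => ((B S s p (g • π x) z₀ - B S s p (π x) z₀ : ℤ) : ℝ)
    have hφ : ∀ g ∈ H₁, ∀ x, |φ g x| ≤ S.d z₀ (g • z₀) := by
      intro g hg x
      simp only [φ]
      rw [← Int.cast_abs]
      exact_mod_cast phi_bound hA h hg (π x) z₀
    have hφb : ∀ g ∈ H₁, Bdd (φ g) := fun g hg => ⟨_, hφ g hg⟩
    have hφadd : ∀ g ∈ H₁, ∀ g' ∈ H₁, μ.m (φ (g * g')) = μ.m (φ g) + μ.m (φ g') := by
      intro g hg g' hg'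
      have e : φ (g * g') = fun x => φ g (g' • x) + φ g' x := by
        funext x
        simp only [φ]
        rw [hπ, mul_smul]
        push_cast
        ring
      rw [e, μ.add _ _ ⟨_, fun x => hφ g hg (g' • x)⟩ (hφb g' hg'), μ.inv g' (φ g) (hφb g hg)]
    let χ : Γ → Fin (k + 1) → ℝ := fun g => Fin.cons (μ.m (φ g))
      (if hg : g ∈ H₁ then χ' ⟨g, hg⟩ else 0)
    have hmem : ∀ g, g ∈ H'.map H₁.subtype → ∃ hg : g ∈ H₁, (⟨g, hg⟩ : H₁) ∈ H' := by
      intro g hg
      obtain ⟨g', hg', rfl⟩ := Subgroup.mem_map.1 hg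
      exact ⟨g'.2, hg'⟩
    refine ⟨H'.map H₁.subtype, k + 1, χ, R' + C * (R' + 2 * (2 * R') + 1), z₀, ?_, ?_, ?_, ?_⟩
    · constructor
      rw [Subgroup.index_map_subtype]
      exact mul_ne_zero hfi'.index_ne_zero hfi.index_ne_zero
    · intro g hg g' hg'
      obtain ⟨h1, h2⟩ := hmem g hg
      obtain ⟨h1', h2'⟩ := hmem g' hg'
      have h3 : g * g' ∈ H₁ := mul_mem h1 h1'
      funext i
      refine Fin.cases ?_ (fun i => ?_) i
      · simp only [χ, Fin.cons_zero, Pi.add_apply]
        exact hφadd g h1 g' h1'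
      · simp only [χ, Fin.cons_succ, Pi.add_apply]
        rw [dif_pos h1, dif_pos h1', dif_pos h3]
        exact congrFun (hadd' ⟨g, h1⟩ h2 ⟨g', h1'⟩ h2') i
    · intro g hg i
      obtain ⟨h1, h2⟩ := hmem g hg
      refine Fin.cases ?_ (fun i => ?_) i
      · simp only [χ, Fin.cons_zero]
        rw [abs_le]
        exact ⟨μ.ge (hφb g h1) fun x => (abs_le.1 (hφ g h1 x)).1,
          μ.le (hφb g h1) fun x => (abs_le.1 (hφ g h1 x)).2⟩
      · simp only [χ, Fin.cons_succ]
        rw [dif_pos h1]
        refine (hbd' ⟨g, h1⟩ h2 i).trans ?_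
        have h3 : (quo S r hcomp).d α₀ ((⟨g, h1⟩ : H₁) • α₀) ≤ S.d z₀ (g • z₀) := by
          rw [← hz₀']
          exact proj_le S r z₀ (g • z₀)
        exact_mod_cast h3
    · intro g hg hχ z
      obtain ⟨h1, h2⟩ := hmem g hg
      have hχ0 : μ.m (φ g) = 0 := by
        have := congrFun hχ 0
        simpa only [χ, Fin.cons_zero, Pi.zero_apply] using this
      have hχ1 : χ' ⟨g, h1⟩ = 0 := by
        funext i
        have := congrFun hχ i.succ
        simp only [χ, Fin.cons_succ, Pi.zero_apply] at this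
        rw [dif_pos h1] at this
        exact this
      -- powers
      have hpow : ∀ j : ℕ, χ' (⟨g, h1⟩ ^ j) = 0 ∧ (⟨g, h1⟩ : H₁) ^ j ∈ H' := by
        intro j
        induction j with
        | zero =>
          refine ⟨?_, by rw [pow_zero]; exact one_mem _⟩
          have := hadd' 1 (one_mem _) 1 (one_mem _)
          rw [mul_one] at this
          rw [pow_zero]
          exact left_eq_add.1 this
        | succ j ihj =>
          refine ⟨?_, pow_mem h2 _⟩
          rw [pow_succ, hadd' _ ihj.2 _ h2, ihj.1, hχ1, add_zero]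
      have hpow' : ∀ j : ℕ, μ.m (φ (g ^ j)) = 0 := by
        intro j
        induction j with
        | zero =>
          have := hφadd 1 (one_mem _) 1 (one_mem _)
          rw [mul_one] at this
          rw [pow_zero]
          exact left_eq_add.1 this
        | succ j ihj =>
          rw [pow_succ, hφadd _ (pow_mem h1 _) _ h1, ihj, hχ0, add_zero]
      have hR1 : ∀ (j : ℕ) w, B S s p (g ^ j • w) w + B S s p w (g ^ j • w) ≤
          ((2 * R' : ℕ) : ℤ) := by
        intro j w
        have a1 := Bt_le hA h (g ^ j • w) w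
        have a2 := hker' _ (hpow j).2 (hpow j).1 (Quotient.mk r w)
        have a3 : ((⟨g, h1⟩ : H₁) ^ j) • Quotient.mk r w = Quotient.mk r (g ^ j • w) := by
          change Quotient.mk r ((((⟨g, h1⟩ : H₁) ^ j : H₁) : Γ) • w) = _
          rw [SubmonoidClass.coe_pow]
        rw [a3, (quo S r hcomp).symm] at a2
        have a4 : ((quo S r hcomp).d (Quotient.mk r (g ^ j • w)) (Quotient.mk r w) : ℤ) ≤ R' := by
          exact_mod_cast a2
        push_cast
        exact a1.trans (mul_le_mul_of_nonneg_left a4 (by norm_num))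
      have hmain := height_bound μ (π := π) hA h h1 z₀ hR1 hpow' z
      -- conclusion
      have b1 := hker' _ h2 hχ1 (Quotient.mk r z)
      have b2 : (⟨g, h1⟩ : H₁) • Quotient.mk r z = Quotient.mk r (g • z) := rfl
      rw [b2] at b1
      obtain ⟨y, hy, hy'⟩ := exists_lift hcomp z (Quotient.mk r (g • z)) _ rfl
      have b3 : B S s p y (g • z) + B S s p (g • z) y = 0 := Quotient.exact hy
      have b4 := hC y (g • z) b3
      have b5 : S.d z y ≤ R' := hy'.trans b1
      have b6 : (B S s p y (g • z)).natAbs ≤ R' + 2 * (2 * R') := by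
        have c1 := B_tri hA h y z (g • z)
        have c2 := B_le_d hA h y z
        have c3 := hR1 1 z
        rw [pow_one] at c3
        have c4 := B_tri hA h (g • z) z y
        have c5 := B_le_d hA h z y
        rw [S.symm] at c2
        have c6 : (S.d z y : ℤ) ≤ R' := by exact_mod_cast b5
        rw [abs_le] at hmain
        push_cast at c3 hmain
        omega
      have b7 := S.tri z y (g • z)
      have b8 : C * ((B S s p y (g • z)).natAbs + 1) ≤ C * (R' + 2 * (2 * R') + 1) :=
        Nat.mul_le_mul_left _ (by omega)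
      omega

end Pool.Agent.TH595
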