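import Pool.Agent.TH595.Sp

set_option autoImplicit false

/-!
# Limits of integer valued functions, and functions of maximal drift
-/

namespace Pool.Agent.TH595

open Filter

/-- Compactness: a sequence of pointwise bounded integer valued functions has a limit point. -/
theorem exists_lim {V : Type} (F : ℕ → V → ℤ) (C : V → ℤ) (hC : ∀ n x, |F n x| ≤ C x) :
    ∃ f : V → ℤ, ∀ (A : Finset V) (N : ℕ), ∃ n, N ≤ n ∧ ∀ x ∈ A, F n x = f x := by
  classical
  have h1 : ∀ x, ∃ v, ∀ᶠ n in (hyperfilter ℕ : Filter ℕ), F n x = v := by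
    intro x
    have hfin : (Set.Icc (-C x) (C x)).Finite := Set.finite_Icc _ _
    have hmem : Set.Icc (-C x) (C x) ∈ (hyperfilter ℕ).map fun n => F n x := by
      rw [Ultrafilter.mem_map]
      refine Filter.mem_of_superset Filter.univ_mem fun n _ => ?_
      have := abs_le.1 (hC n x)
      exact this
    obtain ⟨v, -, hv⟩ := Ultrafilter.eq_pure_of_finite_mem hfin hmem
    refine ⟨v, ?_⟩
    have : {v} ∈ (hyperfilter ℕ).map fun n => F n x := by
      rw [hv]
      exact Filter.mem_pure.2 rfl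
    rw [Ultrafilter.mem_map] at this
    exact this
  choose f hf using h1
  refine ⟨f, fun A N => ?_⟩
  have h2 : ∀ᶠ n in (hyperfilter ℕ : Filter ℕ), ∀ x ∈ A, F n x = f x :=
    (Filter.eventually_all_finset A).2 fun x _ => hf x
  have h3 : ∀ᶠ n in (hyperfilter ℕ : Filter ℕ), N ≤ n := by
    have : ∀ᶠ n in (cofinite : Filter ℕ), N ≤ n := by
      rw [Nat.cofinite_eq_atTop]
      exact eventually_ge_atTop N
    exact this.filter_mono hyperfilter_le_cofinite
  obtain ⟨n, hn, hn'⟩ := (h3.and h2).exists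
  exact ⟨n, hn, hn'⟩

variable {V : Type} {Q : ℕ} {S : Sp V Q}

/-- limits of Lipschitz functions which are eventually descending -/
theorem lim_props {F : ℕ → V → ℤ} (hL : ∀ n, Lip S (F n))
    (hd : ∀ x, ∃ N, ∀ n, N ≤ n → ∃ i, F n (S.nb x i) = F n x - 1) {f : V → ℤ}
    (hf : ∀ (A : Finset V) (N : ℕ), ∃ n, N ≤ n ∧ ∀ x ∈ A, F n x = f x) : Lip S f ∧ Dn S f := by
  classical
  constructor
  · intro x y
    obtain ⟨n, -, hn⟩ := hf {x, y} 0
    rw [← hn x (by simp), ← hn y (by simp)]
    exact hL n x y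
  · intro x
    obtain ⟨N, hN⟩ := hd x
    obtain ⟨n, hn, hn'⟩ := hf (insert x (Finset.univ.image (S.nb x))) N
    obtain ⟨i, hi⟩ := hN n hn
    refine ⟨i, ?_⟩
    rw [← hn' x (by simp), ← hn' (S.nb x i) (by simp)]
    exact hi

/-- An infinite space has a Lipschitz function without local minima. -/
theorem exists_horo (hV : Infinite V) : ∃ f : V → ℤ, Lip S f ∧ Dn S f := by
  classical
  obtain ⟨o⟩ : Nonempty V := inferInstance
  have h1 : ∀ n : ℕ, ∃ y, n ≤ S.d o y := by
    intro n
    by_contra hcon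
    push Not at hcon
    have : (Set.univ : Set V).Finite := (finite_ball (S := S) o n).subset fun y _ => (hcon y).le
    exact Set.infinite_univ this
  choose y hy using h1
  obtain ⟨f, hf⟩ := exists_lim (fun n x => (S.d x (y n) : ℤ) - S.d o (y n)) (fun x => S.d o x)
    (by
      intro n x
      have h1 := S.tri x o (y n)
      have h2 := S.tri o x (y n)
      have h3 := S.symm o x
      rw [abs_le]
      constructor <;> omega)
  refine ⟨f, lim_props (F := fun n x => (S.d x (y n) : ℤ) - S.d o (y n))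
    (fun n => (Lip.dist (S := S) (y n)).sub_const _) ?_ hf⟩
  intro x
  refine ⟨S.d o x + 1, fun n hn => ?_⟩
  have h2 := hy n
  have h3 := S.tri o x (y n)
  obtain ⟨i, hi⟩ := S.closer x (y n) (S.d x (y n) - 1) (by omega)
  exact ⟨i, by omega⟩

/-- `c` is the largest drift of a Lipschitz function without local minima. -/
structure IsMax (S : Sp V Q) (c : ℤ) : Prop where
  le : ∀ f, Lip S f → Dn S f → ∀ x, D S f x ≤ c
  ex : ∃ f x, Lip S f ∧ Dn S f ∧ D S f x = c

theorem exists_isMax (hV : Infinite V) : ∃ c, IsMax S c := by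
  obtain ⟨f, hf, hd⟩ := exists_horo (S := S) hV
  obtain ⟨o⟩ : Nonempty V := inferInstance
  obtain ⟨c, ⟨g, x, hg, hg', hc⟩, hmax⟩ := Int.exists_greatest_of_bdd
    (P := fun c => ∃ f x, Lip S f ∧ Dn S f ∧ D S f x = c)
    ⟨Q, fun z ⟨f, x, hf, _, h⟩ => h ▸ D_le hf x⟩ ⟨_, f, o, hf, hd, rfl⟩
  exact ⟨c, fun f hf hd x => hmax _ ⟨f, x, hf, hd, rfl⟩, g, x, hg, hg', hc⟩

/-- far away distance functions have drift at most `c` -/
theorem exists_radius {c : ℤ} (hc : IsMax S c) (x : V) :
    ∃ m : ℕ, ∀ y, m ≤ S.d x y → D S (fun z => (S.d z y : ℤ)) x ≤ c := by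
  classical
  by_contra hcon
  push Not at hcon
  choose y hy hy' using hcon
  obtain ⟨f, hf⟩ := exists_lim (fun n z => (S.d z (y n) : ℤ) - S.d x (y n)) (fun z => S.d x z)
    (by
      intro n z
      have h1 := S.tri z x (y n)
      have h2 := S.tri x z (y n)
      have h3 := S.symm x z
      rw [abs_le]
      constructor <;> omega)
  obtain ⟨h1, h2⟩ := lim_props (F := fun n z => (S.d z (y n) : ℤ) - S.d x (y n))
    (fun n => (Lip.dist (S := S) (y n)).sub_const _) (by
      intro z
      refine ⟨S.d x z + 1, fun n hn => ?_⟩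
      have h2 := hy n
      have h3 := S.tri x z (y n)
      obtain ⟨i, hi⟩ := S.closer z (y n) (S.d z (y n) - 1) (by omega)
      exact ⟨i, by omega⟩) hf
  have h3 := hc.le f h1 h2 x
  obtain ⟨n, -, hn⟩ := hf (insert x (Finset.univ.image (S.nb x))) 0
  have h4 : D S f x = D S (fun z => (S.d z (y n) : ℤ)) x := by
    unfold D
    refine Finset.sum_congr rfl fun i _ => ?_
    rw [← hn x (by simp), ← hn (S.nb x i) (by simp)]
    ring
  have := hy' n
  omega

end Pool.Agent.TH595
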