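import Pool.Agent.TH595.Quo

set_option autoImplicit false

/-!
# The lines of a translation of maximal drift
-/

namespace Pool.Agent.TH595

open Filter

section
variable {Γ : Type} [Group Γ] {V : Type} [MulAction Γ V] {Q : ℕ} {S : Sp V Q}

theorem Bt_nonneg (hA : Acts Γ S) {s : Γ} {p : ℕ} (h : TT S s p) (w z : V) :
    0 ≤ B S s p w z + B S s p z w := by
  have := B_tri hA h w z w
  rwa [B_self hA h] at this

/-- being on the same line -/
def lineSetoid (hA : Acts Γ S) {s : Γ} {p : ℕ} (h : TT S s p) : Setoid V where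
  r w z := B S s p w z + B S s p z w = 0
  iseqv := by
    refine ⟨fun x => ?_, fun {x y} hxy => ?_, fun {x y z} hxy hyz => ?_⟩
    · rw [B_self hA h]
      rfl
    · rw [add_comm]
      exact hxy
    · have h1 := B_tri hA h x y z
      have h2 := B_tri hA h z y x
      have h3 := Bt_nonneg hA h x z
      linarith

theorem line_left (hA : Acts Γ S) {s : Γ} {p : ℕ} (h : TT S s p) {w z : V}
    (hwz : B S s p w z + B S s p z w = 0) (y : V) :
    B S s p y w = B S s p y z + B S s p z w := by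
  have h1 := B_tri hA h y z w
  have h2 := B_tri hA h y w z
  linarith

theorem line_right (hA : Acts Γ S) {s : Γ} {p : ℕ} (h : TT S s p) {w z : V}
    (hwz : B S s p w z + B S s p z w = 0) (y : V) :
    B S s p w y = B S s p w z + B S s p z y := by
  have h1 := B_tri hA h w z y
  have h2 := B_tri hA h z w y
  linarith

theorem line_compat (hA : Acts Γ S) {s : Γ} {p : ℕ} (h : TT S s p) :
    Compat S (lineSetoid hA h) := by
  intro z w hzw
  have hzw' : B S s p z w + B S s p w z = 0 := hzw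
  set f : V → ℤ := fun y => B S s p y z with hf
  have hfL : Lip S f := B_lip hA h z
  have hq : QP s p f := B_qp hA h z
  have hf0 : f z = 0 := B_self hA h z
  obtain ⟨m, ⟨⟨⟨⟨⟨⟨⟨h1, h2⟩, h3⟩, h4⟩, h5⟩, h6⟩, h7⟩, h8⟩⟩ :=
    ((((((((B_spec hA h z w).and (B_spec hA h w z)).and (hq w)).and (hq z)).and
      (eventually_all.2 fun i => hq (S.nb w i))).and
      (eventually_all.2 fun i => hq (S.nb z i))).and
      (eventually_all.2 fun i => ev_B_le_val hA h (S.nb w i))).and
      (eventually_all.2 fun i => ev_B_le_val hA h (S.nb z i))).exists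
  have hT1 : T S f z (s ^ m • w) := by
    unfold T
    rw [h1, h3, hf0]
    simp only [hf]
    linarith
  have hT2 : T S f w (s ^ m • z) := by
    unfold T
    rw [h2, h4, hf0]
    simp only [hf]
    ring
  have hD1 : D S f (s ^ m • w) = D S f w := D_shift hA h3 h5
  have hD2 : D S f (s ^ m • z) = D S f z := D_shift hA h4 h6
  have hD3 := D_mono hfL hT1
  have hD4 := D_mono hfL hT2
  obtain ⟨σ, hσ⟩ := transport hfL hT1 (by omega)
  obtain ⟨σ', hσ'⟩ := transport hfL hT2 (by omega)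
  obtain ⟨τ, hτ⟩ := hA.equi (s ^ m) w
  obtain ⟨τ', hτ'⟩ := hA.equi (s ^ m) z
  let σ₁ : Equiv.Perm (Fin Q) := σ.trans τ
  let σ₂ : Equiv.Perm (Fin Q) := σ'.trans τ'
  have hB1 : ∀ i, B S s p (S.nb z i) (S.nb w (σ₁ i)) ≤ f (S.nb z i) - f (S.nb w (σ₁ i)) := by
    intro i
    have a1 := hσ i
    rw [hτ] at a1
    change T S f (S.nb z i) (s ^ m • S.nb w (σ₁ i)) at a1
    have a2 := h7 (σ₁ i) (S.nb z i)
    unfold T at a1
    rw [a1, h5] at a2
    linarith
  have hB2 : ∀ i, B S s p (S.nb w i) (S.nb z (σ₂ i)) ≤ f (S.nb w i) - f (S.nb z (σ₂ i)) := by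
    intro i
    have a1 := hσ' i
    rw [hτ'] at a1
    change T S f (S.nb w i) (s ^ m • S.nb z (σ₂ i)) at a1
    have a2 := h8 (σ₂ i) (S.nb w i)
    unfold T at a1
    rw [a1, h6] at a2
    linarith
  let π : Equiv.Perm (Fin Q) := σ₁.trans σ₂
  have hB3 : ∀ i, B S s p (S.nb z i) (S.nb z (π i)) ≤ f (S.nb z i) - f (S.nb z (π i)) := by
    intro i
    have a1 := B_tri hA h (S.nb z i) (S.nb w (σ₁ i)) (S.nb z (π i))
    have a2 := hB1 i
    have a3 : B S s p (S.nb w (σ₁ i)) (S.nb z (π i)) ≤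
      f (S.nb w (σ₁ i)) - f (S.nb z (π i)) := hB2 (σ₁ i)
    linarith
  have hiter : ∀ (r : ℕ) i, B S s p (S.nb z i) (S.nb z ((π ^ r) i)) ≤
      f (S.nb z i) - f (S.nb z ((π ^ r) i)) := by
    intro r i
    induction r with
    | zero =>
      simp only [pow_zero, Equiv.Perm.coe_one, id_eq]
      rw [B_self hA h]
      simp
    | succ r ih =>
      have a1 := hB3 ((π ^ r) i)
      have a2 := B_tri hA h (S.nb z i) (S.nb z ((π ^ r) i)) (S.nb z (π ((π ^ r) i)))
      rw [pow_succ' π r, Equiv.Perm.mul_apply]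
      linarith
  obtain ⟨r, hr⟩ : ∃ r, orderOf π = r + 1 := ⟨orderOf π - 1, by have := orderOf_pos π; omega⟩
  refine ⟨σ₁, fun i => ?_⟩
  change B S s p (S.nb z i) (S.nb w (σ₁ i)) + B S s p (S.nb w (σ₁ i)) (S.nb z i) = 0
  refine le_antisymm ?_ (Bt_nonneg hA h _ _)
  have a1 := hB1 i
  have a2 : B S s p (S.nb w (σ₁ i)) (S.nb z (π i)) ≤
    f (S.nb w (σ₁ i)) - f (S.nb z (π i)) := hB2 (σ₁ i)
  have a3 := hiter r (π i)
  have e : (π ^ r) (π i) = i := by
    rw [← Equiv.Perm.mul_apply, ← pow_succ, ← hr, pow_orderOf_eq_one, Equiv.Perm.coe_one, id_eq]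
  rw [e] at a3
  have a4 := B_tri hA h (S.nb w (σ₁ i)) (S.nb z (π i)) (S.nb z i)
  linarith

/-- every point has a neighbour different from it on its line -/
theorem line_nb (hA : Acts Γ S) {s : Γ} {p : ℕ} (hp : 1 ≤ p) (h : TT S s p) (z : V) :
    ∃ i, S.nb z i ≠ z ∧ lineSetoid hA h (S.nb z i) z := by
  obtain ⟨m, ⟨h1, h2⟩, h3⟩ := (((h z).and (ev_B_le_val hA h z)).and (ev_ge 1)).exists
  have h4 : 1 ≤ m * p := Nat.mul_pos h3 hp
  obtain ⟨i, hi⟩ := S.closer z (s ^ m • z) (m * p - 1) (by omega)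
  have h5 := h2 (S.nb z i)
  have h6 : B S s p (S.nb z i) z ≤ -1 := by
    rw [hi] at h5
    have : ((m * p - 1 : ℕ) : ℤ) = (m : ℤ) * p - 1 := by
      rw [Nat.cast_sub h4]
      push_cast
      ring
    linarith
  have h7 := B_le_d hA h z (S.nb z i)
  have h8 := S.nb_le z i
  refine ⟨i, fun heq => ?_, ?_⟩
  · rw [heq, B_self hA h] at h6
    omega
  · change B S s p (S.nb z i) z + B S s p z (S.nb z i) = 0
    have := Bt_nonneg hA h (S.nb z i) z
    omega

theorem stab_line (hA : Acts Γ S) {s : Γ} {p : ℕ} (h : TT S s p) :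
    ∀ g ∈ stab S s p, ∀ x y : V, lineSetoid hA h x y → lineSetoid hA h (g • x) (g • y) := by
  intro g hg x y hxy
  change B S s p (g • x) (g • y) + B S s p (g • y) (g • x) = 0
  rw [hg, hg]
  exact hxy

/-- There is a translation whose lines are quasi-lines. -/
theorem exists_lines (hA : Acts Γ S) (hF : Cofin Γ V) (hV : Infinite V) :
    ∃ (s : Γ) (p : ℕ) (h : TT S s p) (C : ℕ), 1 ≤ p ∧
      ∀ w z, lineSetoid hA h w z → S.d w z ≤ C * ((B S s p w z).natAbs + 1) := by
  obtain ⟨c, hc⟩ := exists_isMax (S := S) hV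
  obtain ⟨m, hm⟩ := exists_radius_unif hA hF hc
  obtain ⟨s, p, x, hp, h, hx, hD, hs⟩ := exists_TT hA hF hc
  have : Nonempty V := ⟨x⟩
  -- the line of `x`
  have hsn : ∀ (n : ℕ) w, B S s p (s ^ n • w) x = B S s p w x - n * p := by
    intro n w
    induction n with
    | zero => simp
    | succ n ih =>
      rw [pow_succ', mul_smul, hs, ih]
      push_cast
      ring
  have hline : ∀ w, lineSetoid hA h w x →
      (S.d w x : ℤ) ≤ (2 * p + 1) * |B S s p w x| + 2 * m * p := by
    intro w hw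
    have hw' : B S s p w x + B S s p x w = 0 := hw
    set t := B S s p w x with ht
    set r : ℕ := m + t.natAbs with hr
    obtain ⟨n, h1, h2⟩ := ((B_spec hA h x w).and (ev_ge r)).exists
    obtain ⟨j, hj⟩ : ∃ j, n = j + r := ⟨n - r, by omega⟩
    have hT1 : T S (fun w => B S s p w x) x (s ^ n • w) := by
      unfold T
      beta_reduce
      rw [h1, hsn, B_self hA h]
      linarith
    have hT2 : T S (fun w => B S s p w x) x (s ^ j • x) := by
      unfold T
      beta_reduce
      rw [hx, hsn, B_self hA h]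
      push_cast
      ring
    have hnat : (t.natAbs : ℤ) = |t| := Int.natCast_natAbs t
    have hrp : (r : ℤ) ≤ r * p := by
      have : r * 1 ≤ r * p := Nat.mul_le_mul le_rfl hp
      exact_mod_cast (by simpa using this : r ≤ r * p)
    have hrr : (r : ℤ) = m + |t| := by rw [hr]; push_cast; ring
    have hta := le_abs_self t
    have hta' := neg_abs_le t
    have h3 : S.d x (s ^ j • x) + m ≤ S.d x (s ^ n • w) := by
      rw [hx]
      have : ((j * p + m : ℕ) : ℤ) ≤ (S.d x (s ^ n • w) : ℤ) := by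
        rw [h1, hj]
        push_cast
        nlinarith
      exact_mod_cast this
    have h4 := thin hc hm (B_lip hA h x) (B_dn hA hp h x) hD hT2 hT1 h3
    rw [hx] at h4
    have h5 : (S.d (s ^ j • x) (s ^ n • w) : ℤ) = r * p - t := by
      have : (S.d (s ^ j • x) (s ^ n • w) : ℤ) + j * p = S.d x (s ^ n • w) := by
        exact_mod_cast h4
      rw [h1, hj] at this
      push_cast at this
      rw [hj]
      linarith
    have h6 : S.d w x ≤ S.d (s ^ n • w) (s ^ j • x) + S.d (s ^ j • x) (s ^ n • x) := by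
      rw [← hA.isom (s ^ n) w x]
      exact S.tri _ _ _
    have h7 : S.d (s ^ j • x) (s ^ n • x) = r * p := by
      rw [hj, isom_pow hA, hx]
    rw [h7, S.symm (s ^ n • w)] at h6
    have h8 : (S.d w x : ℤ) ≤ S.d (s ^ j • x) (s ^ n • w) + r * p := by exact_mod_cast h6
    rw [h5, hrr] at h8
    nlinarith [mul_nonneg (abs_nonneg t) (Nat.cast_nonneg (α := ℤ) p)]
  -- translates of `x` are everywhere
  have hfi : (stab S s p).FiniteIndex := stab_finiteIndex hA h x
  obtain ⟨F, hF'⟩ := hF.sub (stab S s p)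
  set R : ℕ := ∑ y ∈ F, S.d y x with hR
  have hclose : ∀ z, ∃ g ∈ stab S s p, S.d z (g • x) ≤ R := by
    intro z
    obtain ⟨g, hg⟩ := hF' z
    refine ⟨(g : Γ)⁻¹, inv_mem g.2, ?_⟩
    have h1 : S.d z ((g : Γ)⁻¹ • x) = S.d ((g : Γ) • z) x := by
      rw [← hA.isom (g : Γ), smul_inv_smul]
    rw [h1]
    exact Finset.single_le_sum (f := fun y => S.d y x) (fun _ _ => Nat.zero_le _) hg
  have hcomp := line_compat hA h
  refine ⟨s, p, h, 2 * R + ((2 * p + 1) * (2 * R + 1) + 2 * m * p), hp, fun w z hwz => ?_⟩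
  have hwz' : B S s p w z + B S s p z w = 0 := hwz
  obtain ⟨g, hg, hgz⟩ := hclose z
  obtain ⟨n, hn⟩ : ∃ n, (qG S (lineSetoid hA h)).dist (Quotient.mk _ w)
      (Quotient.mk _ (g • x)) = n := ⟨_, rfl⟩
  have hnR : n ≤ R := by
    rw [← hn, Quotient.sound hwz]
    exact (proj_le S _ _ _).trans hgz
  obtain ⟨y, hy, hy'⟩ := exists_lift hcomp w _ n hn
  have hyx : lineSetoid hA h y (g • x) := Quotient.exact hy
  have hyx' : lineSetoid hA h (g⁻¹ • y) x := by
    have := stab_line hA h g⁻¹ (inv_mem hg) y (g • x) hyx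
    rwa [inv_smul_smul] at this
  have h1 := hline _ hyx'
  have h2 : S.d (g⁻¹ • y) x = S.d y (g • x) := by
    rw [← hA.isom g, smul_inv_smul]
  have h3 : B S s p (g⁻¹ • y) x = B S s p y (g • x) := by
    have := hg (g⁻¹ • y) x
    rw [smul_inv_smul] at this
    exact this.symm
  rw [h2, h3] at h1
  -- compare the heights
  have h4 : |B S s p y (g • x)| ≤ |B S s p w z| + 2 * R := by
    have a1 := B_tri hA h y w (g • x)
    have a2 := B_tri hA h w z (g • x)
    have a3 := B_le_d hA h y w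
    have a4 := B_le_d hA h z (g • x)
    have a5 : B S s p y (g • x) + B S s p (g • x) y = 0 := hyx
    have a6 := B_tri hA h (g • x) z y
    have a7 := B_tri hA h z w y
    have a8 := B_le_d hA h (g • x) z
    have a9 := B_le_d hA h w y
    have b1 : (S.d y w : ℤ) ≤ R := by
      rw [S.symm]
      exact_mod_cast hy'.trans hnR
    have b2 : (S.d z (g • x) : ℤ) ≤ R := by exact_mod_cast hgz
    have b3 : (S.d (g • x) z : ℤ) ≤ R := by rw [S.symm]; exact b2
    have b4 : (S.d w y : ℤ) ≤ R := by exact_mod_cast hy'.trans hnR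
    have b5 := le_abs_self (B S s p w z)
    have b6 := neg_abs_le (B S s p w z)
    rw [abs_le]
    constructor <;> linarith
  have h5 : (S.d w z : ℤ) ≤ S.d w y + S.d y (g • x) + S.d (g • x) z := by
    have a1 := S.tri w y z
    have a2 := S.tri y (g • x) z
    omega
  have h6 : (S.d w y : ℤ) ≤ R := by exact_mod_cast hy'.trans hnR
  have h7 : (S.d (g • x) z : ℤ) ≤ R := by
    rw [S.symm]
    exact_mod_cast hgz
  have h8 : (S.d w z : ℤ) ≤ ((2 * R + ((2 * p + 1) * (2 * R + 1) + 2 * m * p) : ℕ) : ℤ) *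
      (|B S s p w z| + 1) := by
    push_cast
    have h9 : (2 * (p : ℤ) + 1) * |B S s p y (g • x)| ≤
        (2 * p + 1) * (|B S s p w z| + 2 * R) :=
      mul_le_mul_of_nonneg_left h4 (by positivity)
    nlinarith [mul_nonneg (abs_nonneg (B S s p w z)) (Nat.cast_nonneg (α := ℤ) R),
      mul_nonneg (abs_nonneg (B S s p w z)) (Nat.cast_nonneg (α := ℤ) (p * R)),
      mul_nonneg (abs_nonneg (B S s p w z)) (Nat.cast_nonneg (α := ℤ) (m * p)),
      mul_nonneg (abs_nonneg (B S s p w z)) (Nat.cast_nonneg (α := ℤ) p),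
      abs_nonneg (B S s p w z), Nat.cast_nonneg (α := ℤ) (p * R),
      Nat.cast_nonneg (α := ℤ) (m * p), Nat.cast_nonneg (α := ℤ) p]
  rw [← Int.natCast_natAbs] at h8
  exact_mod_cast h8

end

end Pool.Agent.TH595
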