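import Pool.Agent.TH595.Bus

set_option autoImplicit false

/-!
# Translations move every point along a geodesic; parallel sections
-/

namespace Pool.Agent.TH595

open Filter

theorem mulF_le : mulF ≤ atTop := by
  intro s hs
  obtain ⟨N, hN⟩ := mem_atTop_sets.1 hs
  exact (ev_ge N).mono fun n hn => hN n hn

/-- a nonincreasing sequence of integers which is bounded below is eventually constant -/
theorem ev_const (a : ℕ → ℤ) (h : ∀ n, a (n + 1) ≤ a n) (b : ℤ) (hb : ∀ n, b ≤ a n) :
    ∃ v, ∀ᶠ n in atTop, a n = v := by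
  obtain ⟨v, ⟨j, hj⟩, hmin⟩ := Int.exists_least_of_bdd (P := fun v => ∃ j, a j = v)
    ⟨b, fun z ⟨j, hj⟩ => hj ▸ hb j⟩ ⟨a 0, 0, rfl⟩
  refine ⟨v, eventually_atTop.2 ⟨j, fun n hn => ?_⟩⟩
  refine le_antisymm ?_ (hmin _ ⟨n, rfl⟩)
  have := antitone_nat_of_succ_le h hn
  rw [hj] at this
  exact this

section
variable {Γ : Type} [Group Γ] {V : Type} [MulAction Γ V] {Q : ℕ} {S : Sp V Q}

theorem good_of_T (hA : Acts Γ S) {s : Γ} {p : ℕ} {b : V → ℤ} (hb : Lip S b)
    (hs : ∀ w, b (s • w) = b w - p) {u : V} {m : ℕ} (hm : 1 ≤ m) (hT : T S b u (s ^ m • u)) :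
    ∀ᶠ n in mulF, S.d u (s ^ n • u) = n * p := by
  have hsn : ∀ (n : ℕ) w, b (s ^ n • w) = b w - n * p := by
    intro n w
    induction n with
    | zero => simp
    | succ n ih =>
      rw [pow_succ', mul_smul, hs, ih]
      push_cast
      ring
  have hdm : S.d u (s ^ m • u) = m * p := by
    unfold T at hT
    rw [hsn] at hT
    have : (S.d u (s ^ m • u) : ℤ) = (m : ℤ) * p := by linarith
    exact_mod_cast this
  refine ev_mulF.2 ⟨m, hm, fun n _ hdvd => ?_⟩
  obtain ⟨k, rfl⟩ := hdvd
  have hle : ∀ k, S.d u (s ^ (m * k) • u) ≤ m * k * p := by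
    intro k
    induction k with
    | zero => simp [S.d_self]
    | succ k ih =>
      have h1 := S.tri u (s ^ (m * k) • u) (s ^ (m * k + m) • u)
      rw [isom_pow hA, hdm] at h1
      have e : m * (k + 1) = m * k + m := by ring
      rw [e]
      have : (m * k + m) * p = m * k * p + m * p := by ring
      omega
  have h2 := hb u (s ^ (m * k) • u)
  rw [hsn] at h2
  have h3 : ((m * k * p : ℕ) : ℤ) ≤ S.d u (s ^ (m * k) • u) := by
    push_cast at h2 ⊢
    linarith
  have h4 : m * k * p ≤ S.d u (s ^ (m * k) • u) := by exact_mod_cast h3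
  exact le_antisymm (hle k) h4

/-- There is a translation of maximal drift which moves every point along a geodesic. -/
theorem exists_TT (hA : Acts Γ S) (hF : Cofin Γ V) {c : ℤ} (hc : IsMax S c) :
    ∃ (s : Γ) (p : ℕ) (x : V), 1 ≤ p ∧ TT S s p ∧ (∀ n : ℕ, S.d x (s ^ n • x) = n * p) ∧
      D S (fun w => B S s p w x) x = c ∧ ∀ w, B S s p (s • w) x = B S s p w x - p := by
  obtain ⟨s, p, x, f, hp, hx, hf, hd, hD, hfs⟩ := exists_translation hA hF hc
  have h1 : ∀ w, ∃ v : ℤ, ∀ᶠ n : ℕ in atTop, (S.d w (s ^ n • x) : ℤ) - (n : ℤ) * p = v := by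
    intro w
    refine ev_const _ (fun n => ?_) (- (S.d w x : ℤ)) (fun n => ?_)
    · have a1 := S.tri w (s ^ n • x) (s ^ (n + 1) • x)
      rw [isom_pow hA, hx 1, one_mul] at a1
      push_cast
      have a2 : (S.d w (s ^ (n + 1) • x) : ℤ) ≤ S.d w (s ^ n • x) + p := by exact_mod_cast a1
      linarith
    · have a1 := S.tri x w (s ^ n • x)
      rw [hx, S.symm x w] at a1
      have a2 : (n : ℤ) * p ≤ S.d w x + S.d w (s ^ n • x) := by exact_mod_cast a1
      linarith
  choose b hb using h1
  have hbL : Lip S b := by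
    intro w y
    obtain ⟨n, h2, h3⟩ := ((hb w).and (hb y)).exists
    have := S.tri w y (s ^ n • x)
    omega
  have hbD : Dn S b := by
    intro w
    have h2 : ∀ᶠ n : ℕ in atTop, ∀ i, (S.d (S.nb w i) (s ^ n • x) : ℤ) - (n : ℤ) * p =
        b (S.nb w i) := eventually_all.2 fun i => hb (S.nb w i)
    obtain ⟨n, ⟨h3, h4⟩, h5⟩ := ((h2.and (hb w)).and
      (eventually_ge_atTop ((1 - b w).toNat))).exists
    have h6 : (n : ℤ) ≤ n * p := by
      have : n * 1 ≤ n * p := Nat.mul_le_mul le_rfl hp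
      exact_mod_cast (by simpa using this : n ≤ n * p)
    have h7 : 1 ≤ S.d w (s ^ n • x) := by
      have h7 := Int.self_le_toNat (1 - b w)
      have h8 : ((1 - b w).toNat : ℤ) ≤ n := by exact_mod_cast h5
      have : (1 : ℤ) ≤ S.d w (s ^ n • x) := by linarith
      exact_mod_cast this
    obtain ⟨i, hi⟩ := S.closer w (s ^ n • x) (S.d w (s ^ n • x) - 1) (by omega)
    refine ⟨i, ?_⟩
    have h9 := h3 i
    omega
  have hbs : ∀ w, b (s • w) = b w - p := by
    intro w
    obtain ⟨n, h2, h3⟩ := ((hb w).and ((tendsto_add_atTop_nat 1).eventually (hb (s • w)))).exists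
    rw [pow_succ', mul_smul, hA.isom] at h3
    push_cast at h3
    linarith
  have hbx : b x = 0 := by
    obtain ⟨n, h2⟩ := (hb x).exists
    rw [hx] at h2
    push_cast at h2
    linarith
  have hbf : ∀ w, f w - f x ≤ b w := by
    intro w
    obtain ⟨n, h2⟩ := (hb w).exists
    have := hf w (s ^ n • x)
    rw [hfs] at this
    linarith
  have hDb : D S b x = c := by
    refine le_antisymm (hc.le b hbL hbD x) ?_
    rw [← hD]
    unfold D
    refine Finset.sum_le_sum fun i _ => ?_
    have := hbf (S.nb x i)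
    rw [hbx]
    linarith
  have hbsn : ∀ (n : ℕ) w, b (s ^ n • w) = b w - n * p := by
    intro n w
    induction n with
    | zero => simp
    | succ n ih =>
      rw [pow_succ', mul_smul, hbs, ih]
      push_cast
      ring
  have hshift : ∀ (n : ℕ) {u v : V}, T S b u v → T S b (s ^ n • u) (s ^ n • v) := by
    intro n u v h
    unfold T at h ⊢
    rw [hA.isom, h, hbsn, hbsn]
    ring
  have hgood : ∀ z, (∀ᶠ n in mulF, S.d z (s ^ n • z) = n * p) →
      ∀ i, ∀ᶠ n in mulF, S.d (S.nb z i) (s ^ n • S.nb z i) = n * p := by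
    intro z hz i
    obtain ⟨M, hM, hM1⟩ := (hz.and (ev_ge 1)).exists
    have hT : T S b z (s ^ M • z) := by
      unfold T
      rw [hbsn, hM]
      push_cast
      ring
    have hDM : D S b z = D S b (s ^ M • z) :=
      (D_shift hA (hbsn M z) fun i => hbsn M (S.nb z i)).symm
    obtain ⟨σ, hσ⟩ := transport hbL hT hDM
    obtain ⟨τ, hτ⟩ := hA.equi (s ^ M) z
    let π : Equiv.Perm (Fin Q) := σ.trans τ
    have hπ : ∀ j, T S b (S.nb z j) (s ^ M • S.nb z (π j)) := by
      intro j
      have := hσ j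
      rw [hτ] at this
      exact this
    have hiter : ∀ r : ℕ, T S b (S.nb z i) (s ^ (r * M) • S.nb z ((π ^ r) i)) := by
      intro r
      induction r with
      | zero =>
        simp only [Nat.zero_mul, pow_zero, one_smul, Equiv.Perm.coe_one, id_eq]
        exact T.refl b _
      | succ r ih =>
        refine ih.trans hbL ?_
        have := hshift (r * M) (hπ ((π ^ r) i))
        rw [← mul_smul, ← pow_add] at this
        have e : (r + 1) * M = r * M + M := by ring
        rw [e, pow_succ' π r]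
        exact this
    have h3 := hiter (orderOf π)
    rw [pow_orderOf_eq_one, Equiv.Perm.coe_one, id_eq] at h3
    exact good_of_T hA hbL hbs (Nat.mul_pos (orderOf_pos π) hM1) h3
  have hTT : TT S s p := by
    have key : ∀ (m : ℕ) (y z : V), S.d y z = m → (∀ᶠ n in mulF, S.d y (s ^ n • y) = n * p) →
        ∀ᶠ n in mulF, S.d z (s ^ n • z) = n * p := by
      intro m
      induction m with
      | zero =>
        intro y z hyz hy
        rwa [← S.eq_of_d y z hyz]
      | succ m ih =>
        intro y z hyz hy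
        obtain ⟨i, hi⟩ := S.closer y z m hyz
        exact ih _ z hi (hgood y hy i)
    exact fun z => key _ x z rfl (ev_mulF.2 ⟨1, le_rfl, fun n _ _ => hx n⟩)
  have hB : ∀ w, B S s p w x = b w := by
    intro w
    refine B_eq hA hTT ?_
    refine ((hb w).filter_mono mulF_le).mono fun n hn => ?_
    linarith
  refine ⟨s, p, x, hp, hTT, hx, ?_, fun w => ?_⟩
  · rw [← hDb]
    exact D_congr S (hB x) fun i => hB _
  · rw [hB, hB, hbs]

/-- one half of the parallelism lemma -/
theorem sect_step_le (hA : Acts Γ S) {s s' : Γ} {p p' : ℕ} (h : TT S s p) (h' : TT S s' p')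
    {z : V} (hz : ∀ w, B S s p w z = B S s' p' w z) (k₀ : Fin Q) (w : V) :
    B S s p w (S.nb z k₀) ≤ B S s' p' w (S.nb z k₀) := by
  set f : V → ℤ := fun w => B S s p w z with hf
  have hfL : Lip S f := B_lip hA h z
  have hq : QP s p f := B_qp hA h z
  have hq' : QP s' p' f := by
    have e : f = fun w => B S s' p' w z := funext hz
    rw [e]
    exact B_qp hA h' z
  have hf0 : f z = 0 := B_self hA h z
  -- the index for `s'`
  obtain ⟨N, ⟨⟨⟨hNa, hNb⟩, hNc⟩, hNd⟩⟩ :=
    ((((eventually_all.2 fun k => hq' (S.nb z k)).and (hq' z)).and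
      (eventually_all.2 fun k => h' (S.nb z k))).and (B_spec hA h' w (S.nb z k₀))).exists
  -- the index for `s`
  obtain ⟨m, ⟨⟨⟨hma, hmb⟩, hmc⟩, hmd⟩, hm1⟩ :=
    (((((eventually_all.2 fun k => ev_all (hq (S.nb z k))).and (hq z)).and
      (B_spec hA h (s' ^ N • z) z)).and (ev_all (ev_B_le_val hA h (S.nb z k₀)))).and
        (ev_ge 1)).exists
  have hT1 : T S f (s' ^ N • z) (s ^ m • z) := by
    unfold T
    rw [hmc, hmb, hf0]
    simp only [hf]
    ring
  have hD1 : D S f (s' ^ N • z) = D S f z := D_shift hA hNb hNa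
  have hD2 : D S f (s ^ m • z) = D S f z :=
    D_shift hA hmb fun k => by simpa using hma k 1 le_rfl
  obtain ⟨σ, hσ⟩ := transport hfL hT1 (hD1.trans hD2.symm)
  obtain ⟨τ₁, hτ₁⟩ := hA.equi (s' ^ N) z
  obtain ⟨τ₂, hτ₂⟩ := hA.equi (s ^ m) z
  let π : Equiv.Perm (Fin Q) := τ₁.symm.trans (σ.trans τ₂)
  have hπ : ∀ k, T S f (s' ^ N • S.nb z k) (s ^ m • S.nb z (π k)) := by
    intro k
    have := hσ (τ₁.symm k)
    rw [hτ₁, hτ₂, Equiv.apply_symm_apply] at this
    exact this
  have hR : ∀ k, T S f (S.nb z k) (s ^ m • S.nb z (π k)) := by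
    intro k
    refine T.trans hfL ?_ (hπ k)
    unfold T
    rw [hNa, hNc]
    push_cast
    ring
  have hshift : ∀ j : ℕ, 1 ≤ j → ∀ k,
      T S f (s ^ (j * m) • S.nb z k) (s ^ ((j + 1) * m) • S.nb z (π k)) := by
    intro j hj k
    have a1 := hR k
    have a2 := hma k j hj
    have a3 := hma (π k) (j + 1) (by omega)
    have a4 := hma (π k) 1 le_rfl
    rw [one_mul] at a4
    unfold T at a1 ⊢
    have e : S.d (s ^ (j * m) • S.nb z k) (s ^ ((j + 1) * m) • S.nb z (π k)) =
        S.d (S.nb z k) (s ^ m • S.nb z (π k)) := by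
      have : (j + 1) * m = j * m + m := by ring
      rw [this, pow_add, mul_smul, hA.isom]
    rw [e, a1, a2, a3, a4]
    push_cast
    ring
  have hiter : ∀ (r : ℕ) k,
      T S f (s ^ m • S.nb z k) (s ^ ((r + 1) * m) • S.nb z ((π ^ r) k)) := by
    intro r k
    induction r with
    | zero =>
      simp only [Nat.zero_add, one_mul, pow_zero, Equiv.Perm.coe_one, id_eq]
      exact T.refl f _
    | succ r ih =>
      refine ih.trans hfL ?_
      have := hshift (r + 1) (by omega) ((π ^ r) k)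
      rw [pow_succ' π r]
      exact this
  -- close the loop
  obtain ⟨r, hr⟩ : ∃ r, orderOf π = r + 1 := ⟨orderOf π - 1, by have := orderOf_pos π; omega⟩
  have hloop : T S f (s' ^ N • S.nb z k₀) (s ^ ((r + 1) * m) • S.nb z k₀) := by
    refine (hπ k₀).trans hfL ?_
    have := hiter r (π k₀)
    have e : (π ^ r) (π k₀) = k₀ := by
      rw [← Equiv.Perm.mul_apply, ← pow_succ, ← hr, pow_orderOf_eq_one, Equiv.Perm.coe_one, id_eq]
    rwa [e] at this
  have h1 := hmd (r + 1) (by omega) (s' ^ N • S.nb z k₀)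
  unfold T at hloop
  rw [hNa, hma k₀ (r + 1) (by omega)] at hloop
  have h2 := B_tri hA h w (s' ^ N • S.nb z k₀) (S.nb z k₀)
  have h3 := B_le_d hA h w (s' ^ N • S.nb z k₀)
  rw [hNd] at h3
  linarith

/-- The parallelism lemma: if two translations have the same Busemann function at `z`, they have
the same one at every point. -/
theorem sect_all (hA : Acts Γ S) {s s' : Γ} {p p' : ℕ} (h : TT S s p) (h' : TT S s' p')
    {z : V} (hz : ∀ w, B S s p w z = B S s' p' w z) (w y : V) :
    B S s p w y = B S s' p' w y := by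
  have key : ∀ (m : ℕ) (y z : V), S.d z y = m → (∀ w, B S s p w z = B S s' p' w z) →
      ∀ w, B S s p w y = B S s' p' w y := by
    intro m
    induction m with
    | zero =>
      intro y z hyz hz
      rwa [← S.eq_of_d z y hyz]
    | succ m ih =>
      intro y z hyz hz
      obtain ⟨i, hi⟩ := S.closer z y m hyz
      exact ih y _ hi fun w => le_antisymm (sect_step_le hA h h' hz i w)
        (sect_step_le hA h' h (fun w => (hz w).symm) i w)
  exact key _ y z rfl hz w

theorem sect_jet_le (hA : Acts Γ S) {s s' : Γ} {p p' : ℕ} (h : TT S s p) (h' : TT S s' p')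
    {o : V} (hJ : ∀ i, B S s p (S.nb o i) o = B S s' p' (S.nb o i) o) (w : V) :
    B S s' p' w o ≤ B S s p w o := by
  set f : V → ℤ := fun w => B S s p w o with hf
  set g : V → ℤ := fun w => B S s' p' w o with hg
  have hfL : Lip S f := B_lip hA h o
  have hgL : Lip S g := B_lip hA h' o
  have hf0 : f o = 0 := B_self hA h o
  have hg0 : g o = 0 := B_self hA h' o
  obtain ⟨n, ⟨⟨h1, h2⟩, h3⟩, h4⟩ := ((((h o).and (B_qp hA h o o)).and
    (D_qp hA (B_qp hA h o) o)).and (B_spec hA h w o)).exists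
  have h2' : f (s ^ n • o) = f o - n * p := h2
  have hT : T S f o (s ^ n • o) := by
    unfold T
    rw [h2', h1]
    push_cast
    ring
  have hc : ∀ y, T S g o y → D S g y = D S g o := by
    intro y hy
    refine le_antisymm ?_ (D_mono hgL hy)
    obtain ⟨m, ⟨a1, a2⟩, a3⟩ := (((B_qp hA h' o o).and (D_qp hA (B_qp hA h' o) o)).and
      (B_spec hA h' y o)).exists
    have a1' : g (s' ^ m • o) = g o - m * p' := a1
    have hT' : T S g y (s' ^ m • o) := by
      unfold T
      rw [a1', a3, hg0]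
      simp only [hg]
      ring
    have := D_mono hgL hT'
    rw [a2] at this
    exact this
  have h5 := (determ hfL hgL hT h3.symm (hg0.trans hf0.symm) (fun i => (hJ i).symm) hc).1
  have h6 := hgL w (s ^ n • o)
  rw [h5, h2', hf0, h4] at h6
  simp only [hf, hg] at *
  linarith

theorem sect_jet (hA : Acts Γ S) {s s' : Γ} {p p' : ℕ} (h : TT S s p) (h' : TT S s' p')
    {o : V} (hJ : ∀ i, B S s p (S.nb o i) o = B S s' p' (S.nb o i) o) (w y : V) :
    B S s p w y = B S s' p' w y :=
  sect_all hA h h' (z := o) (fun w => le_antisymm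
    (sect_jet_le hA h' h (fun i => (hJ i).symm) w) (sect_jet_le hA h h' hJ w)) w y

/-! Conjugation and the stabiliser. -/

theorem conj_pow' (g s : Γ) (n : ℕ) : (g⁻¹ * s * g) ^ n = g⁻¹ * s ^ n * g := by
  induction n with
  | zero => simp
  | succ n ih =>
    rw [pow_succ, ih, pow_succ]
    group

theorem conj_d (hA : Acts Γ S) (g s : Γ) (n : ℕ) (w z : V) :
    S.d w ((g⁻¹ * s * g) ^ n • z) = S.d (g • w) (s ^ n • g • z) := by
  rw [conj_pow', mul_smul, mul_smul, ← hA.isom g, smul_inv_smul]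

theorem TT.conj (hA : Acts Γ S) {s : Γ} {p : ℕ} (h : TT S s p) (g : Γ) :
    TT S (g⁻¹ * s * g) p := by
  intro z
  refine (h (g • z)).mono fun n hn => ?_
  rw [conj_d hA, hn]

theorem B_conj (hA : Acts Γ S) {s : Γ} {p : ℕ} (h : TT S s p) (g : Γ) (w z : V) :
    B S (g⁻¹ * s * g) p w z = B S s p (g • w) (g • z) := by
  refine B_eq hA (h.conj hA g) ?_
  refine (B_spec hA h (g • w) (g • z)).mono fun n hn => ?_
  rw [conj_d hA, hn]

/-- the elements which preserve the Busemann function of `s` -/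
def stab (S : Sp V Q) (s : Γ) (p : ℕ) : Subgroup Γ where
  carrier := {g | ∀ w z, B S s p (g • w) (g • z) = B S s p w z}
  mul_mem' := by
    intro a b ha hb w z
    rw [mul_smul, mul_smul, ha, hb]
  one_mem' := by
    intro w z
    rw [one_smul, one_smul]
  inv_mem' := by
    intro a ha w z
    rw [← ha, smul_inv_smul, smul_inv_smul]

theorem stab_finiteIndex (hA : Acts Γ S) {s : Γ} {p : ℕ} (h : TT S s p) (o : V) :
    (stab S s p).FiniteIndex := by
  let φ : Γ ⧸ stab S s p → (Fin Q → Finset.Icc (-1 : ℤ) 1) := fun a i =>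
    ⟨B S ((a.out⁻¹)⁻¹ * s * a.out⁻¹) p (S.nb o i) o, by
      have := jet_mem (B_lip hA (h.conj hA a.out⁻¹) o) o i
      rw [B_self hA (h.conj hA a.out⁻¹), sub_zero] at this
      exact this⟩
  have hφ : Function.Injective φ := by
    intro a b hab
    have h1 : ∀ i, B S ((a.out⁻¹)⁻¹ * s * a.out⁻¹) p (S.nb o i) o =
        B S ((b.out⁻¹)⁻¹ * s * b.out⁻¹) p (S.nb o i) o := fun i =>
      congrArg Subtype.val (congrFun hab i)
    have h2 := sect_jet hA (h.conj hA a.out⁻¹) (h.conj hA b.out⁻¹) h1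
    have h3 : a.out⁻¹ * b.out ∈ stab S s p := by
      intro w z
      have h4 := h2 (b.out • w) (b.out • z)
      rw [B_conj hA h, B_conj hA h] at h4
      rw [mul_smul, mul_smul, h4, inv_smul_smul, inv_smul_smul]
    have h5 : (a.out : Γ ⧸ stab S s p) = b.out := QuotientGroup.eq.2 h3
    rwa [QuotientGroup.out_eq', QuotientGroup.out_eq'] at h5
  have : Finite (Γ ⧸ stab S s p) := Finite.of_injective φ hφ
  exact Subgroup.finiteIndex_of_finite_quotient

end

end Pool.Agent.TH595
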