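import Pool.Agent.TH595.Fin

set_option autoImplicit false
open scoped ENNReal Topology

/-!
# Quasi-isometry of graphs, and the standard Cayley graph of `ℤ^d`
-/

namespace Pool.Agent.TH595

open Pool.Agent.H141R3.Ollivier Pool.Agent.H141R3.Growth

/-- The graphs `G` and `H` are quasi-isometric for their graph metrics. -/
def QuasiIsometric {V W : Type} (G : SimpleGraph V) (H : SimpleGraph W) : Prop :=
  ∃ (f : V → W) (C : ℕ), (∀ x y, H.dist (f x) (f y) ≤ C * G.dist x y + C) ∧
    (∀ x y, G.dist x y ≤ C * H.dist (f x) (f y) + C) ∧ ∀ z, ∃ x, H.dist z (f x) ≤ C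

/-- The standard Cayley graph of `ℤ^d`: the generators are the `d` unit vectors. -/
def stdGraph (d : ℕ) : SimpleGraph (Fin d → ℤ) :=
  SimpleGraph.addCayley (Set.range fun i : Fin d => (Pi.single i 1 : Fin d → ℤ))

theorem ell1_single {d : ℕ} (i : Fin d) (s : ℤ) :
    ell1 (Pi.single i s : Fin d → ℤ) = s.natAbs := by
  unfold ell1
  rw [Finset.sum_eq_single i]
  · rw [Pi.single_eq_same]
  · intro j _ hj
    rw [Pi.single_eq_of_ne hj]
    rfl
  · intro h
    exact absurd (Finset.mem_univ _) h

theorem ell1_neg {d : ℕ} (z : Fin d → ℤ) : ell1 (-z) = ell1 z := by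
  unfold ell1
  exact Finset.sum_congr rfl fun i _ => by rw [Pi.neg_apply, Int.natAbs_neg]

theorem std_adj_le {d : ℕ} {z w : Fin d → ℤ} (h : (stdGraph d).Adj z w) : ell1 (z - w) ≤ 1 := by
  rw [stdGraph, SimpleGraph.addCayley_adj] at h
  obtain ⟨-, ⟨i, hi⟩ | ⟨i, hi⟩⟩ := h
  · have e : z - w = - (Pi.single i 1 : Fin d → ℤ) := by
      have hi' : (Pi.single i 1 : Fin d → ℤ) = -z + w := hi
      rw [hi']
      abel
    rw [e, ell1_neg, ell1_single]
    rfl
  · have e : z - w = (Pi.single i 1 : Fin d → ℤ) := by
      have hi' : (Pi.single i 1 : Fin d → ℤ) = -w + z := hi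
      rw [hi']
      abel
    rw [e, ell1_single]
    rfl

theorem ell1_zero {d : ℕ} : ell1 (0 : Fin d → ℤ) = 0 := by
  unfold ell1
  simp

theorem std_walk {d : ℕ} (n : ℕ) : ∀ z w : Fin d → ℤ, ell1 (z - w) = n →
    ∃ p : (stdGraph d).Walk z w, p.length = n := by
  induction n with
  | zero =>
    intro z w h
    have : z = w := by
      funext i
      unfold ell1 at h
      rw [Finset.sum_eq_zero_iff] at h
      have h1 := h i (Finset.mem_univ i)
      rw [Int.natAbs_eq_zero, Pi.sub_apply] at h1
      linarith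
    subst this
    exact ⟨SimpleGraph.Walk.nil, rfl⟩
  | succ n ih =>
    intro z w h
    have hne : z - w ≠ 0 := by
      intro h0
      rw [h0, ell1_zero] at h
      exact absurd h (Nat.succ_ne_zero n).symm
    obtain ⟨i, s, hs, hstep⟩ := ell1_step hne
    have hadj : (stdGraph d).Adj z (z - Pi.single i s) := by
      rw [stdGraph, SimpleGraph.addCayley_adj]
      constructor
      · intro h0
        have h1 := congrFun h0 i
        rw [Pi.sub_apply, Pi.single_eq_same] at h1
        rcases hs with rfl | rfl <;> linarith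
      · rcases hs with rfl | rfl
        · right
          exact ⟨i, by beta_reduce; abel⟩
        · left
          refine ⟨i, ?_⟩
          beta_reduce
          have : (Pi.single i (-1) : Fin d → ℤ) = - Pi.single i 1 := by
            rw [Pi.single_neg]
          rw [this]
          abel
    have h1 : ell1 (z - Pi.single i s - w) = n := by
      have e : z - Pi.single i s - w = z - w - Pi.single i s := by abel
      rw [e]
      omega
    obtain ⟨p, hp⟩ := ih _ _ h1
    exact ⟨SimpleGraph.Walk.cons hadj p, by rw [SimpleGraph.Walk.length_cons, hp]⟩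

theorem std_le {d : ℕ} {z w : Fin d → ℤ} (p : (stdGraph d).Walk z w) :
    ell1 (z - w) ≤ p.length := by
  induction p with
  | nil => rw [sub_self, ell1_zero]; exact Nat.zero_le _
  | @cons x y z hxy p ih =>
    have e : x - z = (x - y) + (y - z) := by abel
    rw [e, SimpleGraph.Walk.length_cons]
    have h1 := ell1_add (x - y) (y - z)
    have h2 := std_adj_le hxy
    omega

theorem std_dist {d : ℕ} (z w : Fin d → ℤ) : (stdGraph d).dist z w = ell1 (z - w) := by
  obtain ⟨p, hp⟩ := std_walk _ z w rfl
  apply le_antisymm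
  · rw [← hp]
    exact SimpleGraph.dist_le p
  · obtain ⟨q, hq⟩ := p.reachable.exists_walk_length_eq_dist
    rw [← hq]
    exact std_le q

theorem qi_std {V : Type} {G : SimpleGraph V} (hG : G.Connected) {d : ℕ}
    (h : QuasiIsometricToZ G d) : QuasiIsometric G (stdGraph d) := by
  obtain ⟨f, C, h1, h2, h3⟩ := h
  choose g hg using h3
  have hd : ∀ x y, G.dist (f (g x)) (f (g y)) ≤ G.dist x y + 2 * C := by
    intro x y
    have h4 := hG.dist_triangle (u := f (g x)) (v := x) (w := f (g y))
    have h5 := hG.dist_triangle (u := x) (v := y) (w := f (g y))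
    have h6 := hg x
    rw [SimpleGraph.dist_comm] at h6
    have h7 := hg y
    omega
  have hd' : ∀ x y, G.dist x y ≤ G.dist (f (g x)) (f (g y)) + 2 * C := by
    intro x y
    have h4 := hG.dist_triangle (u := x) (v := f (g x)) (w := y)
    have h5 := hG.dist_triangle (u := f (g x)) (v := f (g y)) (w := y)
    have h6 := hg x
    have h7 := hg y
    rw [SimpleGraph.dist_comm] at h7
    omega
  refine ⟨g, 2 * C * C + 3 * C, ?_, ?_, ?_⟩
  · intro x y
    rw [std_dist]
    have h4 := h2 (g x) (g y)
    have h5 := Nat.mul_le_mul_left C (hd x y)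
    have h6 : C * (G.dist x y + 2 * C) = C * G.dist x y + 2 * C * C := by ring
    have h7 : (2 * C * C + 3 * C) * G.dist x y =
      C * G.dist x y + (2 * C * C + 2 * C) * G.dist x y := by ring
    have h8 := Nat.zero_le ((2 * C * C + 2 * C) * G.dist x y)
    omega
  · intro x y
    rw [std_dist]
    have h4 := h1 (g x) (g y)
    have h5 := hd' x y
    have h7 : (2 * C * C + 3 * C) * ell1 (g x - g y) =
      C * ell1 (g x - g y) + (2 * C * C + 2 * C) * ell1 (g x - g y) := by ring
    have h8 := Nat.zero_le ((2 * C * C + 2 * C) * ell1 (g x - g y))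
    omega
  · intro z
    refine ⟨f z, ?_⟩
    rw [std_dist]
    have h4 := h2 z (g (f z))
    have h5 := Nat.mul_le_mul_left C (hg (f z))
    have h6 : 2 * C * C = C * C + C * C := by ring
    have h7 := Nat.zero_le (C * C)
    omega

/-- The main theorem in terms of the standard Cayley graph. -/
theorem qi_std_main {V : Type} (G : SimpleGraph V) [G.LocallyFinite] (hG : G.Connected)
    (htr : IsTransitive G) {α : ℝ≥0∞} (hα : α < 1) {P : V → PMF V} (hP : IsLazyWalk G α P)
    (hκ : NonnegCurvature G P) : ∃ d, QuasiIsometric G (stdGraph d) := by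
  obtain ⟨d, hd⟩ := qi_main G hG htr hα hP hκ
  exact ⟨d, qi_std hG hd⟩

/-- The unit vectors generate `ℤ^d`. -/
theorem closure_unit (d : ℕ) : Subgroup.closure ((Finset.univ.image fun i : Fin d =>
    Multiplicative.ofAdd (Pi.single i 1 : Fin d → ℤ) : Finset (Multiplicative (Fin d → ℤ))) :
      Set (Multiplicative (Fin d → ℤ))) = ⊤ := by
  classical
  rw [eq_top_iff]
  intro z _
  have h1 : z = ∏ i : Fin d, (Multiplicative.ofAdd (Pi.single i 1 : Fin d → ℤ)) ^
      (Multiplicative.toAdd z i) := by
    apply Multiplicative.toAdd.injective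
    rw [toAdd_prod]
    funext j
    rw [Finset.sum_apply, Finset.sum_eq_single j]
    · rw [toAdd_zpow, Pi.smul_apply, toAdd_ofAdd, Pi.single_eq_same, smul_eq_mul, mul_one]
    · intro i _ hi
      rw [toAdd_zpow, Pi.smul_apply, toAdd_ofAdd, Pi.single_eq_of_ne hi.symm, smul_zero]
    · intro h
      exact absurd (Finset.mem_univ _) h
  rw [h1]
  refine Subgroup.prod_mem _ fun i _ => Subgroup.zpow_mem _ (Subgroup.subset_closure ?_) _
  simp

theorem iso_dist_le {V W : Type} {G : SimpleGraph V} {H : SimpleGraph W} (φ : G ≃g H)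
    (hG : ∀ x y, G.Reachable x y) (x y : V) : H.dist (φ x) (φ y) ≤ G.dist x y := by
  obtain ⟨p, hp⟩ := (hG x y).exists_walk_length_eq_dist
  rw [← hp, ← SimpleGraph.Walk.length_map (φ : G →g H) p]
  exact SimpleGraph.dist_le _

theorem iso_dist {V W : Type} {G : SimpleGraph V} {H : SimpleGraph W} (φ : G ≃g H)
    (hG : ∀ x y, G.Reachable x y) (x y : V) : H.dist (φ x) (φ y) = G.dist x y := by
  apply le_antisymm (iso_dist_le φ hG x y)
  have hH : ∀ a b, H.Reachable a b := by
    intro a b
    have h1 := (hG (φ.symm a) (φ.symm b)).map (φ : G →g H)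
    have e1 : (φ : G →g H) (φ.symm a) = a := φ.apply_symm_apply a
    have e2 : (φ : G →g H) (φ.symm b) = b := φ.apply_symm_apply b
    rwa [e1, e2] at h1
  have := iso_dist_le φ.symm hH (φ x) (φ y)
  rwa [φ.symm_apply_apply, φ.symm_apply_apply] at this

/-- The multiplicative form of the standard Cayley graph. -/
theorem std_mul (d : ℕ) {V : Type} {G : SimpleGraph V} (h : QuasiIsometric G (stdGraph d)) :
    QuasiIsometric G (SimpleGraph.mulCayley ((Finset.univ.image fun i : Fin d =>
      Multiplicative.ofAdd (Pi.single i 1 : Fin d → ℤ) : Finset (Multiplicative (Fin d → ℤ))) :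
        Set (Multiplicative (Fin d → ℤ)))) := by
  classical
  let φ : stdGraph d ≃g SimpleGraph.mulCayley ((Finset.univ.image fun i : Fin d =>
      Multiplicative.ofAdd (Pi.single i 1 : Fin d → ℤ) : Finset (Multiplicative (Fin d → ℤ))) :
        Set (Multiplicative (Fin d → ℤ))) :=
    { toEquiv := Multiplicative.ofAdd
      map_rel_iff' := by
        intro a b
        rw [SimpleGraph.mulCayley_adj, stdGraph, SimpleGraph.addCayley_adj]
        have key : ∀ a b : Fin d → ℤ, (Multiplicative.ofAdd a)⁻¹ * Multiplicative.ofAdd b ∈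
            ((Finset.univ.image fun i : Fin d => Multiplicative.ofAdd
              (Pi.single i 1 : Fin d → ℤ) : Finset (Multiplicative (Fin d → ℤ))) :
                Set (Multiplicative (Fin d → ℤ))) ↔
            -a + b ∈ Set.range fun i : Fin d => (Pi.single i 1 : Fin d → ℤ) := by
          intro a b
          simp only [Finset.coe_image, Finset.coe_univ, Set.image_univ, Set.mem_range]
          exact Iff.rfl
        rw [key, key]
        exact Iff.and (not_congr Multiplicative.ofAdd.injective.eq_iff) Iff.rfl }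
  have hreach : ∀ a b, (stdGraph d).Reachable a b := fun a b =>
    (std_walk _ a b rfl).choose.reachable
  obtain ⟨f, C, h1, h2, h3⟩ := h
  refine ⟨fun x => φ (f x), C, fun x y => ?_, fun x y => ?_, fun z => ?_⟩
  · rw [iso_dist φ hreach]
    exact h1 x y
  · rw [iso_dist φ hreach]
    exact h2 x y
  · obtain ⟨x, hx⟩ := h3 (φ.symm z)
    refine ⟨x, ?_⟩
    have : z = φ (φ.symm z) := (φ.apply_symm_apply z).symm
    rw [this, iso_dist φ hreach]
    exact hx

end Pool.Agent.TH595
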