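import Pool.Agent.TH595.Par

set_option autoImplicit false

/-!
# Quotients of nonnegatively curved spaces
-/

namespace Pool.Agent.TH595

section
variable {V : Type} {Q : ℕ} (S : Sp V Q) (r : Setoid V)

/-- The quotient graph. -/
def qG : SimpleGraph (Quotient r) where
  Adj α β := α ≠ β ∧ ∃ x y, Quotient.mk r x = α ∧ Quotient.mk r y = β ∧ S.d x y = 1
  symm := ⟨by
    rintro α β ⟨h1, x, y, hx, hy, h2⟩
    exact ⟨h1.symm, y, x, hy, hx, by rw [S.symm]; exact h2⟩⟩
  loopless := ⟨fun α h => h.1 rfl⟩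

theorem qG_reach_step (x : V) {y : V} (h : S.d x y ≤ 1) :
    (qG S r).Reachable (Quotient.mk r x) (Quotient.mk r y) := by
  by_cases h1 : Quotient.mk r x = Quotient.mk r y
  · rw [h1]
  · refine SimpleGraph.Adj.reachable ⟨h1, x, y, rfl, rfl, ?_⟩
    rcases Nat.eq_zero_or_pos (S.d x y) with h0 | h0
    · exact absurd (by rw [S.eq_of_d x y h0]) h1
    · omega

theorem qG_reach (x y : V) : (qG S r).Reachable (Quotient.mk r x) (Quotient.mk r y) := by
  obtain ⟨m, hm⟩ : ∃ m, S.d x y = m := ⟨_, rfl⟩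
  induction m generalizing x with
  | zero => rw [S.eq_of_d x y hm]
  | succ m ih =>
    obtain ⟨i, hi⟩ := S.closer x y m hm
    exact (qG_reach_step S r x (S.nb_le x i)).trans (ih _ hi)

theorem qG_conn [Nonempty V] : (qG S r).Connected := by
  have : Nonempty (Quotient r) := ⟨Quotient.mk r (Classical.arbitrary V)⟩
  rw [SimpleGraph.connected_iff]
  refine ⟨fun α β => ?_, this⟩
  induction α using Quotient.inductionOn with
  | _ x =>
  induction β using Quotient.inductionOn with
  | _ y => exact qG_reach S r x y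

theorem proj_le [Nonempty V] (x y : V) :
    (qG S r).dist (Quotient.mk r x) (Quotient.mk r y) ≤ S.d x y := by
  obtain ⟨m, hm⟩ : ∃ m, S.d x y = m := ⟨_, rfl⟩
  have hstep : ∀ x y : V, S.d x y ≤ 1 →
      (qG S r).dist (Quotient.mk r x) (Quotient.mk r y) ≤ 1 := by
    intro x y h
    by_cases h1 : Quotient.mk r x = Quotient.mk r y
    · rw [h1, SimpleGraph.dist_self]
      omega
    · have : (qG S r).Adj (Quotient.mk r x) (Quotient.mk r y) := by
        refine ⟨h1, x, y, rfl, rfl, ?_⟩
        rcases Nat.eq_zero_or_pos (S.d x y) with h0 | h0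
        · exact absurd (by rw [S.eq_of_d x y h0]) h1
        · omega
      rw [SimpleGraph.dist_eq_one_iff_adj.2 this]
  rw [hm]
  induction m generalizing x with
  | zero => rw [S.eq_of_d x y hm, SimpleGraph.dist_self]
  | succ m ih =>
    obtain ⟨i, hi⟩ := S.closer x y m hm
    have h1 := ih _ hi
    have h2 := hstep x _ (S.nb_le x i)
    have h3 := (qG_conn S r).dist_triangle (u := Quotient.mk r x)
      (v := Quotient.mk r (S.nb x i)) (w := Quotient.mk r y)
    omega

/-- The equivalence relation is compatible with the lists of neighbours. -/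
def Compat : Prop := ∀ x y, r x y → ∃ σ : Equiv.Perm (Fin Q), ∀ i, r (S.nb x i) (S.nb y (σ i))

variable {S r}

theorem adj_nb (hr : Compat S r) {α β : Quotient r} (h : (qG S r).Adj α β) (x : V)
    (hx : Quotient.mk r x = α) : ∃ i, Quotient.mk r (S.nb x i) = β := by
  obtain ⟨-, y, z, hy, hz, h1⟩ := h
  obtain ⟨j, hj⟩ := S.closer y z 0 h1
  have h2 : r y x := Quotient.exact (hy.trans hx.symm)
  obtain ⟨σ, hσ⟩ := hr y x h2
  refine ⟨σ j, ?_⟩
  rw [← hz, ← S.eq_of_d _ _ hj]
  exact (Quotient.sound (hσ j)).symm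

theorem exists_closer' {W : Type} {G : SimpleGraph W} (hG : G.Connected) {x z : W} {m : ℕ}
    (hd : G.dist x z = m + 1) : ∃ y, G.Adj x y ∧ G.dist y z = m := by
  obtain ⟨p, hp⟩ := hG.exists_walk_length_eq_dist x z
  rw [hd] at hp
  cases p with
  | nil => simp at hp
  | @cons _ y _ hadj q =>
    rw [SimpleGraph.Walk.length_cons] at hp
    refine ⟨y, hadj, ?_⟩
    have h1 := SimpleGraph.dist_le q
    have h2 := hG.dist_triangle (u := x) (v := y) (w := z)
    rw [SimpleGraph.dist_eq_one_iff_adj.2 hadj] at h2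
    omega

/-- lifting of paths -/
theorem exists_lift [Nonempty V] (hr : Compat S r) (w : V) (β : Quotient r) (n : ℕ)
    (h : (qG S r).dist (Quotient.mk r w) β = n) :
    ∃ y, Quotient.mk r y = β ∧ S.d w y ≤ n := by
  induction n generalizing w with
  | zero =>
    refine ⟨w, ?_, by rw [S.d_self]⟩
    exact ((qG_conn S r).dist_eq_zero_iff).1 h
  | succ n ih =>
    obtain ⟨γ, h1, h2⟩ := exists_closer' (qG_conn S r) h
    obtain ⟨i, hi⟩ := adj_nb hr h1 w rfl
    rw [← hi] at h2
    obtain ⟨y, hy, hy'⟩ := ih _ h2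
    refine ⟨y, hy, ?_⟩
    have := S.tri w (S.nb w i) y
    have := S.nb_le w i
    omega

variable (S r) in
/-- The quotient space. -/
noncomputable def quo [Nonempty V] (hr : Compat S r) : Sp (Quotient r) Q where
  d := (qG S r).dist
  nb α i := Quotient.mk r (S.nb α.out i)
  d_self _ := SimpleGraph.dist_self
  eq_of_d _ _ h := ((qG_conn S r).dist_eq_zero_iff).1 h
  symm _ _ := SimpleGraph.dist_comm
  tri _ _ _ := (qG_conn S r).dist_triangle
  nb_le α i := by
    have := proj_le S r α.out (S.nb α.out i)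
    rw [Quotient.out_eq] at this
    exact this.trans (S.nb_le _ _)
  closer α β m h := by
    obtain ⟨γ, h1, h2⟩ := exists_closer' (qG_conn S r) h
    obtain ⟨i, hi⟩ := adj_nb hr h1 α.out (Quotient.out_eq α)
    exact ⟨i, by rw [hi]; exact h2⟩
  curv α β h := by
    obtain ⟨i, hi⟩ := adj_nb hr (SimpleGraph.dist_eq_one_iff_adj.1 h) α.out (Quotient.out_eq α)
    have h1 : S.d α.out (S.nb α.out i) = 1 := by
      have a1 := S.nb_le α.out i
      rcases Nat.eq_zero_or_pos (S.d α.out (S.nb α.out i)) with h0 | h0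
      · exfalso
        rw [← S.eq_of_d _ _ h0, Quotient.out_eq] at hi
        rw [hi, SimpleGraph.dist_self] at h
        omega
      · omega
    obtain ⟨σ, hσ⟩ := S.curv _ _ h1
    have h2 : r (S.nb α.out i) β.out := Quotient.exact (by rw [hi, Quotient.out_eq])
    obtain ⟨τ, hτ⟩ := hr _ _ h2
    refine ⟨σ.trans τ, le_trans (Finset.sum_le_sum fun j _ => ?_) hσ⟩
    have h3 := proj_le S r (S.nb α.out j) (S.nb (S.nb α.out i) (σ j))
    rwa [Quotient.sound (hτ (σ j))] at h3

end

section
variable {Γ : Type} [Group Γ] {V : Type} [MulAction Γ V] {Q : ℕ} {S : Sp V Q} {r : Setoid V}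

/-- The action of a subgroup which preserves the equivalence relation on the quotient. -/
@[reducible] def quoAct (H : Subgroup Γ) (hH : ∀ g ∈ H, ∀ x y : V, r x y → r (g • x) (g • y)) :
    MulAction H (Quotient r) where
  smul g α := Quotient.map (fun x => (g : Γ) • x) (fun x y h => hH g g.2 x y h) α
  one_smul α := by
    induction α using Quotient.inductionOn with
    | _ x =>
      change Quotient.mk r ((1 : Γ) • x) = _
      rw [one_smul]
  mul_smul g h α := by
    induction α using Quotient.inductionOn with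
    | _ x =>
      change Quotient.mk r (((g : Γ) * (h : Γ)) • x) = Quotient.mk r ((g : Γ) • (h : Γ) • x)
      rw [mul_smul]

theorem quoAct_mk (H : Subgroup Γ) (hH : ∀ g ∈ H, ∀ x y : V, r x y → r (g • x) (g • y))
    (g : H) (x : V) : (quoAct H hH).smul g (Quotient.mk r x) = Quotient.mk r ((g : Γ) • x) := rfl

theorem quoAct_acts [Nonempty V] (hA : Acts Γ S) (hr : Compat S r) (H : Subgroup Γ)
    (hH : ∀ g ∈ H, ∀ x y : V, r x y → r (g • x) (g • y)) :
    @Acts H _ (Quotient r) (quoAct H hH) Q (quo S r hr) := by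
  let _ := quoAct H hH
  have hle : ∀ (g : H) (α β : Quotient r),
      (quo S r hr).d (g • α) (g • β) ≤ (quo S r hr).d α β := by
    intro g α β
    induction α using Quotient.inductionOn with
    | _ x =>
    obtain ⟨y, hy, hy'⟩ := exists_lift hr x β _ rfl
    subst hy
    refine le_trans ?_ hy'
    rw [← hA.isom (g : Γ)]
    exact proj_le S r _ _
  constructor
  · intro g α β
    refine le_antisymm (hle g α β) ?_
    have := hle g⁻¹ (g • α) (g • β)
    rwa [inv_smul_smul, inv_smul_smul] at this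
  · intro g α
    have h1 : r (g • α).out ((g : Γ) • α.out) := by
      refine Quotient.exact ?_
      rw [Quotient.out_eq]
      conv_lhs => rw [← Quotient.out_eq α]
      rfl
    obtain ⟨σ, hσ⟩ := hr _ _ h1
    obtain ⟨τ, hτ⟩ := hA.equi (g : Γ) α.out
    refine ⟨σ.trans τ, fun i => ?_⟩
    have h2 := Quotient.sound (hσ i)
    rw [hτ] at h2
    exact h2

/-- A subgroup of finite index of a group acting with finitely many orbits acts with finitely
many orbits. -/
theorem Cofin.sub (hF : Cofin Γ V) (H : Subgroup Γ) [H.FiniteIndex] : Cofin H V := by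
  classical
  obtain ⟨F, hF⟩ := hF
  have hfin : Finite (Γ ⧸ H) := Subgroup.finite_quotient_of_finiteIndex
  have _ := Fintype.ofFinite (Γ ⧸ H)
  refine ⟨(Finset.univ ×ˢ F).image fun q : (Γ ⧸ H) × V => (q.1.out)⁻¹ • q.2, fun x => ?_⟩
  obtain ⟨g, hg⟩ := hF x
  -- `g x ∈ F`; write `g = t h` with `t` a representative
  let t : Γ := ((g : Γ ⧸ H)).out
  have h1 : t⁻¹ * g ∈ H := by
    rw [← QuotientGroup.eq]
    exact QuotientGroup.out_eq' _
  refine ⟨⟨t⁻¹ * g, h1⟩, ?_⟩
  rw [Finset.mem_image]
  refine ⟨((g : Γ ⧸ H), g • x), ?_, ?_⟩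
  · rw [Finset.mem_product]
    exact ⟨Finset.mem_univ _, hg⟩
  · change t⁻¹ • g • x = (t⁻¹ * g) • x
    rw [mul_smul]

theorem quoAct_cofin (hF : Cofin Γ V) (H : Subgroup Γ) [H.FiniteIndex]
    (hH : ∀ g ∈ H, ∀ x y : V, r x y → r (g • x) (g • y)) :
    @Cofin H _ (Quotient r) (quoAct H hH) := by
  classical
  obtain ⟨F, hF⟩ := hF.sub H
  let _ := quoAct H hH
  refine ⟨F.image (Quotient.mk r), fun α => ?_⟩
  induction α using Quotient.inductionOn with
  | _ x =>
  obtain ⟨g, hg⟩ := hF x
  exact ⟨g, Finset.mem_image.2 ⟨_, hg, rfl⟩⟩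

end

end Pool.Agent.TH595
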