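import Mathlib

set_option autoImplicit false

/-!
# Integral random walks with nonnegative Ollivier-Ricci curvature

`Sp V Q` is a geodesic integer valued metric on `V` together with, for every point `x`, a list
`nb x` of `Q` points at distance at most one, such that along every edge some bijection of the two
lists has total cost at most `Q`.
-/

namespace Pool.Agent.TH595

/-- A space with a `Q`-valued list of neighbours and nonnegative curvature. -/
structure Sp (V : Type) (Q : ℕ) where
  d : V → V → ℕ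
  nb : V → Fin Q → V
  d_self : ∀ x, d x x = 0
  eq_of_d : ∀ x y, d x y = 0 → x = y
  symm : ∀ x y, d x y = d y x
  tri : ∀ x y z, d x z ≤ d x y + d y z
  nb_le : ∀ x i, d x (nb x i) ≤ 1
  closer : ∀ x z m, d x z = m + 1 → ∃ i, d (nb x i) z = m
  curv : ∀ x y, d x y = 1 → ∃ σ : Equiv.Perm (Fin Q), ∑ i, d (nb x i) (nb y (σ i)) ≤ Q

variable {V : Type} {Q : ℕ} (S : Sp V Q)

/-- `1`-Lipschitz functions -/
def Lip (f : V → ℤ) : Prop := ∀ x y, f x - f y ≤ S.d x y

/-- every point has a neighbour where the function is smaller by one -/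
def Dn (f : V → ℤ) : Prop := ∀ x, ∃ i, f (S.nb x i) = f x - 1

/-- the drift -/
def D (f : V → ℤ) (x : V) : ℤ := ∑ i, (f (S.nb x i) - f x)

/-- `f` decreases with slope one from `x` to `y` -/
def T (f : V → ℤ) (x y : V) : Prop := (S.d x y : ℤ) = f x - f y

/-- the drift depends on the values on the list of neighbours -/
theorem D_congr {f g : V → ℤ} {x : V} (h0 : f x = g x) (h : ∀ i, f (S.nb x i) = g (S.nb x i)) :
    D S f x = D S g x := by
  unfold D
  exact Finset.sum_congr rfl fun i _ => by rw [h, h0]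

variable {S}

theorem T.refl (f : V → ℤ) (x : V) : T S f x x := by
  unfold T
  rw [S.d_self]
  simp

theorem T.trans {f : V → ℤ} (hf : Lip S f) {x y z : V} (h1 : T S f x y) (h2 : T S f y z) :
    T S f x z := by
  unfold T at *
  have h3 := S.tri x y z
  have h4 := hf x z
  omega

/-- a point on the way -/
theorem T.between {f : V → ℤ} (hf : Lip S f) {x y z : V} (h : T S f x z)
    (h1 : S.d x y + S.d y z ≤ S.d x z) : T S f x y ∧ T S f y z := by
  unfold T at *
  have h3 := hf x y
  have h4 := hf y z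
  constructor <;> omega

theorem T.split {f : V → ℤ} (hf : Lip S f) {x y : V} (h : T S f x y) {m : ℕ}
    (hm : S.d x y = m + 1) :
    ∃ i, S.d x (S.nb x i) = 1 ∧ T S f x (S.nb x i) ∧ T S f (S.nb x i) y ∧
      S.d (S.nb x i) y = m := by
  obtain ⟨i, hi⟩ := S.closer x y m hm
  have h1 := S.nb_le x i
  have h2 := S.tri x (S.nb x i) y
  have h3 : S.d x (S.nb x i) = 1 := by omega
  obtain ⟨h4, h5⟩ := h.between hf (y := S.nb x i) (by omega)
  exact ⟨i, h3, h4, h5, hi⟩

/-- one step -/
theorem step {f : V → ℤ} (hf : Lip S f) {x y : V} (hd : S.d x y = 1) (h : T S f x y)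
    {σ : Equiv.Perm (Fin Q)} (hσ : ∑ i, S.d (S.nb x i) (S.nb y (σ i)) ≤ Q) :
    D S f x ≤ D S f y ∧
      (D S f x = D S f y → ∀ i, T S f (S.nb x i) (S.nb y (σ i))) := by
  have h1 : ∀ i, 0 ≤ (S.d (S.nb x i) (S.nb y (σ i)) : ℤ) -
      (f (S.nb x i) - f (S.nb y (σ i))) := by
    intro i
    have := hf (S.nb x i) (S.nb y (σ i))
    omega
  have h2 : ∑ i, ((S.d (S.nb x i) (S.nb y (σ i)) : ℤ) - (f (S.nb x i) - f (S.nb y (σ i)))) =
      (∑ i, (S.d (S.nb x i) (S.nb y (σ i)) : ℤ)) - Q - (D S f x - D S f y) := by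
    have e1 : ∑ i, f (S.nb y (σ i)) = ∑ i, f (S.nb y i) := Equiv.sum_comp σ fun i => f (S.nb y i)
    have e2 : D S f x = (∑ i, f (S.nb x i)) - Q * f x := by
      unfold D
      rw [Finset.sum_sub_distrib]
      simp
    have e3 : D S f y = (∑ i, f (S.nb y i)) - Q * f y := by
      unfold D
      rw [Finset.sum_sub_distrib]
      simp
    have e4 : f x = f y + 1 := by
      unfold T at h
      omega
    rw [Finset.sum_sub_distrib, Finset.sum_sub_distrib, e1, e2, e3, e4]
    ring
  have h3 : (∑ i, (S.d (S.nb x i) (S.nb y (σ i)) : ℤ)) ≤ Q := by exact_mod_cast hσ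
  have h4 := Finset.sum_nonneg fun i (_ : i ∈ Finset.univ) => h1 i
  rw [h2] at h4
  refine ⟨by linarith, fun heq i => ?_⟩
  have h5 : ∑ i, ((S.d (S.nb x i) (S.nb y (σ i)) : ℤ) -
      (f (S.nb x i) - f (S.nb y (σ i)))) = 0 := by
    refine le_antisymm ?_ (Finset.sum_nonneg fun i _ => h1 i)
    rw [h2]
    linarith
  rw [Finset.sum_eq_zero_iff_of_nonneg fun i _ => h1 i] at h5
  have := h5 i (Finset.mem_univ i)
  unfold T
  linarith

/-- the drift is nondecreasing along descending paths -/
theorem D_mono {f : V → ℤ} (hf : Lip S f) {x y : V} (h : T S f x y) : D S f x ≤ D S f y := by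
  obtain ⟨m, hm⟩ : ∃ m, S.d x y = m := ⟨_, rfl⟩
  induction m generalizing x with
  | zero => rw [S.eq_of_d x y hm]
  | succ m ih =>
    obtain ⟨i, h1, h2, h3, h4⟩ := h.split hf hm
    obtain ⟨σ, hσ⟩ := S.curv _ _ h1
    exact (step hf h1 h2 hσ).1.trans (ih h3 h4)

/-- transport along a descending path of constant drift -/
theorem transport {f : V → ℤ} (hf : Lip S f) {x y : V} (h : T S f x y)
    (hD : D S f x = D S f y) :
    ∃ σ : Equiv.Perm (Fin Q), ∀ i, T S f (S.nb x i) (S.nb y (σ i)) := by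
  obtain ⟨m, hm⟩ : ∃ m, S.d x y = m := ⟨_, rfl⟩
  induction m generalizing x with
  | zero =>
    rw [S.eq_of_d x y hm]
    exact ⟨1, fun i => T.refl f _⟩
  | succ m ih =>
    obtain ⟨i, h1, h2, h3, h4⟩ := h.split hf hm
    obtain ⟨σ, hσ⟩ := S.curv _ _ h1
    obtain ⟨h5, h6⟩ := step hf h1 h2 hσ
    have h7 := D_mono hf h3
    have h8 : D S f x = D S f (S.nb x i) := by omega
    obtain ⟨τ, hτ⟩ := ih h3 (by omega) h4
    refine ⟨σ.trans τ, fun j => ?_⟩
    exact (h6 h8 j).trans hf (hτ (σ j))

/-- Two functions with the same values near `x` agree along a path of constant drift. -/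
theorem determ {f g : V → ℤ} (hf : Lip S f) (hg : Lip S g) {x y : V} (h : T S f x y)
    (hD : D S f x = D S f y) (h0 : g x = f x) (hJ : ∀ i, g (S.nb x i) = f (S.nb x i))
    (hc : ∀ w, T S g x w → D S g w = D S g x) :
    g y = f y ∧ ∀ i, g (S.nb y i) = f (S.nb y i) := by
  obtain ⟨m, hm⟩ : ∃ m, S.d x y = m := ⟨_, rfl⟩
  induction m generalizing x with
  | zero =>
    rw [← S.eq_of_d x y hm]
    exact ⟨h0, hJ⟩
  | succ m ih =>
    obtain ⟨i, h1, h2, h3, h4⟩ := h.split hf hm
    obtain ⟨σ, hσ⟩ := S.curv _ _ h1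
    obtain ⟨h5, h6⟩ := step hf h1 h2 hσ
    have h7 := D_mono hf h3
    have h8 : D S f x = D S f (S.nb x i) := by omega
    have h9 : T S g x (S.nb x i) := by
      unfold T at h2 ⊢
      rw [h0, hJ]
      exact h2
    have h10 := hc _ h9
    obtain ⟨-, h11⟩ := step hg h1 h9 hσ
    have h12 := h11 h10.symm
    have h13 := h6 h8
    refine ih h3 (by omega) (hJ i) ?_ ?_ h4
    · intro j
      obtain ⟨k, rfl⟩ := σ.surjective j
      have a1 := h12 k
      have a2 := h13 k
      unfold T at a1 a2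
      rw [hJ] at a1
      linarith
    · intro w hw
      rw [h10]
      exact hc w (h9.trans hg hw)

/-- the drift is at most `Q` -/
theorem D_le {f : V → ℤ} (hf : Lip S f) (x : V) : D S f x ≤ Q := by
  unfold D
  have : ∀ i ∈ Finset.univ, f (S.nb x i) - f x ≤ 1 := by
    intro i _
    have h1 := hf (S.nb x i) x
    have h2 := S.nb_le x i
    rw [S.symm] at h2
    omega
  refine (Finset.sum_le_card_nsmul _ _ _ this).trans ?_
  simp

/-- jets take few values -/
theorem jet_mem {f : V → ℤ} (hf : Lip S f) (x : V) (i : Fin Q) :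
    f (S.nb x i) - f x ∈ Finset.Icc (-1 : ℤ) 1 := by
  have h1 := hf (S.nb x i) x
  have h3 := hf x (S.nb x i)
  have h2 := S.nb_le x i
  have h4 := S.symm x (S.nb x i)
  rw [Finset.mem_Icc]
  omega

theorem Lip.dist (y : V) : Lip S fun x => (S.d x y : ℤ) := by
  intro x z
  have := S.tri x z y
  simp only
  omega

theorem Lip.sub_const {f : V → ℤ} (hf : Lip S f) (c : ℤ) : Lip S fun x => f x - c := by
  intro x z
  have := hf x z
  simp only
  omega

/-! Balls are finite. -/

theorem finite_ball (x : V) (n : ℕ) : {y | S.d x y ≤ n}.Finite := by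
  induction n generalizing x with
  | zero =>
    refine (Set.finite_singleton x).subset fun y hy => ?_
    have h1 : S.d x y ≤ 0 := hy
    exact (S.eq_of_d x y (by omega)).symm
  | succ n ih =>
    have h : {y | S.d x y ≤ n + 1} ⊆ {x} ∪ ⋃ i, {y | S.d (S.nb x i) y ≤ n} := by
      intro y hy
      have hy' : S.d x y ≤ n + 1 := hy
      rcases Nat.eq_zero_or_pos (S.d x y) with h0 | h0
      · left
        exact (S.eq_of_d x y h0).symm
      · right
        obtain ⟨i, hi⟩ := S.closer x y (S.d x y - 1) (by omega)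
        refine Set.mem_iUnion.2 ⟨i, ?_⟩
        have : S.d (S.nb x i) y ≤ n := by omega
        exact this
    exact ((Set.finite_singleton x).union (Set.finite_iUnion fun i => ih (S.nb x i))).subset h

end Pool.Agent.TH595
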